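import Mathlib
import Pool.Agent.HuaOne84.Basic

/-!
Perfect pairs of subspaces of a Hua system: translates, cosets, and the three point lemma.
-/

set_option autoImplicit false

namespace Pool.Agent.HuaDom91

open Pool.Agent.HuaTop84 Pool.Agent.HuaVal Pool.Agent.HuaOne84

variable {A : Type} [AddCommGroup A] {K : Type} [Field K] [Module K A] {H : HS A}

/-- The map `U c` as a linear map. -/
def lin (S : H.Scal K) (c : A) : A →ₗ[K] A where
  toFun := H.U c
  map_add' := map_add _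
  map_smul' := fun t x => S.U_smul c t x

@[simp] theorem lin_apply (S : H.Scal K) (c x : A) : lin S c x = H.U c x := rfl

/-- The translate `U_c⁻¹ P` of a subspace. -/
def N (S : H.Scal K) (P : Submodule K A) (c : A) : Submodule K A := P.comap (lin S c)

theorem mem_N {S : H.Scal K} {P : Submodule K A} {c x : A} : x ∈ N S P c ↔ H.U c x ∈ P :=
  Iff.rfl

/-- A perfect pair: `P` and `R` are proper nonzero subspaces and `y ∈ P` if and only if
`y⁻¹ ∉ R`, for every `y ≠ 0`. -/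
structure Perf (H : HS A) (P R : Submodule K A) : Prop where
  ne_bot : P ≠ ⊥
  ne_top : P ≠ ⊤
  iff : ∀ y, y ≠ 0 → (y ∈ P ↔ H.inv y ∉ R)

/-- The difference formula. -/
theorem inv_sub (H : HS A) {x w : A} (hx : x ≠ 0) (hw : w ≠ 0) (hxw : x + w ≠ 0) :
    H.inv x - H.inv (x + w) = H.inv (x + H.U x (H.inv w)) := by
  have h1 := H.inv_add x w hx hw hxw
  have h2 := H.inv_U x (H.inv x + H.inv w) hx
  rw [map_add, H.U_self] at h2
  rw [h1, h2]
  abel

/-- The shift formula. -/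
theorem U_shift (H : HS A) (u : A) {a : A} (ha : a ≠ 0) :
    H.U (u + a) (H.inv a) = H.U u (H.inv a) + (u + u + a) := by
  have h := H.diff (u + a) u (by simpa using ha)
  rw [add_sub_cancel_left] at h
  rw [sub_eq_iff_eq_add] at h
  rw [h]
  abel

theorem inv_inj {H : HS A} {x y : A} (h : H.inv x = H.inv y) : x = y := by
  rw [← H.inv_inv x, h, H.inv_inv]

theorem inv_ne' {H : HS A} {x : A} (h : x ≠ 0) : H.inv x ≠ 0 := H.inv_ne x h

namespace Perf

variable {P R : Submodule K A} (h : Perf H P R)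

include h

theorem not_iff {y : A} (hy : y ≠ 0) : y ∉ P ↔ H.inv y ∈ R := by
  rw [h.iff y hy, not_not]

theorem inv_mem {y : A} (hy : y ∉ P) : H.inv y ∈ R := by
  have hy0 : y ≠ 0 := fun h0 => hy (h0 ▸ P.zero_mem)
  exact (h.not_iff hy0).1 hy

theorem inv_notMem {y : A} (hy : y ∈ P) (hy0 : y ≠ 0) : H.inv y ∉ R := (h.iff y hy0).1 hy

theorem symm : Perf H R P where
  ne_bot := by
    obtain ⟨y, hy⟩ : ∃ y, y ∉ P := by
      by_contra hcon
      push Not at hcon
      exact h.ne_top (eq_top_iff.2 fun x _ => hcon x)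
    intro hR
    have h1 := h.inv_mem hy
    rw [hR, Submodule.mem_bot] at h1
    have hy0 : y ≠ 0 := fun h0 => hy (h0 ▸ P.zero_mem)
    exact H.inv_ne y hy0 h1
  ne_top := by
    obtain ⟨y, hy, hy0⟩ := Submodule.exists_mem_ne_zero_of_ne_bot h.ne_bot
    intro hR
    exact h.inv_notMem hy hy0 (hR ▸ Submodule.mem_top)
  iff := fun y hy => by
    have h1 := h.iff (H.inv y) (H.inv_ne y hy)
    rw [H.inv_inv] at h1
    rw [h1, not_not]

theorem inv_mem' {y : A} (hy : y ∉ R) : H.inv y ∈ P := h.symm.inv_mem hy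

/-- The pair `(U_c R, U_c⁻¹ P)`. -/
theorem refl (S : H.Scal K) {c : A} (hc : c ≠ 0) : Perf H (N S R (H.inv c)) (N S P c) where
  ne_bot := by
    obtain ⟨y, hy, hy0⟩ := Submodule.exists_mem_ne_zero_of_ne_bot h.symm.ne_bot
    intro hN
    have h1 : H.U c y ∈ N S R (H.inv c) := by
      rw [mem_N, H.U_inv_left c y hc]; exact hy
    rw [hN, Submodule.mem_bot] at h1
    exact hy0 (H.U_inj hc h1)
  ne_top := by
    intro hN
    apply h.symm.ne_top
    rw [eq_top_iff]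
    intro z _
    have h1 : H.U c z ∈ N S R (H.inv c) := hN ▸ Submodule.mem_top
    rwa [mem_N, H.U_inv_left c z hc] at h1
  iff := fun y hy => by
    rw [mem_N, mem_N]
    have hy' : H.U (H.inv c) y ≠ 0 := fun h0 => hy (H.U_inj (H.inv_ne c hc) h0)
    rw [h.symm.iff _ hy', H.inv_U _ _ (H.inv_ne c hc), H.inv_inv]

/-- The pair `(U_c P, U_c⁻¹ R)`. -/
theorem trans (S : H.Scal K) {c : A} (hc : c ≠ 0) : Perf H (N S P (H.inv c)) (N S R c) where
  ne_bot := by
    obtain ⟨y, hy, hy0⟩ := Submodule.exists_mem_ne_zero_of_ne_bot h.ne_bot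
    intro hN
    have h1 : H.U c y ∈ N S P (H.inv c) := by
      rw [mem_N, H.U_inv_left c y hc]; exact hy
    rw [hN, Submodule.mem_bot] at h1
    exact hy0 (H.U_inj hc h1)
  ne_top := by
    intro hN
    apply h.ne_top
    rw [eq_top_iff]
    intro z _
    have h1 : H.U c z ∈ N S P (H.inv c) := hN ▸ Submodule.mem_top
    rwa [mem_N, H.U_inv_left c z hc] at h1
  iff := fun y hy => by
    rw [mem_N, mem_N]
    have hy' : H.U (H.inv c) y ≠ 0 := fun h0 => hy (H.U_inj (H.inv_ne c hc) h0)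
    rw [h.iff _ hy', H.inv_U _ _ (H.inv_ne c hc), H.inv_inv]

theorem add_ne {c p : A} (hc : c ∉ P) (hp : p ∈ P) : c + p ∉ P := fun h0 => hc (by
  have := P.sub_mem h0 hp
  rwa [add_sub_cancel_right] at this)

/-- Cosets: inversion maps `c + P` into `c⁻¹ + U_c⁻¹ P`. -/
theorem coset (S : H.Scal K) {c p : A} (hc : c ∉ P) (hp : p ∈ P) :
    H.inv (c + p) - H.inv c ∈ N S P c := by
  have hc0 : c ≠ 0 := fun h0 => hc (h0 ▸ P.zero_mem)
  by_cases hp0 : p = 0
  · rw [hp0, add_zero, sub_self]; exact Submodule.zero_mem _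
  have hcp : c + p ≠ 0 := fun h0 => h.add_ne hc hp (h0 ▸ P.zero_mem)
  have h1 := H.inv_add c p hc0 hp0 hcp
  have h2 : H.inv (c + p) - H.inv c = -H.U (H.inv c) (H.inv (H.inv c + H.inv p)) := by
    rw [h1]; abel
  rw [h2]
  apply Submodule.neg_mem
  rw [mem_N, H.U_inv_right c _ hc0]
  apply h.inv_mem'
  intro h3
  apply h.inv_notMem hp hp0
  have h4 := R.sub_mem h3 (h.inv_mem hc)
  rwa [add_sub_cancel_left] at h4

/-- Every point of the coset `c⁻¹ + U_c⁻¹ P` is the inverse of a point of `c + P`. -/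
theorem coset' (S : H.Scal K) {c x : A} (hc : c ∉ P) (hx : x ∈ N S P c) :
    ∃ p ∈ P, H.inv c + x = H.inv (c + p) := by
  have hc0 : c ≠ 0 := fun h0 => hc (h0 ▸ P.zero_mem)
  by_cases hx0 : x = 0
  · exact ⟨0, P.zero_mem, by rw [hx0, add_zero, add_zero]⟩
  have hp'0 : H.U c x ≠ 0 := fun h0 => hx0 (H.U_inj hc0 h0)
  have h1 : H.inv (H.U c x) + H.inv c ∉ R := by
    intro h2
    apply h.inv_notMem hx hp'0
    have h4 := R.sub_mem h2 (h.inv_mem hc)
    rwa [add_sub_cancel_right] at h4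
  have h10 : H.inv (H.U c x) + H.inv c ≠ 0 := fun h0 => h1 (h0 ▸ R.zero_mem)
  have hp : -H.inv (H.inv (H.U c x) + H.inv c) ∈ P := P.neg_mem (h.inv_mem' h1)
  refine ⟨_, hp, ?_⟩
  set p := -H.inv (H.inv (H.U c x) + H.inv c) with hpdef
  have hp0 : p ≠ 0 := by
    rw [hpdef]; exact neg_ne_zero.mpr (H.inv_ne _ h10)
  have hcp : c + p ≠ 0 := fun h0 => h.add_ne hc hp (h0 ▸ P.zero_mem)
  have h2 := H.inv_add c p hc0 hp0 hcp
  have h3 : H.inv p = -(H.inv (H.U c x) + H.inv c) := by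
    rw [hpdef, H.inv_neg, H.inv_inv]
  have h4 : H.inv c + H.inv p = -H.inv (H.U c x) := by rw [h3]; abel
  rw [h4, H.inv_neg, H.inv_inv, map_neg, H.U_inv_left c x hc0] at h2
  rw [h2]
  abel

/-- `U_{c+p}⁻¹ P = U_c⁻¹ P` for `c ∉ P`, `p ∈ P`. -/
theorem N_le_add (S : H.Scal K) {c p : A} (hc : c ∉ P) (hp : p ∈ P) : N S P c ≤ N S P (c + p) := by
  intro x hx
  have h1 := h.coset S hc hp
  obtain ⟨q, hq, h2⟩ := h.coset' S hc (Submodule.add_mem _ hx h1)
  have h3 := h.coset S (h.add_ne hc hp) (P.sub_mem hq hp)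
  have h4 : c + p + (q - p) = c + q := by abel
  rw [h4, ← h2] at h3
  have h5 : H.inv c + (x + (H.inv (c + p) - H.inv c)) - H.inv (c + p) = x := by abel
  rwa [h5] at h3

theorem N_add (S : H.Scal K) {c p : A} (hc : c ∉ P) (hp : p ∈ P) : N S P (c + p) = N S P c := by
  apply le_antisymm
  · have h1 := h.N_le_add S (h.add_ne hc hp) (P.neg_mem hp)
    rwa [add_neg_cancel_right] at h1
  · exact h.N_le_add S hc hp

/-- `U_c⁻¹ P ⊆ R` for `c ∉ P`. -/
theorem N_le (S : H.Scal K) {c : A} (hc : c ∉ P) : N S P c ≤ R := by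
  intro x hx
  obtain ⟨p, hp, h1⟩ := h.coset' S hc hx
  have h2 := h.inv_mem (h.add_ne hc hp)
  rw [← h1] at h2
  have h3 := R.sub_mem h2 (h.inv_mem hc)
  rwa [add_sub_cancel_left] at h3

/-- `R ⊆ U_c⁻¹ P` for `c ∈ P`, `c ≠ 0`. -/
theorem le_N (S : H.Scal K) {c : A} (hc : c ∈ P) (hc0 : c ≠ 0) : R ≤ N S P c := by
  intro x hx
  have h1 := h.symm.N_le S (h.inv_notMem hc hc0)
  rw [mem_N]
  apply h1
  rw [mem_N, H.U_inv_left c x hc0]
  exact hx

end Perf

theorem N_smul (S : H.Scal K) (P : Submodule K A) {t : K} (ht : t ≠ 0) (c : A) :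
    N S P (t • c) = N S P c := by
  ext x
  rw [mem_N, mem_N, S.U_smul_left, P.smul_mem_iff (mul_ne_zero ht ht)]

/-- The exact formula for the conjugate of a quasi-translation by a translation. -/
theorem conj_formula (H : HS A) {z y v : A} (hz : z ≠ 0) (hy : y ≠ 0) (hzy : z + y ≠ 0)
    (ha : H.inv z + v ≠ 0) (ha' : H.inv (z + y) + v ≠ 0) :
    H.inv (H.inv (H.inv (z + y) + v) - H.inv (H.inv z + v)) =
      H.U (H.inv z + v) (H.U z (H.inv y)) + H.U (H.inv z + v) z - (H.inv z + v) := by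
  set a := H.inv z + v with hadef
  set b := H.inv (z + y) - H.inv z with hb
  have hb0 : b ≠ 0 := by
    rw [hb]
    intro h0
    apply hy
    have h1 := inv_inj (H := H) (sub_eq_zero.mp h0)
    simpa using h1
  have hab : H.inv (z + y) + v = a + b := by rw [hadef, hb]; abel
  rw [hab] at ha' ⊢
  have h1 := inv_sub H ha hb0 ha'
  have h2 := inv_sub H hz hy hzy
  have h3 : H.inv b = -(z + H.U z (H.inv y)) := by
    have h4 : b = -(H.inv z - H.inv (z + y)) := by rw [hb]; abel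
    rw [h4, h2, H.inv_neg, H.inv_inv]
  rw [h3] at h1
  have h5 : H.inv (a + b) - H.inv a = -(H.inv a - H.inv (a + b)) := by abel
  rw [h5, h1, H.inv_neg, H.inv_inv, map_neg, map_add]
  abel

namespace Perf

variable {P R : Submodule K A} (h : Perf H P R)

include h

/-- One half of the three point lemma. -/
theorem three_aux (S : H.Scal K) {c z v : A} {t₁ t₂ : K} (hc : c ∉ P) (h1 : t₁ ≠ 0) (h2 : t₂ ≠ 0)
    (h12 : t₁ ≠ t₂) (z0 : z ∉ P) (z1 : z + t₁ • c ∉ P) (z2 : z + t₂ • c ∉ P)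
    (w0 : v ∈ N S P z) (w1 : v ∈ N S P (z + t₁ • c)) (w2 : v ∈ N S P (z + t₂ • c)) :
    v + H.U v z ∈ N S P c := by
  have hz0 : z ≠ 0 := fun h0 => z0 (h0 ▸ P.zero_mem)
  have hc0 : c ≠ 0 := fun h0 => hc (h0 ▸ P.zero_mem)
  obtain ⟨p0, hp0, e0⟩ := h.coset' S z0 w0
  have ha : H.inv z + v ≠ 0 := by
    rw [e0]; exact H.inv_ne _ fun h0 => h.add_ne z0 hp0 (h0 ▸ P.zero_mem)
  -- the main computation
  have key : ∀ t : K, t ≠ 0 → z + t • c ∉ P → v ∈ N S P (z + t • c) →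
      (H.U (H.inv z + v) (H.U z (H.inv c)) - H.inv c) +
        t • (H.U (H.inv z + v) z - (H.inv z + v)) ∈ N S P c := by
    intro t ht zt wt
    obtain ⟨p1, hp1, e1⟩ := h.coset' S zt wt
    have ha' : H.inv (z + t • c) + v ≠ 0 := by
      rw [e1]; exact H.inv_ne _ fun h0 => h.add_ne zt hp1 (h0 ▸ P.zero_mem)
    have hzt : z + t • c ≠ 0 := fun h0 => zt (h0 ▸ P.zero_mem)
    have htc : t • c ≠ 0 := smul_ne_zero ht hc0
    have htc' : t • c ∉ P := fun h0 => hc ((P.smul_mem_iff ht).1 h0)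
    have f := conj_formula H hz0 htc hzt ha ha'
    have e0' : H.inv (H.inv z + v) = z + p0 := by rw [e0, H.inv_inv]
    have e1' : H.inv (H.inv (z + t • c) + v) = z + t • c + p1 := by rw [e1, H.inv_inv]
    have e2 : z + t • c + p1 - (z + p0) = t • c + (p1 - p0) := by abel
    rw [e0', e1', e2] at f
    have g := h.coset S htc' (P.sub_mem hp1 hp0)
    rw [f, N_smul S P ht, S.inv_smul t c ht, S.U_smul, S.U_smul] at g
    have g2 := (N S P c).smul_mem t g
    have e3 : t • (t⁻¹ • H.U (H.inv z + v) (H.U z (H.inv c)) + H.U (H.inv z + v) z -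
        (H.inv z + v) - t⁻¹ • H.inv c) =
        (H.U (H.inv z + v) (H.U z (H.inv c)) - H.inv c) +
        t • (H.U (H.inv z + v) z - (H.inv z + v)) := by
      simp only [smul_sub, smul_add, smul_smul, mul_inv_cancel₀ ht, one_smul]
      abel
    rwa [e3] at g2
  have k1 := key t₁ h1 z1 w1
  have k2 := key t₂ h2 z2 w2
  have k3 := (N S P c).sub_mem k1 k2
  rw [add_sub_add_left_eq_sub, ← sub_smul, (N S P c).smul_mem_iff (sub_ne_zero.mpr h12)] at k3
  have e4 : H.U (H.inv z + v) z - (H.inv z + v) = v + H.U v z := by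
    have f := U_shift H v (H.inv_ne z hz0)
    rw [H.inv_inv, add_comm v (H.inv z)] at f
    rw [f]
    abel
  rwa [e4] at k3

/-- The three point lemma. -/
theorem three (S : H.Scal K) (h2K : (2 : K) ≠ 0) {c z v : A} {t₁ t₂ : K} (hc : c ∉ P)
    (h1 : t₁ ≠ 0) (h2 : t₂ ≠ 0)
    (h12 : t₁ ≠ t₂) (z0 : z ∉ P) (z1 : z + t₁ • c ∉ P) (z2 : z + t₂ • c ∉ P)
    (w0 : v ∈ N S P z) (w1 : v ∈ N S P (z + t₁ • c)) (w2 : v ∈ N S P (z + t₂ • c)) :
    v ∈ N S P c := by
  have k1 := h.three_aux S hc h1 h2 h12 z0 z1 z2 w0 w1 w2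
  have k2 := h.three_aux S hc h1 h2 h12 z0 z1 z2 ((N S P _).neg_mem w0) ((N S P _).neg_mem w1)
    ((N S P _).neg_mem w2)
  rw [H.U_neg] at k2
  have k3 := (N S P c).sub_mem k1 k2
  have e : v + H.U v z - (-v + H.U v z) = (2 : K) • v := by
    rw [two_smul]; abel
  rw [e, (N S P c).smul_mem_iff h2K] at k3
  exact k3

end Perf

end Pool.Agent.HuaDom91
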