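import Mathlib

/-!
Almost prime subspaces of a field: computations with rational functions of one variable.
-/

set_option autoImplicit false

namespace Pool.Agent.HuaDom91

variable {K F : Type} [Field K] [Field F] [Algebra K F]

/-- Almost prime subspaces. -/
structure FP (L : Submodule K F) : Prop where
  p1 : ∀ x, x ∉ L → x * x ∉ L → ∀ g ∈ L, x⁻¹ * x⁻¹ * g ∈ L

/-- `x`, `x ^ 2` and the inverses are not in `L`. -/
def Un (L : Submodule K F) (x : F) : Prop :=
  x ∉ L ∧ x * x ∉ L ∧ x⁻¹ ∉ L ∧ x⁻¹ * x⁻¹ ∉ L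

namespace FP

variable {L : Submodule K F}

theorem am {x : F} (c : K) (hx : x ∈ L) : algebraMap K F c * x ∈ L := by
  rw [← Algebra.smul_def]
  exact L.smul_mem c hx

theorem am_iff {x : F} {c : K} (hc : c ≠ 0) : algebraMap K F c * x ∈ L ↔ x ∈ L := by
  rw [← Algebra.smul_def]
  exact L.smul_mem_iff hc

theorem am_one {c : K} (h1 : (1 : F) ∉ L) (h : algebraMap K F c ∈ L) : c = 0 := by
  by_contra hc
  apply h1
  rw [← am_iff hc, mul_one]
  exact h

variable (h : FP L) (h1 : (1 : F) ∉ L) (h2 : (2 : K) ≠ 0)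

include h h1 h2

section A

variable [Infinite K] {l : F} (hl : l ∈ L)

include hl

omit h h2 [Infinite K] in
theorem one_add_notMem (s : K) : 1 + algebraMap K F s * l ∉ L := fun h0 => h1 (by
  have := L.sub_mem h0 (am s hl)
  rwa [add_sub_cancel_right] at this)

omit h h2 [Infinite K] in
theorem one_add_ne (s : K) : 1 + algebraMap K F s * l ≠ 0 := fun h0 =>
  one_add_notMem h1 hl s (h0 ▸ L.zero_mem)

omit h2 [Infinite K] in
/-- Almost all parameters are good. -/
theorem exists_good : ∃ c : K, ∀ s : K, s * s ≠ c →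
    (1 + algebraMap K F s * l) * (1 + algebraMap K F s * l) ∉ L := by
  by_cases hb : ∃ s : K, (1 + algebraMap K F s * l) * (1 + algebraMap K F s * l) ∈ L
  · obtain ⟨s, hs⟩ := hb
    refine ⟨s * s, fun r hr hr' => hr ?_⟩
    have e1 : algebraMap K F (r * r) * ((1 + algebraMap K F s * l) * (1 + algebraMap K F s * l)) -
        algebraMap K F (s * s) * ((1 + algebraMap K F r * l) * (1 + algebraMap K F r * l)) -
        algebraMap K F (2 * s * (r * r) - 2 * r * (s * s)) * l =
        algebraMap K F (r * r - s * s) := by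
      simp only [map_mul, map_sub, map_ofNat]
      ring
    have h3 := L.sub_mem (L.sub_mem (am (r * r) hs) (am (s * s) hr'))
      (am (2 * s * (r * r) - 2 * r * (s * s)) hl)
    rw [e1] at h3
    exact sub_eq_zero.mp (am_one h1 h3)
  · push Not at hb
    exact ⟨0, fun s _ => hb s⟩

omit h2 [Infinite K] in
theorem good_mul {c s : K} (hc : ∀ s : K, s * s ≠ c →
    (1 + algebraMap K F s * l) * (1 + algebraMap K F s * l) ∉ L) (hs : s * s ≠ c) {g : F}
    (hg : g ∈ L) : (1 + algebraMap K F s * l)⁻¹ * (1 + algebraMap K F s * l)⁻¹ * g ∈ L :=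
  h.p1 _ (one_add_notMem h1 hl s) (hc s hs) g hg

omit h2 [Infinite K] in
theorem A2 {c s : K} (hc : ∀ s : K, s * s ≠ c →
    (1 + algebraMap K F s * l) * (1 + algebraMap K F s * l) ∉ L) (hs : s * s ≠ c) :
    (1 + algebraMap K F s * l)⁻¹ -
      (1 + algebraMap K F s * l)⁻¹ * (1 + algebraMap K F s * l)⁻¹ ∈ L := by
  have h3 := am s (h.good_mul h1 hl hc hs hl)
  have h4 := one_add_ne (F := F) h1 hl s
  have e : algebraMap K F s * ((1 + algebraMap K F s * l)⁻¹ * (1 + algebraMap K F s * l)⁻¹ * l) =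
      (1 + algebraMap K F s * l)⁻¹ -
      (1 + algebraMap K F s * l)⁻¹ * (1 + algebraMap K F s * l)⁻¹ := by
    field_simp
    ring
  rwa [e] at h3

omit [Infinite K] in
theorem A3 {c s r : K} (hc : ∀ s : K, s * s ≠ c →
    (1 + algebraMap K F s * l) * (1 + algebraMap K F s * l) ∉ L) (hs : s * s ≠ c)
    (hr : r * r ≠ c) (hs0 : s ≠ 0) (hr0 : r ≠ 0) :
    (1 + algebraMap K F r * l)⁻¹ - (1 + algebraMap K F s * l)⁻¹ ∈ L := by
  by_cases hrs : r = s
  · rw [hrs, sub_self]; exact L.zero_mem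
  have h3 := am ((r - s) ^ 3) (h.good_mul h1 hl hc hs (h.good_mul h1 hl hc hr hl))
  have hys := am (s * (r - s)) (h.A2 h1 hl hc hs)
  have hyr := am (r * (r - s)) (h.A2 h1 hl hc hr)
  have n1 := one_add_ne (F := F) h1 hl s
  have n2 := one_add_ne (F := F) h1 hl r
  have h4 := L.sub_mem (L.sub_mem h3 hys) hyr
  have e : algebraMap K F ((r - s) ^ 3) *
        ((1 + algebraMap K F s * l)⁻¹ * (1 + algebraMap K F s * l)⁻¹ *
          ((1 + algebraMap K F r * l)⁻¹ * (1 + algebraMap K F r * l)⁻¹ * l)) -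
      algebraMap K F (s * (r - s)) * ((1 + algebraMap K F s * l)⁻¹ -
        (1 + algebraMap K F s * l)⁻¹ * (1 + algebraMap K F s * l)⁻¹) -
      algebraMap K F (r * (r - s)) * ((1 + algebraMap K F r * l)⁻¹ -
        (1 + algebraMap K F r * l)⁻¹ * (1 + algebraMap K F r * l)⁻¹) =
      algebraMap K F (2 * r * s) *
        ((1 + algebraMap K F r * l)⁻¹ - (1 + algebraMap K F s * l)⁻¹) := by
    simp only [map_mul, map_sub, map_pow, map_ofNat]
    field_simp
    ring
  rw [e, am_iff (mul_ne_zero (mul_ne_zero h2 hr0) hs0)] at h4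
  exact h4

omit h h2 [Infinite K] in
/-- An auxiliary contradiction. -/
theorem aux_two {x : F} {s r : K} (hrs : r ≠ s) (h2 : (2 : K) ≠ 0)
    (hs : x + algebraMap K F (2 * s) ∈ L) (hr : x + algebraMap K F (2 * r) ∈ L) : False := by
  have h3 := L.sub_mem hr hs
  rw [add_sub_add_left_eq_sub, ← map_sub, ← mul_sub] at h3
  exact mul_ne_zero h2 (sub_ne_zero.mpr hrs) (am_one h1 h3)

omit h2 [Infinite K] in
/-- If `1 - y` and its square are not in `L`. -/
theorem A_w (hl0 : l ≠ 0) {s : K} (hs0 : s ≠ 0)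
    (hw : 1 - (1 + algebraMap K F s * l)⁻¹ ∉ L)
    (hw2 : (1 - (1 + algebraMap K F s * l)⁻¹) * (1 - (1 + algebraMap K F s * l)⁻¹) ∉ L) :
    l⁻¹ + algebraMap K F (2 * s) ∈ L := by
  have h3 := L.sub_mem (am (s * s) (h.p1 _ hw hw2 l hl)) (am (s * s) hl)
  have n1 := one_add_ne (F := F) h1 hl s
  have hs0' : algebraMap K F s ≠ 0 := by rw [Ne, map_eq_zero]; exact hs0
  have e0 : 1 - (1 + algebraMap K F s * l)⁻¹ =
      algebraMap K F s * l / (1 + algebraMap K F s * l) := by
    field_simp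
    ring
  have e : algebraMap K F (s * s) * ((1 - (1 + algebraMap K F s * l)⁻¹)⁻¹ *
      (1 - (1 + algebraMap K F s * l)⁻¹)⁻¹ * l) - algebraMap K F (s * s) * l =
      l⁻¹ + algebraMap K F (2 * s) := by
    rw [e0]
    simp only [map_mul, map_ofNat]
    field_simp
    ring
  rwa [e] at h3

/-- Elements of `L` have their squares in `L`, and `(1 + s l)⁻¹ - 1` is in `L`. -/
theorem A_main : l * l ∈ L ∧ ∀ s : K, (1 + algebraMap K F s * l)⁻¹ - 1 ∈ L := by
  classical
  by_cases hl0 : l = 0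
  · subst hl0
    refine ⟨by rw [mul_zero]; exact L.zero_mem, fun s => ?_⟩
    rw [mul_zero, add_zero, inv_one, sub_self]
    exact L.zero_mem
  obtain ⟨c, hc⟩ := h.exists_good h1 hl
  -- good nonzero parameters
  have hgood : ∀ E : Finset K, ∃ s, s ∉ E ∧ s ≠ 0 ∧ s * s ≠ c := by
    intro E
    obtain ⟨B, hB⟩ : ∃ B : Finset K, ∀ s, s * s = c → s ∈ B := by
      by_cases hb : ∃ r, r * r = c
      · obtain ⟨r, hr⟩ := hb
        refine ⟨{r, -r}, fun s hs => ?_⟩
        rw [← hr] at hs
        rcases mul_self_eq_mul_self_iff.mp hs with h4 | h4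
        · simp [h4]
        · simp [h4]
      · push Not at hb
        exact ⟨∅, fun s hs => absurd hs (hb s)⟩
    obtain ⟨s, hs⟩ := Infinite.exists_notMem_finset (E ∪ {0} ∪ B)
    simp only [Finset.mem_union, Finset.mem_singleton, not_or] at hs
    exact ⟨s, hs.1.1, hs.1.2, fun h0 => hs.2 (hB s h0)⟩
  -- squares
  have hsq : ∀ s : K, s * s ≠ c → (1 + algebraMap K F s * l)⁻¹ ∈ L →
      (1 + algebraMap K F s * l)⁻¹ * (1 + algebraMap K F s * l)⁻¹ ∈ L := by
    intro s hs hy
    have h3 := L.sub_mem hy (h.A2 h1 hl hc hs)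
    rwa [sub_sub_cancel] at h3
  have hA4 : ∀ s : K, s ≠ 0 → s * s ≠ c → (1 + algebraMap K F s * l)⁻¹ ∉ L := by
    intro s hs0 hs hy
    have hall : ∀ r : K, r ≠ 0 → r * r ≠ c → l⁻¹ + algebraMap K F (2 * r) ∈ L := by
      intro r hr0 hr
      have hyr : (1 + algebraMap K F r * l)⁻¹ ∈ L := by
        have h3 := L.add_mem (h.A3 h1 h2 hl hc hs hr hs0 hr0) hy
        rwa [sub_add_cancel] at h3
      have hyr2 := hsq r hr hyr
      apply h.A_w h1 hl hl0 hr0
      · intro h3
        apply h1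
        have h4 := L.add_mem h3 hyr
        rwa [sub_add_cancel] at h4
      · intro h3
        apply h1
        have h4 := L.sub_mem (L.add_mem h3 (L.add_mem hyr hyr)) hyr2
        have e : (1 - (1 + algebraMap K F r * l)⁻¹) * (1 - (1 + algebraMap K F r * l)⁻¹) +
            ((1 + algebraMap K F r * l)⁻¹ + (1 + algebraMap K F r * l)⁻¹) -
            (1 + algebraMap K F r * l)⁻¹ * (1 + algebraMap K F r * l)⁻¹ = 1 := by ring
        rwa [e] at h4
    obtain ⟨r1, -, hr10, hr1⟩ := hgood ∅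
    obtain ⟨r2, hr2', hr20, hr2⟩ := hgood {r1}
    rw [Finset.mem_singleton] at hr2'
    exact aux_two h1 hl hr2' h2 (hall r1 hr10 hr1) (hall r2 hr20 hr2)
  -- the square and the cube
  have hA5 : ∀ s : K, s ≠ 0 → s * s ≠ c →
      algebraMap K F 2 * (l * l) + algebraMap K F s * (l * l * l) ∈ L := by
    intro s hs0 hs
    have hy := hA4 s hs0 hs
    have hy2 : (1 + algebraMap K F s * l)⁻¹ * (1 + algebraMap K F s * l)⁻¹ ∉ L := by
      intro h3
      apply hy
      have h4 := L.add_mem (h.A2 h1 hl hc hs) h3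
      rwa [sub_add_cancel] at h4
    have h3 := h.p1 _ hy hy2 l hl
    rw [inv_inv] at h3
    have h4 := L.sub_mem h3 hl
    rw [← am_iff (K := K) hs0]
    have e : algebraMap K F s * (algebraMap K F 2 * (l * l) + algebraMap K F s * (l * l * l)) =
        (1 + algebraMap K F s * l) * (1 + algebraMap K F s * l) * l - l := by
      simp only [map_ofNat]
      ring
    rwa [e]
  have hll : l * l ∈ L := by
    obtain ⟨r1, -, hr10, hr1⟩ := hgood ∅
    obtain ⟨r2, hr2', hr20, hr2⟩ := hgood {r1}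
    rw [Finset.mem_singleton] at hr2'
    have k1 := am r2 (hA5 r1 hr10 hr1)
    have k2 := am r1 (hA5 r2 hr20 hr2)
    have k3 := L.sub_mem k1 k2
    have e : algebraMap K F r2 * (algebraMap K F 2 * (l * l) + algebraMap K F r1 * (l * l * l)) -
        algebraMap K F r1 * (algebraMap K F 2 * (l * l) + algebraMap K F r2 * (l * l * l)) =
        algebraMap K F (2 * (r2 - r1)) * (l * l) := by
      simp only [map_mul, map_sub, map_ofNat]
      ring
    rw [e, am_iff (mul_ne_zero h2 (sub_ne_zero.mpr hr2'))] at k3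
    exact k3
  -- now all parameters are good
  have hc' : ∀ s : K, (1 + algebraMap K F s * l) * (1 + algebraMap K F s * l) ∉ L := by
    intro s h3
    apply h1
    have h4 := L.sub_mem (L.sub_mem h3 (am (2 * s) hl)) (am (s * s) hll)
    have e : (1 + algebraMap K F s * l) * (1 + algebraMap K F s * l) -
        algebraMap K F (2 * s) * l - algebraMap K F (s * s) * (l * l) = 1 := by
      simp only [map_mul, map_ofNat]
      ring
    rwa [e] at h4
  refine ⟨hll, fun s => ?_⟩
  by_cases hs0 : s = 0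
  · rw [hs0, map_zero, zero_mul, add_zero, inv_one, sub_self]
    exact L.zero_mem
  -- choose a value which is not a square of relevant parameters
  by_contra hw
  have hall : ∀ r : K, r ≠ 0 → l⁻¹ + algebraMap K F (2 * r) ∈ L := by
    intro r hr0
    -- a constant different from both squares
    obtain ⟨c', hc1⟩ := Infinite.exists_notMem_finset ({s * s, r * r} : Finset K)
    simp only [Finset.mem_insert, Finset.mem_singleton, not_or] at hc1
    have hcc : ∀ s : K, s * s ≠ c' →
      (1 + algebraMap K F s * l) * (1 + algebraMap K F s * l) ∉ L := fun s _ => hc' s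
    have h3 := h.A3 h1 h2 hl hcc (Ne.symm hc1.1) (Ne.symm hc1.2) hs0 hr0
    have hwr : 1 - (1 + algebraMap K F r * l)⁻¹ ∉ L := by
      intro h4
      apply hw
      have h5 := L.neg_mem (L.add_mem h4 h3)
      have e : -(1 - (1 + algebraMap K F r * l)⁻¹ +
        ((1 + algebraMap K F r * l)⁻¹ - (1 + algebraMap K F s * l)⁻¹)) =
        (1 + algebraMap K F s * l)⁻¹ - 1 := by ring
      rwa [e] at h5
    apply h.A_w h1 hl hl0 hr0 hwr
    intro h4
    apply hwr
    have h5 := L.add_mem h4 (h.A2 h1 hl hcc (Ne.symm hc1.2))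
    have e : (1 - (1 + algebraMap K F r * l)⁻¹) * (1 - (1 + algebraMap K F r * l)⁻¹) +
      ((1 + algebraMap K F r * l)⁻¹ -
        (1 + algebraMap K F r * l)⁻¹ * (1 + algebraMap K F r * l)⁻¹) =
      1 - (1 + algebraMap K F r * l)⁻¹ := by ring
    rwa [e] at h5
  obtain ⟨r, hr⟩ := Infinite.exists_notMem_finset ({0, s} : Finset K)
  simp only [Finset.mem_insert, Finset.mem_singleton, not_or] at hr
  exact aux_two h1 hl hr.2 h2 (hall s hs0) (hall r hr.1)

/-- `1 + s l` is a unit. -/
theorem A_un (s : K) : Un L (1 + algebraMap K F s * l) := by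
  obtain ⟨hll, hy⟩ := h.A_main h1 h2 hl
  have hys := hy s
  have hy2 := (h.A_main h1 h2 hys).1
  refine ⟨one_add_notMem h1 hl s, ?_, ?_, ?_⟩
  · intro h3
    apply h1
    have h4 := L.sub_mem (L.sub_mem h3 (am (2 * s) hl)) (am (s * s) hll)
    have e : (1 + algebraMap K F s * l) * (1 + algebraMap K F s * l) -
        algebraMap K F (2 * s) * l - algebraMap K F (s * s) * (l * l) = 1 := by
      simp only [map_mul, map_ofNat]
      ring
    rwa [e] at h4
  · intro h3
    apply h1
    have h4 := L.sub_mem h3 hys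
    rwa [sub_sub_cancel] at h4
  · intro h3
    apply h1
    have h4 := L.sub_mem (L.sub_mem (L.sub_mem h3 hy2) hys) hys
    have e : (1 + algebraMap K F s * l)⁻¹ * (1 + algebraMap K F s * l)⁻¹ -
        ((1 + algebraMap K F s * l)⁻¹ - 1) * ((1 + algebraMap K F s * l)⁻¹ - 1) -
        ((1 + algebraMap K F s * l)⁻¹ - 1) - ((1 + algebraMap K F s * l)⁻¹ - 1) = 1 := by ring
    rwa [e] at h4

end A

end FP

end Pool.Agent.HuaDom91
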