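import Mathlib
import Pool.Agent.HuaDom91.FieldP

/-!
Almost prime subspaces of a field which contain the unit.
-/

set_option autoImplicit false

namespace Pool.Agent.HuaDom91

variable {K F : Type} [Field K] [Field F] [Algebra K F]

namespace FP

variable {L : Submodule K F} (h : FP L) (h1 : (1 : F) ∈ L) (h2 : (2 : K) ≠ 0) [Infinite K]

omit [Infinite K] in
theorem alg_mem {L : Submodule K F} (h1 : (1 : F) ∈ L) (c : K) : algebraMap K F c ∈ L := by
  have := am c h1
  rwa [mul_one] at this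

include h h1 h2

omit h h2 [Infinite K] in
theorem add_notMem {x : F} (hx : x ∉ L) (s : K) : x + algebraMap K F s ∉ L := fun h0 => hx (by
  have := L.sub_mem h0 (alg_mem h1 s)
  rwa [add_sub_cancel_right] at this)

omit h h2 [Infinite K] in
theorem add_ne {x : F} (hx : x ∉ L) (s : K) : x + algebraMap K F s ≠ 0 := fun h0 =>
  add_notMem h1 hx s (h0 ▸ L.zero_mem)

omit h [Infinite K] in
/-- At most one parameter is bad. -/
theorem D_good {x : F} (hx : x ∉ L) : ∃ c : K, ∀ s : K, s ≠ c →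
    (x + algebraMap K F s) * (x + algebraMap K F s) ∉ L := by
  by_cases hb : ∃ c : K, (x + algebraMap K F c) * (x + algebraMap K F c) ∈ L
  · obtain ⟨c, hc⟩ := hb
    refine ⟨c, fun s hs hs' => hx ?_⟩
    have h3 := L.sub_mem (L.sub_mem hs' hc) (alg_mem h1 (s * s - c * c))
    have e : (x + algebraMap K F s) * (x + algebraMap K F s) -
        (x + algebraMap K F c) * (x + algebraMap K F c) - algebraMap K F (s * s - c * c) =
        algebraMap K F (2 * (s - c)) * x := by
      simp only [map_mul, map_sub, map_ofNat]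
      ring
    rwa [e, am_iff (mul_ne_zero h2 (sub_ne_zero.mpr hs))] at h3
  · push Not at hb
    exact ⟨0, fun s _ => hb s⟩

omit h2 [Infinite K] in
theorem D_mul {x : F} (hx : x ∉ L) {s : K}
    (hs : (x + algebraMap K F s) * (x + algebraMap K F s) ∉ L) {g : F} (hg : g ∈ L) :
    (x + algebraMap K F s)⁻¹ * (x + algebraMap K F s)⁻¹ * g ∈ L :=
  h.p1 _ (add_notMem h1 hx s) hs g hg

omit [Infinite K] in
theorem D_sub {x : F} (hx : x ∉ L) {s r : K}
    (hs : (x + algebraMap K F s) * (x + algebraMap K F s) ∉ L)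
    (hr : (x + algebraMap K F r) * (x + algebraMap K F r) ∉ L) :
    (x + algebraMap K F s)⁻¹ - (x + algebraMap K F r)⁻¹ ∈ L := by
  by_cases hrs : r = s
  · rw [hrs, sub_self]; exact L.zero_mem
  have n1 := add_ne h1 hx s
  have n2 := add_ne h1 hx r
  have k1 := h.D_mul h1 hx hs h1
  have k2 := h.D_mul h1 hx hr h1
  have k3 := am ((r - s) ^ 2) (h.D_mul h1 hx hs (h.D_mul h1 hx hr h1))
  have h3 := L.sub_mem (L.add_mem k1 k2) k3
  rw [← am_iff (mul_ne_zero h2 (inv_ne_zero (sub_ne_zero.mpr hrs)))]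
  have hrs' : algebraMap K F r - algebraMap K F s ≠ 0 := by
    rw [← map_sub, Ne, map_eq_zero]; exact sub_ne_zero.mpr hrs
  have e : (x + algebraMap K F s)⁻¹ * (x + algebraMap K F s)⁻¹ * 1 +
        (x + algebraMap K F r)⁻¹ * (x + algebraMap K F r)⁻¹ * 1 -
      algebraMap K F ((r - s) ^ 2) * ((x + algebraMap K F s)⁻¹ * (x + algebraMap K F s)⁻¹ *
        ((x + algebraMap K F r)⁻¹ * (x + algebraMap K F r)⁻¹ * 1)) =
      algebraMap K F (2 * (r - s)⁻¹) *
        ((x + algebraMap K F s)⁻¹ - (x + algebraMap K F r)⁻¹) := by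
    simp only [map_mul, map_sub, map_pow, map_ofNat, map_inv₀]
    field_simp
    ring
  rwa [e] at h3

/-- `(x + s)⁻¹` is in `L` for the good parameters. -/
theorem D_mem {x : F} (hx : x ∉ L) {s : K}
    (hs : (x + algebraMap K F s) * (x + algebraMap K F s) ∉ L) :
    (x + algebraMap K F s)⁻¹ ∈ L := by
  classical
  by_contra hy
  obtain ⟨c, hc⟩ := D_good h1 h2 hx
  obtain ⟨c', hc'⟩ := D_good h1 h2 hy
  obtain ⟨σ, hσ⟩ := Infinite.exists_notMem_finset ({0, c', (c - s)⁻¹} : Finset K)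
  simp only [Finset.mem_insert, Finset.mem_singleton, not_or] at hσ
  obtain ⟨hσ0, hσ1, hσ2⟩ := hσ
  have hs' : s + σ⁻¹ ≠ c := by
    intro h0
    apply hσ2
    rw [← h0, add_sub_cancel_left, inv_inv]
  have g := hc _ hs'
  have n1 := add_ne h1 hx s
  have n2 := add_ne h1 hx (s + σ⁻¹)
  have hσ0' : algebraMap K F σ ≠ 0 := by rw [Ne, map_eq_zero]; exact hσ0
  have n3 := add_ne h1 hy σ
  -- the square of `(y + σ)⁻¹`
  have k1 := h.D_mul h1 hy (hc' σ hσ1) h1
  have k2 := am (σ⁻¹ ^ 4) (h.D_mul h1 hx g h1)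
  have k3 := alg_mem h1 (σ⁻¹ ^ 2)
  have h3 := L.sub_mem (L.add_mem k3 k2) k1
  have n4 : x + algebraMap K F s + (algebraMap K F σ)⁻¹ ≠ 0 := by
    have := n2
    rwa [map_add, map_inv₀, ← add_assoc] at this
  have n5 : 1 + algebraMap K F σ * (x + algebraMap K F s) ≠ 0 := by
    intro h0
    apply n4
    have : x + algebraMap K F s + (algebraMap K F σ)⁻¹ =
        (algebraMap K F σ)⁻¹ * (1 + algebraMap K F σ * (x + algebraMap K F s)) := by
      field_simp
      ring
    rw [this, h0, mul_zero]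
  have e1 : (x + algebraMap K F s)⁻¹ + algebraMap K F σ =
      (1 + algebraMap K F σ * (x + algebraMap K F s)) / (x + algebraMap K F s) := by
    field_simp
  have e2 : x + algebraMap K F (s + σ⁻¹) =
      (1 + algebraMap K F σ * (x + algebraMap K F s)) / algebraMap K F σ := by
    rw [map_add, map_inv₀]
    field_simp
    ring
  have e : algebraMap K F (σ⁻¹ ^ 2) + algebraMap K F (σ⁻¹ ^ 4) *
        ((x + algebraMap K F (s + σ⁻¹))⁻¹ * (x + algebraMap K F (s + σ⁻¹))⁻¹ * 1) -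
        ((x + algebraMap K F s)⁻¹ + algebraMap K F σ)⁻¹ *
          ((x + algebraMap K F s)⁻¹ + algebraMap K F σ)⁻¹ * 1 =
      algebraMap K F (2 * σ⁻¹ ^ 3) * (x + algebraMap K F (s + σ⁻¹))⁻¹ := by
    rw [e1, e2]
    simp only [map_mul, map_pow, map_ofNat, map_inv₀]
    field_simp
    ring
  rw [e, am_iff (mul_ne_zero h2 (pow_ne_zero _ (inv_ne_zero hσ0)))] at h3
  apply hy
  have h4 := L.add_mem (h.D_sub h1 h2 hx hs g) h3
  rwa [sub_add_cancel] at h4

/-- Inverses of elements outside `L` are in `L`. -/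
theorem D_inv {x : F} (hx : x ∉ L) : x⁻¹ ∈ L := by
  classical
  by_contra hy
  have hz : (0 : K) = 0 := rfl
  have k0 : x * x ∈ L := by
    by_contra hb
    apply hy
    have := h.D_mem h1 h2 hx (s := 0) (by rwa [map_zero, add_zero])
    rwa [map_zero, add_zero] at this
  have k1 : x⁻¹ * x⁻¹ ∈ L := by
    by_contra hb
    apply hx
    have := h.D_mem h1 h2 hy (s := 0) (by rwa [map_zero, add_zero])
    rwa [map_zero, add_zero, inv_inv] at this
  obtain ⟨c, hc⟩ := D_good h1 h2 hx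
  obtain ⟨s, hs⟩ := Infinite.exists_notMem_finset ({0, c} : Finset K)
  simp only [Finset.mem_insert, Finset.mem_singleton, not_or] at hs
  obtain ⟨hs0, hsc⟩ := hs
  have hx0 : x ≠ 0 := fun h0 => hx (h0 ▸ L.zero_mem)
  have n1 := add_ne h1 hx s
  have g := hc s hsc
  have hs0' : algebraMap K F s ≠ 0 := by rw [Ne, map_eq_zero]; exact hs0
  have k2 := am (s ^ 2) (h.D_mul h1 hx g k1)
  have k3 := h.D_mul h1 hx g h1
  have k4 := am (2 * s⁻¹) (h.D_mem h1 h2 hx g)
  have h3 := L.sub_mem (L.add_mem k1 k3) k2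
  -- `2 x⁻¹ y`
  have h5 := L.add_mem h3 k4
  apply hy
  rw [← am_iff (mul_ne_zero h2 (inv_ne_zero hs0))]
  have e : x⁻¹ * x⁻¹ + (x + algebraMap K F s)⁻¹ * (x + algebraMap K F s)⁻¹ * 1 -
        algebraMap K F (s ^ 2) * ((x + algebraMap K F s)⁻¹ * (x + algebraMap K F s)⁻¹ *
          (x⁻¹ * x⁻¹)) + algebraMap K F (2 * s⁻¹) * (x + algebraMap K F s)⁻¹ =
      algebraMap K F (2 * s⁻¹) * x⁻¹ := by
    simp only [map_mul, map_pow, map_ofNat, map_inv₀]
    field_simp
    ring
  rwa [e] at h5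

end FP

end Pool.Agent.HuaDom91
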