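import Mathlib
import Pool.Agent.HuaDom91.FieldP

/-!
Almost prime subspaces of a field: elements outside the subspace.
-/

set_option autoImplicit false

namespace Pool.Agent.HuaDom91

variable {K F : Type} [Field K] [Field F] [Algebra K F]

namespace FP

variable {L : Submodule K F} (h : FP L) (h1 : (1 : F) ∉ L) (h2 : (2 : K) ≠ 0) [Infinite K]

include h h1 h2

section B

variable {z : F} (hz : z ∉ L) (hz2 : z * z ∈ L)

include hz hz2

theorem B0 (t : K) : 1 + algebraMap K F t * z ∉ L := by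
  intro h0
  by_cases ht : t = 0
  · rw [ht, map_zero, zero_mul, add_zero] at h0
    exact h1 h0
  -- `l = 1 + t z`
  obtain ⟨hll, -⟩ := h.A_main h1 h2 h0
  apply h1
  have h3 := L.add_mem (L.neg_mem (L.sub_mem (L.sub_mem hll (am (t * t) hz2)) h0)) h0
  have e : -((1 + algebraMap K F t * z) * (1 + algebraMap K F t * z) -
      algebraMap K F (t * t) * (z * z) - (1 + algebraMap K F t * z)) +
      (1 + algebraMap K F t * z) = 1 := by
    simp only [map_mul]
    ring
  rwa [e] at h3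

theorem B0' (t : K) : (1 + algebraMap K F t * z) * (1 + algebraMap K F t * z) ∉ L := by
  intro h0
  apply h.B0 h1 h2 hz hz2 (2 * t)
  have h3 := L.sub_mem h0 (am (t * t) hz2)
  have e : (1 + algebraMap K F t * z) * (1 + algebraMap K F t * z) -
      algebraMap K F (t * t) * (z * z) = 1 + algebraMap K F (2 * t) * z := by
    simp only [map_mul, map_ofNat]
    ring
  rwa [e] at h3

theorem B_ne (t : K) : 1 + algebraMap K F t * z ≠ 0 := fun h0 =>
  h.B0 h1 h2 hz hz2 t (h0 ▸ L.zero_mem)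

theorem B_mul (t : K) {g : F} (hg : g ∈ L) :
    (1 + algebraMap K F t * z)⁻¹ * (1 + algebraMap K F t * z)⁻¹ * g ∈ L :=
  h.p1 _ (h.B0 h1 h2 hz hz2 t) (h.B0' h1 h2 hz hz2 t) g hg

theorem B1 (t : K) : (1 - (1 + algebraMap K F t * z)⁻¹) * (1 - (1 + algebraMap K F t * z)⁻¹) ∈ L := by
  have h3 := am (t * t) (h.B_mul h1 h2 hz hz2 t hz2)
  have n1 := h.B_ne h1 h2 hz hz2 t
  have e : algebraMap K F (t * t) *
      ((1 + algebraMap K F t * z)⁻¹ * (1 + algebraMap K F t * z)⁻¹ * (z * z)) =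
      (1 - (1 + algebraMap K F t * z)⁻¹) * (1 - (1 + algebraMap K F t * z)⁻¹) := by
    simp only [map_mul]
    field_simp
    ring
  rwa [e] at h3

/-- `r (Y_t - 1) - t (Y_r - 1)` is in `L`. -/
theorem B2 (t r : K) : algebraMap K F r * ((1 + algebraMap K F t * z)⁻¹ - 1) -
    algebraMap K F t * ((1 + algebraMap K F r * z)⁻¹ - 1) ∈ L := by
  by_cases hrt : r = t
  · rw [hrt, sub_self]; exact L.zero_mem
  have hrt' : r - t ≠ 0 := sub_ne_zero.mpr hrt
  have h3 := am ((r - t) ^ 3) (h.B_mul h1 h2 hz hz2 t (h.B_mul h1 h2 hz hz2 r hz2))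
  have h4 := am (r - t) (h.B1 h1 h2 hz hz2 t)
  have h5 := am (r - t) (h.B1 h1 h2 hz hz2 r)
  have n1 := h.B_ne h1 h2 hz hz2 t
  have n2 := h.B_ne h1 h2 hz hz2 r
  have h6 := L.sub_mem (L.sub_mem h3 h4) h5
  have e : algebraMap K F ((r - t) ^ 3) * ((1 + algebraMap K F t * z)⁻¹ *
        (1 + algebraMap K F t * z)⁻¹ * ((1 + algebraMap K F r * z)⁻¹ *
        (1 + algebraMap K F r * z)⁻¹ * (z * z))) -
      algebraMap K F (r - t) *
        ((1 - (1 + algebraMap K F t * z)⁻¹) * (1 - (1 + algebraMap K F t * z)⁻¹)) -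
      algebraMap K F (r - t) *
        ((1 - (1 + algebraMap K F r * z)⁻¹) * (1 - (1 + algebraMap K F r * z)⁻¹)) =
      algebraMap K F 2 * (algebraMap K F r * ((1 + algebraMap K F t * z)⁻¹ - 1) -
        algebraMap K F t * ((1 + algebraMap K F r * z)⁻¹ - 1)) := by
    simp only [map_mul, map_sub, map_pow, map_ofNat]
    field_simp
    ring
  rw [e, am_iff h2] at h6
  exact h6

/-- `z ^ 2 Y_t` is in `L`. -/
theorem B5 (t : K) (hz3 : z * z * z ∈ L) :
    (1 + algebraMap K F t * z)⁻¹ - 1 + algebraMap K F t * z ∈ L := by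
  have h3 := am (t * t) (h.B_mul h1 h2 hz hz2 t (L.add_mem hz2 (am t hz3)))
  have n1 := h.B_ne h1 h2 hz hz2 t
  have e : algebraMap K F (t * t) * ((1 + algebraMap K F t * z)⁻¹ *
      (1 + algebraMap K F t * z)⁻¹ * (z * z + algebraMap K F t * (z * z * z))) =
      (1 + algebraMap K F t * z)⁻¹ - 1 + algebraMap K F t * z := by
    simp only [map_mul]
    field_simp
    ring
  rwa [e] at h3

theorem B4 : z * z * z ∈ L := by
  classical
  -- parameters with `Y_t` and its square outside `L`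
  obtain ⟨E1, hE1⟩ : ∃ E : Finset K, ∀ t, t ∉ E → (1 + algebraMap K F t * z)⁻¹ ∉ L := by
    by_cases hb : ∃ t : K, t ≠ 0 ∧ (1 + algebraMap K F t * z)⁻¹ ∈ L
    · obtain ⟨t, ht0, ht⟩ := hb
      refine ⟨{0, t}, fun r hr hr' => ?_⟩
      simp only [Finset.mem_insert, Finset.mem_singleton, not_or] at hr
      have h3 := L.sub_mem (L.sub_mem (am r ht) (am t hr')) (h.B2 h1 h2 hz hz2 t r)
      have e : algebraMap K F r * (1 + algebraMap K F t * z)⁻¹ -
          algebraMap K F t * (1 + algebraMap K F r * z)⁻¹ -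
          (algebraMap K F r * ((1 + algebraMap K F t * z)⁻¹ - 1) -
            algebraMap K F t * ((1 + algebraMap K F r * z)⁻¹ - 1)) = algebraMap K F (r - t) := by
        simp only [map_sub]
        ring
      rw [e] at h3
      exact hr.2 (sub_eq_zero.mp (am_one h1 h3))
    · push Not at hb
      refine ⟨{0}, fun t ht => hb t ?_⟩
      simpa using ht
  obtain ⟨E2, hE2⟩ : ∃ E : Finset K, ∀ t, t ∉ E →
      (1 + algebraMap K F t * z)⁻¹ * (1 + algebraMap K F t * z)⁻¹ ∉ L := by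
    have key : ∀ t : K, (1 + algebraMap K F t * z)⁻¹ * (1 + algebraMap K F t * z)⁻¹ ∈ L →
        algebraMap K F 2 * (1 + algebraMap K F t * z)⁻¹ - 1 ∈ L := by
      intro t ht
      have h3 := L.sub_mem ht (h.B1 h1 h2 hz hz2 t)
      have e : (1 + algebraMap K F t * z)⁻¹ * (1 + algebraMap K F t * z)⁻¹ -
          (1 - (1 + algebraMap K F t * z)⁻¹) * (1 - (1 + algebraMap K F t * z)⁻¹) =
          algebraMap K F 2 * (1 + algebraMap K F t * z)⁻¹ - 1 := by
        simp only [map_ofNat]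
        ring
      rwa [e] at h3
    by_cases hb : ∃ t : K, t ≠ 0 ∧
        (1 + algebraMap K F t * z)⁻¹ * (1 + algebraMap K F t * z)⁻¹ ∈ L
    · obtain ⟨t, ht0, ht⟩ := hb
      refine ⟨{0, t}, fun r hr hr' => ?_⟩
      simp only [Finset.mem_insert, Finset.mem_singleton, not_or] at hr
      have h3 := L.sub_mem (L.sub_mem (am r (key t ht)) (am t (key r hr')))
        (am 2 (h.B2 h1 h2 hz hz2 t r))
      have e : algebraMap K F r * (algebraMap K F 2 * (1 + algebraMap K F t * z)⁻¹ - 1) -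
          algebraMap K F t * (algebraMap K F 2 * (1 + algebraMap K F r * z)⁻¹ - 1) -
          algebraMap K F 2 * (algebraMap K F r * ((1 + algebraMap K F t * z)⁻¹ - 1) -
            algebraMap K F t * ((1 + algebraMap K F r * z)⁻¹ - 1)) = algebraMap K F (r - t) := by
        simp only [map_sub, map_ofNat]
        ring
      rw [e] at h3
      exact hr.2 (sub_eq_zero.mp (am_one h1 h3))
    · push Not at hb
      refine ⟨{0}, fun t ht => hb t ?_⟩
      simpa using ht
  have hgood : ∀ t : K, t ∉ E1 ∪ E2 →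
      algebraMap K F (2 * t) * (z * z * z) + algebraMap K F (t * t) * (z * z * z * z) ∈ L := by
    intro t ht
    rw [Finset.mem_union, not_or] at ht
    have h3 := L.sub_mem (h.p1 _ (hE1 t ht.1) (hE2 t ht.2) _ hz2) hz2
    rw [inv_inv] at h3
    have e : (1 + algebraMap K F t * z) * (1 + algebraMap K F t * z) * (z * z) - z * z =
        algebraMap K F (2 * t) * (z * z * z) + algebraMap K F (t * t) * (z * z * z * z) := by
      simp only [map_mul, map_ofNat]
      ring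
    rwa [e] at h3
  obtain ⟨t, ht⟩ := Infinite.exists_notMem_finset (E1 ∪ E2 ∪ {0})
  obtain ⟨r, hr⟩ := Infinite.exists_notMem_finset (E1 ∪ E2 ∪ {0} ∪ {t})
  rw [Finset.mem_union, not_or] at ht hr
  rw [Finset.mem_union, not_or] at hr
  have ht0 : t ≠ 0 := by simpa using ht.2
  have hr0 : r ≠ 0 := by simpa using hr.1.2
  have hrt : r ≠ t := by simpa using hr.2
  have h3 := L.sub_mem (am (r * r) (hgood t ht.1)) (am (t * t) (hgood r hr.1.1))
  have e : algebraMap K F (r * r) * (algebraMap K F (2 * t) * (z * z * z) +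
        algebraMap K F (t * t) * (z * z * z * z)) -
      algebraMap K F (t * t) * (algebraMap K F (2 * r) * (z * z * z) +
        algebraMap K F (r * r) * (z * z * z * z)) =
      algebraMap K F (2 * (t * r) * (r - t)) * (z * z * z) := by
    simp only [map_mul, map_sub, map_ofNat]
    ring
  rw [e, am_iff (mul_ne_zero (mul_ne_zero h2 (mul_ne_zero ht0 hr0)) (sub_ne_zero.mpr hrt))] at h3
  exact h3

/-- `1 + t z` is a unit. -/
theorem B_un (t : K) : Un L (1 + algebraMap K F t * z) := by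
  have hy := h.B5 h1 h2 hz hz2 t (h.B4 h1 h2 hz hz2)
  refine ⟨h.B0 h1 h2 hz hz2 t, h.B0' h1 h2 hz hz2 t, ?_, ?_⟩
  · intro h3
    apply h.B0 h1 h2 hz hz2 (-t)
    have h4 := L.sub_mem h3 hy
    have e : (1 + algebraMap K F t * z)⁻¹ -
        ((1 + algebraMap K F t * z)⁻¹ - 1 + algebraMap K F t * z) =
        1 + algebraMap K F (-t) * z := by
      simp only [map_neg]
      ring
    rwa [e] at h4
  · intro h3
    apply h.B0 h1 h2 hz hz2 (-(2 * t))
    have h4 := L.sub_mem (L.sub_mem h3 (h.B1 h1 h2 hz hz2 t)) (am 2 hy)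
    have e : (1 + algebraMap K F t * z)⁻¹ * (1 + algebraMap K F t * z)⁻¹ -
        (1 - (1 + algebraMap K F t * z)⁻¹) * (1 - (1 + algebraMap K F t * z)⁻¹) -
        algebraMap K F 2 * ((1 + algebraMap K F t * z)⁻¹ - 1 + algebraMap K F t * z) =
        1 + algebraMap K F (-(2 * t)) * z := by
      simp only [map_neg, map_mul, map_ofNat]
      ring
    rwa [e] at h4

end B

section C

variable {y : F} (hy : y ∉ L) (hy2 : y * y ∉ L)

include hy hy2

/-- `z = (1 + s / y)⁻¹` is not in `L`. -/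
theorem C2 {s : K} (hs : 1 + algebraMap K F s * y⁻¹ ≠ 0) :
    (1 + algebraMap K F s * y⁻¹)⁻¹ ∉ L := by
  intro hz
  have hy0 : y ≠ 0 := fun h0 => hy (h0 ▸ L.zero_mem)
  by_cases hs0 : s = 0
  · rw [hs0, map_zero, zero_mul, add_zero, inv_one] at hz
    exact h1 hz
  have hs0' : algebraMap K F s ≠ 0 := by rw [Ne, map_eq_zero]; exact hs0
  obtain ⟨hzz, -⟩ := h.A_main h1 h2 hz
  obtain ⟨u1, u2, -, -⟩ := h.A_un h1 h2 hz (-1)
  have h3 := am (s * s) (h.p1 _ u1 u2 _ hzz)
  apply hy2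
  set w := 1 + algebraMap K F s * y⁻¹ with hw
  have e1 : 1 + algebraMap K F (-1) * w⁻¹ = algebraMap K F s * y⁻¹ * w⁻¹ := by
    have hw' : algebraMap K F s * y⁻¹ = w - 1 := by rw [hw]; ring
    rw [hw', map_neg, map_one, sub_mul, mul_inv_cancel₀ hs]
    ring
  have e : algebraMap K F (s * s) * ((1 + algebraMap K F (-1) * w⁻¹)⁻¹ *
      (1 + algebraMap K F (-1) * w⁻¹)⁻¹ * (w⁻¹ * w⁻¹)) = y * y := by
    rw [e1, map_mul]
    field_simp
  rwa [e] at h3

theorem C3 {s : K} (hs : 1 + algebraMap K F s * y⁻¹ ≠ 0) :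
    (1 + algebraMap K F s * y⁻¹)⁻¹ * (1 + algebraMap K F s * y⁻¹)⁻¹ ∉ L := by
  intro hzz
  have hz := h.C2 h1 h2 hy hy2 hs
  have hy0 : y ≠ 0 := fun h0 => hy (h0 ▸ L.zero_mem)
  by_cases hs0 : s = 0
  · rw [hs0, map_zero, zero_mul, add_zero, inv_one, mul_one] at hzz
    exact h1 hzz
  have hs0' : algebraMap K F s ≠ 0 := by rw [Ne, map_eq_zero]; exact hs0
  have hz3 := h.B4 h1 h2 hz hzz
  have hz4 := (h.A_main h1 h2 hzz).1
  obtain ⟨u1, u2, -, -⟩ := h.A_un h1 h2 hzz (-1)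
  have h3 := am (s * s) (h.p1 _ u1 u2 _ (L.add_mem (L.add_mem hzz (am 2 hz3)) hz4))
  apply hy2
  set w := 1 + algebraMap K F s * y⁻¹ with hw
  have hyw : y * w = y + algebraMap K F s := by
    rw [hw]; field_simp
  have hw1 : w * w - 1 ≠ 0 := by
    intro h0
    apply u1
    have e0 : 1 + algebraMap K F (-1) * (w⁻¹ * w⁻¹) = (w * w - 1) * (w⁻¹ * w⁻¹) := by
      rw [map_neg, map_one]
      field_simp
      ring
    rw [e0, h0, zero_mul]
    exact L.zero_mem
  have e1 : 1 + algebraMap K F (-1) * (w⁻¹ * w⁻¹) = (w - 1) * (w + 1) * (w⁻¹ * w⁻¹) := by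
    rw [map_neg, map_one]
    field_simp
    ring
  have hw2 : w - 1 ≠ 0 := fun h0 => hw1 (by
    have : w * w - 1 = (w - 1) * (w + 1) := by ring
    rw [this, h0, zero_mul])
  have hw3 : w + 1 ≠ 0 := fun h0 => hw1 (by
    have : w * w - 1 = (w - 1) * (w + 1) := by ring
    rw [this, h0, mul_zero])
  have hs1 : algebraMap K F s = y * (w - 1) := by
    rw [hw]; field_simp; ring
  have e : algebraMap K F (s * s) * ((1 + algebraMap K F (-1) * (w⁻¹ * w⁻¹))⁻¹ *
      (1 + algebraMap K F (-1) * (w⁻¹ * w⁻¹))⁻¹ *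
      (w⁻¹ * w⁻¹ + algebraMap K F 2 * (w⁻¹ * w⁻¹ * w⁻¹) + w⁻¹ * w⁻¹ * (w⁻¹ * w⁻¹))) = y * y := by
    rw [e1, map_mul, hs1, map_ofNat]
    field_simp
    ring
  rwa [e] at h3

omit h h2 [Infinite K] hy2 in
/-- `1 + s / y` is a unit for almost all `s`. -/
theorem C1 : ∃ E : Finset K, ∀ s, s ∉ E → 1 + algebraMap K F s * y⁻¹ ∉ L ∧
    (1 + algebraMap K F s * y⁻¹) * (1 + algebraMap K F s * y⁻¹) ∉ L := by
  classical
  obtain ⟨E1, hE1⟩ : ∃ E : Finset K, ∀ s, s ∉ E → 1 + algebraMap K F s * y⁻¹ ∉ L := by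
    by_cases hb : ∃ s : K, 1 + algebraMap K F s * y⁻¹ ∈ L
    · obtain ⟨s, hs⟩ := hb
      refine ⟨{s}, fun r hr hr' => hr ?_⟩
      rw [Finset.mem_singleton]
      have h3 := L.sub_mem (am r hs) (am s hr')
      have e : algebraMap K F r * (1 + algebraMap K F s * y⁻¹) -
          algebraMap K F s * (1 + algebraMap K F r * y⁻¹) = algebraMap K F (r - s) := by
        rw [map_sub]; ring
      rw [e] at h3
      exact sub_eq_zero.mp (am_one h1 h3)
    · push Not at hb
      exact ⟨∅, fun s _ => hb s⟩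
  obtain ⟨E2, hE2⟩ : ∃ E : Finset K, ∀ s, s ∉ E →
      (1 + algebraMap K F s * y⁻¹) * (1 + algebraMap K F s * y⁻¹) ∉ L := by
    by_contra hcon
    push Not at hcon
    obtain ⟨s1, -, k1⟩ := hcon {0}
    obtain ⟨s2, hs2, k2⟩ := hcon {0, s1}
    obtain ⟨s3, hs3, k3⟩ := hcon {0, s1, s2}
    simp only [Finset.mem_insert, Finset.mem_singleton, not_or] at hs2 hs3
    -- Lagrange interpolation at zero
    have h3 := L.add_mem (L.add_mem (am (s2 * s3 * (s3 - s2)) k1) (am (s1 * s3 * (s1 - s3)) k2))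
      (am (s1 * s2 * (s2 - s1)) k3)
    have e : algebraMap K F (s2 * s3 * (s3 - s2)) *
          ((1 + algebraMap K F s1 * y⁻¹) * (1 + algebraMap K F s1 * y⁻¹)) +
        algebraMap K F (s1 * s3 * (s1 - s3)) *
          ((1 + algebraMap K F s2 * y⁻¹) * (1 + algebraMap K F s2 * y⁻¹)) +
        algebraMap K F (s1 * s2 * (s2 - s1)) *
          ((1 + algebraMap K F s3 * y⁻¹) * (1 + algebraMap K F s3 * y⁻¹)) =
        algebraMap K F ((s2 - s1) * (s3 - s1) * (s3 - s2)) := by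
      simp only [map_mul, map_sub]
      ring
    rw [e] at h3
    exact mul_ne_zero (mul_ne_zero (sub_ne_zero.mpr hs2.2) (sub_ne_zero.mpr hs3.2.1))
      (sub_ne_zero.mpr hs3.2.2) (am_one h1 h3)
  refine ⟨E1 ∪ E2, fun s hs => ?_⟩
  rw [Finset.mem_union, not_or] at hs
  exact ⟨hE1 s hs.1, hE2 s hs.2⟩

/-- `1 + s / y` is a unit for almost all `s`. -/
theorem C_un : ∃ E : Finset K, ∀ s, s ∉ E → Un L (1 + algebraMap K F s * y⁻¹) := by
  obtain ⟨E, hE⟩ := C1 h1 hy
  refine ⟨E, fun s hs => ?_⟩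
  obtain ⟨k1, k2⟩ := hE s hs
  have k0 : 1 + algebraMap K F s * y⁻¹ ≠ 0 := fun h0 => k1 (h0 ▸ L.zero_mem)
  exact ⟨k1, k2, h.C2 h1 h2 hy hy2 k0, h.C3 h1 h2 hy hy2 k0⟩

end C

end FP

end Pool.Agent.HuaDom91
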