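import Mathlib
import Pool.Agent.HuaVal.Defs
import Pool.Agent.HuaOne84.Defs

/-!
Definitions used in the statement about pairs of subspaces.
-/

set_option autoImplicit false

namespace Pool.Agent.HuaDom91

/-- The translation `x ↦ x + a` of `A ∪ {∞}`, fixing the point at infinity. -/
def tr {A : Type} [AddCommGroup A] (a : A) : Equiv.Perm (Option A) :=
  (Equiv.addRight a).optionCongr

/-- The group of permutations of `A ∪ {∞}` generated by the translations by the elements of `P`
and the conjugates under `j e` of the translations by the elements of `R`. -/
def GenBy {A : Type} [AddCommGroup A] (j : A → Option A → Option A) (e : A) (P R : Set A) :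
    Subgroup (Equiv.Perm (Option A)) :=
  Subgroup.closure ({g | ∃ p ∈ P, g = tr p} ∪ {g | ∃ r ∈ R, ∀ x, g x = j e (tr r (j e x))})

end Pool.Agent.HuaDom91
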