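import Mathlib
import Pool.Agent.HuaDom91.Basic
import Pool.Agent.HuaDom91.Defs

/-!
The group generated by the translations of a pair of subspaces: if it does not contain all
translations then there is a perfect pair.
-/

set_option autoImplicit false

namespace Pool.Agent.HuaDom91

open Pool.Agent.HuaTop84 Pool.Agent.HuaVal Pool.Agent.HuaOne84

variable {A : Type} [AddCommGroup A]

@[simp] theorem tr_some (a x : A) : tr a (some x) = some (x + a) := rfl

@[simp] theorem tr_none (a : A) : tr a none = none := rfl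

theorem tr_add (a b : A) : tr (a + b) = tr a * tr b := by
  ext x : 1
  rcases x with _ | x
  · rfl
  · change some (x + (a + b)) = some (x + b + a)
    congr 1
    abel

theorem tr_zero : tr (0 : A) = 1 := by
  ext x : 1
  rcases x with _ | x
  · rfl
  · change some (x + 0) = some x
    rw [add_zero]

theorem tr_neg (a : A) : tr (-a) = (tr a)⁻¹ := by
  rw [eq_inv_iff_mul_eq_one, ← tr_add, neg_add_cancel, tr_zero]

/-- A linear permutation, fixing the point at infinity. -/
def lp (φ : A ≃+ A) : Equiv.Perm (Option A) := φ.toEquiv.optionCongr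

@[simp] theorem lp_some (φ : A ≃+ A) (x : A) : lp φ (some x) = some (φ x) := rfl

@[simp] theorem lp_none (φ : A ≃+ A) : lp φ none = none := rfl

theorem lp_tr (φ : A ≃+ A) (a : A) : lp φ * tr a = tr (φ a) * lp φ := by
  ext x : 1
  rcases x with _ | x
  · rfl
  · change some (φ (x + a)) = some (φ x + φ a)
    rw [map_add]

variable (H : HS A)

open Classical in
/-- The inversion, exchanging zero and the point at infinity. -/
noncomputable def iv : Equiv.Perm (Option A) where
  toFun := fun x => x.elim (some 0) (fun x => if x = 0 then none else some (H.inv x))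
  invFun := fun x => x.elim (some 0) (fun x => if x = 0 then none else some (H.inv x))
  left_inv := by
    intro x
    rcases x with _ | x
    · simp
    · by_cases hx : x = 0
      · simp [hx]
      · have h1 := H.inv_ne x hx
        simp [hx, h1, H.inv_inv]
  right_inv := by
    intro x
    rcases x with _ | x
    · simp
    · by_cases hx : x = 0
      · simp [hx]
      · have h1 := H.inv_ne x hx
        simp [hx, h1, H.inv_inv]

@[simp] theorem iv_none : iv H none = some 0 := rfl

@[simp] theorem iv_zero : iv H (some 0) = none := by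
  simp [iv]

theorem iv_some {x : A} (hx : x ≠ 0) : iv H (some x) = some (H.inv x) := by
  simp [iv, hx]

theorem iv_iv : iv H * iv H = 1 := by
  ext x : 1
  rcases x with _ | x
  · simp
  · by_cases hx : x = 0
    · simp [hx]
    · simp [Equiv.Perm.mul_apply, iv_some H hx, iv_some H (H.inv_ne x hx), H.inv_inv]

/-- The quasi-translation by `c`. -/
noncomputable def qt (c : A) : Equiv.Perm (Option A) := iv H * tr c * iv H

theorem qt_add (a b : A) : qt H (a + b) = qt H a * qt H b := by
  unfold qt
  rw [tr_add]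
  have h := iv_iv H
  calc iv H * (tr a * tr b) * iv H = iv H * tr a * 1 * tr b * iv H := by group
    _ = iv H * tr a * iv H * (iv H * tr b * iv H) := by rw [← h]; group

theorem qt_zero : qt H 0 = 1 := by
  unfold qt
  rw [tr_zero, mul_one, iv_iv]

theorem qt_neg (a : A) : qt H (-a) = (qt H a)⁻¹ := by
  rw [eq_inv_iff_mul_eq_one, ← qt_add, neg_add_cancel, qt_zero]

/-- The additive equivalence `x ↦ -U_t x`. -/
def nU {t : A} (ht : t ≠ 0) : A ≃+ A where
  toFun := fun x => -H.U t x
  invFun := fun x => -H.U (H.inv t) x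
  left_inv := fun x => by
    change -H.U (H.inv t) (-H.U t x) = x
    rw [map_neg, H.U_inv_left t x ht, neg_neg]
  right_inv := fun x => by
    change -H.U t (-H.U (H.inv t) x) = x
    rw [map_neg, H.U_inv_right t x ht, neg_neg]
  map_add' := fun x y => by
    rw [map_add]
    abel

@[simp] theorem nU_apply {t : A} (ht : t ≠ 0) (x : A) : nU H ht x = -H.U t x := rfl

theorem iv_nU {t : A} (ht : t ≠ 0) : iv H * lp (nU H ht) = (lp (nU H ht))⁻¹ * iv H := by
  rw [eq_inv_mul_iff_mul_eq]
  ext x : 1
  rcases x with _ | x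
  · simp only [Equiv.Perm.mul_apply, lp_none, iv_none, lp_some, map_zero]
  · by_cases hx : x = 0
    · simp only [Equiv.Perm.mul_apply, lp_some, hx, map_zero, iv_zero, lp_none]
    · have h1 : -H.U t x ≠ 0 := neg_ne_zero.mpr fun h0 => hx (H.U_inj ht h0)
      simp only [Equiv.Perm.mul_apply, lp_some, nU_apply]
      rw [iv_some H h1, iv_some H hx, lp_some, nU_apply, H.inv_neg, H.inv_U t x ht,
        map_neg, H.U_inv_right t _ ht, neg_neg]

/-- The basic relation. -/
theorem mu_eq {t : A} (ht : t ≠ 0) : tr t * qt H (-H.inv t) * tr t = lp (nU H ht) * iv H := by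
  have hit := H.inv_ne t ht
  have hnit : -H.inv t ≠ 0 := neg_ne_zero.mpr hit
  ext x : 1
  unfold qt
  rcases x with _ | x
  · simp only [Equiv.Perm.mul_apply, tr_none, iv_none, tr_some, zero_add, lp_some, map_zero]
    rw [iv_some H hnit, tr_some, H.inv_neg, H.inv_inv, neg_add_cancel]
  · simp only [Equiv.Perm.mul_apply, tr_some]
    by_cases hx : x = 0
    · subst hx
      rw [zero_add, iv_some H ht, tr_some, add_neg_cancel, iv_zero, tr_none, lp_none]
    by_cases hxt : x + t = 0
    · have h1 : x = -t := eq_neg_of_add_eq_zero_left hxt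
      rw [hxt, iv_zero, tr_none, iv_none, tr_some, zero_add, iv_some H hx, lp_some, nU_apply, h1,
        H.inv_neg, map_neg, H.U_self, neg_neg]
    · have hxi := H.inv_ne x hx
      have h1 := H.inv_add t x ht hx (by rwa [add_comm])
      have h2 : H.inv (x + t) + -H.inv t = -H.U (H.inv t) (H.inv (H.inv t + H.inv x)) := by
        rw [add_comm x t, h1]; abel
      have h3 : H.inv t + H.inv x ≠ 0 := by
        intro h0
        apply hxt
        have h4 : H.inv x = H.inv (-t) := by
          rw [H.inv_neg]; exact eq_neg_of_add_eq_zero_right h0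
        rw [inv_inj h4]; abel
      have h4 : -H.U (H.inv t) (H.inv (H.inv t + H.inv x)) ≠ 0 :=
        neg_ne_zero.mpr fun h0 => H.inv_ne _ h3 (H.U_inj hit h0)
      rw [iv_some H hxt, tr_some, h2, iv_some H h4, tr_some, iv_some H hx, lp_some, nU_apply,
        H.inv_neg, H.inv_U _ _ hit, H.inv_inv, H.inv_inv, map_add, H.U_self]
      congr 1
      abel

theorem lp_qt {t : A} (ht : t ≠ 0) (a : A) :
    lp (nU H ht) * qt H a = qt H (-H.U (H.inv t) a) * lp (nU H ht) := by
  have h1 := iv_nU H ht
  set φ := lp (nU H ht) with hφ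
  have h2 : φ * iv H = iv H * φ⁻¹ := by
    rw [eq_mul_inv_iff_mul_eq, mul_assoc, h1, mul_inv_cancel_left]
  have h3 : φ⁻¹ * tr a = tr (-H.U (H.inv t) a) * φ⁻¹ := by
    rw [inv_mul_eq_iff_eq_mul, ← mul_assoc, eq_mul_inv_iff_mul_eq, hφ, lp_tr, nU_apply, map_neg,
      H.U_inv_right t _ ht, neg_neg]
  unfold qt
  calc φ * (iv H * tr a * iv H) = (φ * iv H) * tr a * iv H := by group
    _ = iv H * (φ⁻¹ * tr a) * iv H := by rw [h2]; group
    _ = iv H * tr (-H.U (H.inv t) a) * (φ⁻¹ * iv H) := by rw [h3]; group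
    _ = iv H * tr (-H.U (H.inv t) a) * iv H * φ := by rw [← h1]; group

theorem mu_conj {t : A} (ht : t ≠ 0) (a : A) :
    lp (nU H ht) * iv H * tr a = qt H (-H.U (H.inv t) a) * (lp (nU H ht) * iv H) := by
  have h1 := lp_qt H ht a
  have h2 := iv_iv H
  calc lp (nU H ht) * iv H * tr a = lp (nU H ht) * iv H * tr a * 1 := by group
    _ = lp (nU H ht) * (iv H * tr a * iv H) * iv H := by rw [← h2]; group
    _ = lp (nU H ht) * qt H a * iv H := rfl
    _ = qt H (-H.U (H.inv t) a) * (lp (nU H ht) * iv H) := by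
      rw [h1, mul_assoc]

/-- The relation between translations and quasi-translations in a group with a T-element. -/
theorem mem_iff {G : Subgroup (Equiv.Perm (Option A))} {t : A} (ht : t ≠ 0) (h1 : tr t ∈ G)
    (h2 : qt H (H.inv t) ∈ G) (a : A) : tr a ∈ G ↔ qt H (H.U (H.inv t) a) ∈ G := by
  have h3 : lp (nU H ht) * iv H ∈ G := by
    rw [← mu_eq, qt_neg]
    exact G.mul_mem (G.mul_mem h1 (G.inv_mem h2)) h1
  have h4 := mu_conj H ht a
  have h5 : qt H (-H.U (H.inv t) a) ∈ G ↔ qt H (H.U (H.inv t) a) ∈ G := by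
    rw [qt_neg, Subgroup.inv_mem_iff]
  rw [← h5, ← G.mul_mem_cancel_left h3, h4, G.mul_mem_cancel_right h3]

/-! ### Lemma G -/

section

variable {K : Type} [Field K] [Module K A] {H}

/-- The subspace of elements of `P` whose inverses are not in `R`. -/
theorem exists_perf (S : H.Scal K) {P R : Submodule K A} (h0 : P ≠ ⊥) (h1 : P ≠ ⊤)
    (hpair : ∀ y, y ∉ P → H.inv y ∈ R)
    (hT : ∀ t, t ≠ 0 → t ∈ P → H.inv t ∈ R → ∀ a, a ∈ P ↔ H.U (H.inv t) a ∈ R) :
    ∃ m : Submodule K A, Perf H m R := by
  have hadd : ∀ v w, v ∈ P → H.inv v ∉ R → w ∈ P → H.inv w ∉ R → v + w ≠ 0 →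
      H.inv (v + w) ∉ R := by
    intro v w hv hv' hw hw' hu0 hu'
    have hv0 : v ≠ 0 := by
      intro h
      rw [h, H.inv_zero] at hv'
      exact hv' R.zero_mem
    have hw0 : w ≠ 0 := by
      intro h
      rw [h, H.inv_zero] at hw'
      exact hw' R.zero_mem
    set u := v + w with hudef
    have hu : u ∈ P := P.add_mem hv hw
    have hiff := hT u hu0 hu hu'
    -- `v' = U_u v⁻¹` is not in `P`
    have hv1 : H.U u (H.inv v) ∉ P := by
      rw [hiff, H.U_inv_left u _ hu0]
      exact hv'
    have hw1 : H.U u (H.inv w) ∉ P := by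
      rw [hiff, H.U_inv_left u _ hu0]
      exact hw'
    have hy : H.U u (H.inv v) - u ∉ P := by
      intro h
      apply hv1
      have := P.add_mem h hu
      rwa [sub_add_cancel] at this
    have hy' : H.U u (H.inv (H.U u (H.inv v) - u)) ∈ P := by
      rw [hiff, H.U_inv_left u _ hu0]
      exact hpair _ hy
    -- compute
    have e1 : H.U u (H.inv v) - u = H.U u (H.inv v - H.inv u) := by
      rw [map_sub, H.U_self]
    have e2 : H.U u (H.inv (H.U u (H.inv v) - u)) = H.inv (H.inv v - H.inv u) := by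
      rw [e1, H.inv_U u _ hu0, H.U_inv_right u _ hu0]
    have huv : u + -v ≠ 0 := by
      rw [hudef]
      intro h
      apply hw0
      rw [← h]
      abel
    have e3 := H.inv_add u (-v) hu0 (neg_ne_zero.mpr hv0) huv
    have e4 : u + -v = w := by rw [hudef]; abel
    have e5 : H.inv u + H.inv (-v) = -(H.inv v - H.inv u) := by rw [H.inv_neg]; abel
    rw [e4, e5, H.inv_neg, map_neg, sub_neg_eq_add] at e3
    have e6 : H.U u (H.inv w) = u + H.inv (H.inv v - H.inv u) := by
      rw [e3, map_add, H.U_self, H.U_inv_right u _ hu0]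
    apply hw1
    rw [e6, ← e2]
    exact P.add_mem hu hy'
  have hRtop : ∃ y, y ≠ 0 ∧ H.inv y ∉ R := by
    obtain ⟨v, hv, hv0⟩ := Submodule.exists_mem_ne_zero_of_ne_bot h0
    by_cases hv' : H.inv v ∈ R
    · obtain ⟨a, ha⟩ : ∃ a, a ∉ P := by
        by_contra hcon
        push Not at hcon
        exact h1 (eq_top_iff.2 fun x _ => hcon x)
      have ha' : H.U (H.inv v) a ∉ R := fun h => ha ((hT v hv0 hv hv' a).2 h)
      have ha0 : H.U (H.inv v) a ≠ 0 := fun h => ha' (h ▸ R.zero_mem)
      refine ⟨H.inv (H.U (H.inv v) a), H.inv_ne _ ha0, ?_⟩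
      rw [H.inv_inv]
      exact ha'
    · exact ⟨v, hv0, hv'⟩
  let m : Submodule K A :=
    { carrier := {v | v = 0 ∨ (v ∈ P ∧ H.inv v ∉ R)}
      zero_mem' := Or.inl rfl
      add_mem' := by
        rintro v w (rfl | ⟨hv, hv'⟩) (rfl | ⟨hw, hw'⟩)
        · exact Or.inl (add_zero 0)
        · rw [zero_add]; exact Or.inr ⟨hw, hw'⟩
        · rw [add_zero]; exact Or.inr ⟨hv, hv'⟩
        · by_cases h : v + w = 0
          · exact Or.inl h
          · exact Or.inr ⟨P.add_mem hv hw, hadd v w hv hv' hw hw' h⟩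
      smul_mem' := by
        rintro c v (rfl | ⟨hv, hv'⟩)
        · exact Or.inl (smul_zero c)
        · by_cases hc : c = 0
          · exact Or.inl (by rw [hc, zero_smul])
          · refine Or.inr ⟨P.smul_mem c hv, ?_⟩
            rw [S.inv_smul c v hc, R.smul_mem_iff (inv_ne_zero hc)]
            exact hv' }
  have hm : ∀ v, v ∈ m ↔ v = 0 ∨ (v ∈ P ∧ H.inv v ∉ R) := fun v => Iff.rfl
  refine ⟨m, ?_, ?_, ?_⟩
  · obtain ⟨y, hy0, hy⟩ := hRtop
    intro h
    have h2 : y ∈ m := (hm y).2 (Or.inr ⟨by
      by_contra hyP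
      exact hy (hpair y hyP), hy⟩)
    rw [h, Submodule.mem_bot] at h2
    exact hy0 h2
  · intro h
    apply h1
    rw [eq_top_iff]
    intro x _
    have h2 : x ∈ m := h ▸ Submodule.mem_top
    rcases (hm x).1 h2 with h3 | h3
    · rw [h3]; exact P.zero_mem
    · exact h3.1
  · intro y hy0
    rw [hm]
    constructor
    · rintro (h | h)
      · exact absurd h hy0
      · exact h.2
    · intro h
      refine Or.inr ⟨?_, h⟩
      by_contra hyP
      exact h (hpair y hyP)

variable (H) in
/-- The group generated by the translations by `P` and the quasi-translations by `R`. -/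
noncomputable def Gam (P R : Submodule K A) : Subgroup (Equiv.Perm (Option A)) :=
  Subgroup.closure ({g | ∃ p ∈ P, g = tr p} ∪ {g | ∃ r ∈ R, g = qt H r})

/-- The scalar multiplication. -/
def dl (c : K) (hc : c ≠ 0) : A ≃+ A where
  toFun := fun x => c • x
  invFun := fun x => c⁻¹ • x
  left_inv := fun x => by
    change c⁻¹ • c • x = x
    rw [smul_smul, inv_mul_cancel₀ hc, one_smul]
  right_inv := fun x => by
    change c • c⁻¹ • x = x
    rw [smul_smul, mul_inv_cancel₀ hc, one_smul]
  map_add' := fun x y => smul_add c x y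

theorem dl_iv (S : H.Scal K) (c : K) (hc : c ≠ 0) :
    lp (dl (A := A) c hc) * iv H = iv H * (lp (dl c hc))⁻¹ := by
  rw [eq_mul_inv_iff_mul_eq]
  ext x : 1
  rcases x with _ | x
  · simp only [Equiv.Perm.mul_apply, lp_none, iv_none, lp_some]
    rw [map_zero]
  · by_cases hx : x = 0
    · simp only [Equiv.Perm.mul_apply, lp_some, hx, map_zero, iv_zero, lp_none]
    · have h1 : dl c hc x ≠ 0 := smul_ne_zero hc hx
      simp only [Equiv.Perm.mul_apply, lp_some]
      rw [iv_some H h1, iv_some H hx, lp_some]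
      congr 1
      change c • H.inv (c • x) = H.inv x
      rw [S.inv_smul c x hc, smul_smul, mul_inv_cancel₀ hc, one_smul]

theorem dl_qt (S : H.Scal K) (c : K) (hc : c ≠ 0) (a : A) :
    lp (dl (A := A) c hc) * qt H a * (lp (dl c hc))⁻¹ = qt H (c⁻¹ • a) := by
  have h1 := dl_iv S c hc
  set φ := lp (dl (A := A) c hc) with hφ
  have h3 : φ⁻¹ * tr a = tr (c⁻¹ • a) * φ⁻¹ := by
    rw [inv_mul_eq_iff_eq_mul, ← mul_assoc, eq_mul_inv_iff_mul_eq, hφ, lp_tr]
    congr 2
    change a = c • c⁻¹ • a
    rw [smul_smul, mul_inv_cancel₀ hc, one_smul]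
  have h2 : φ⁻¹ * iv H = iv H * φ := by
    rw [inv_mul_eq_iff_eq_mul, ← mul_assoc, h1, inv_mul_cancel_right]
  unfold qt
  calc φ * (iv H * tr a * iv H) * φ⁻¹ = (φ * iv H) * tr a * iv H * φ⁻¹ := by group
    _ = iv H * (φ⁻¹ * tr a) * iv H * φ⁻¹ := by rw [h1]; group
    _ = iv H * tr (c⁻¹ • a) * (φ⁻¹ * iv H) * φ⁻¹ := by rw [h3]; group
    _ = iv H * tr (c⁻¹ • a) * iv H := by rw [h2]; group

theorem dl_tr (c : K) (hc : c ≠ 0) (a : A) :
    lp (dl (A := A) c hc) * tr a * (lp (dl c hc))⁻¹ = tr (c • a) := by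
  rw [lp_tr, mul_inv_cancel_right]
  rfl

theorem Gam_conj (S : H.Scal K) (P R : Submodule K A) (c : K) (hc : c ≠ 0)
    {g : Equiv.Perm (Option A)} (hg : g ∈ Gam H P R) :
    lp (dl (A := A) c hc) * g * (lp (dl c hc))⁻¹ ∈ Gam H P R := by
  unfold Gam at hg
  induction hg using Subgroup.closure_induction with
  | mem g hg =>
    apply Subgroup.subset_closure
    rcases hg with ⟨p, hp, rfl⟩ | ⟨r, hr, rfl⟩
    · exact Or.inl ⟨c • p, P.smul_mem c hp, dl_tr c hc p⟩
    · exact Or.inr ⟨c⁻¹ • r, R.smul_mem _ hr, dl_qt S c hc r⟩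
  | one =>
    rw [mul_one, mul_inv_cancel]
    exact Subgroup.one_mem _
  | mul g h _ _ ihg ihh =>
    have := (Gam H P R).mul_mem ihg ihh
    convert this using 1
    group
  | inv g _ ih =>
    have := (Gam H P R).inv_mem ih
    convert this using 1
    group

/-- A pair of subspaces such that the group does not contain all translations gives a
perfect pair. -/
theorem perf_of_Gam (S : H.Scal K) {P R : Submodule K A} (h0 : P ≠ ⊥)
    (hpair : ∀ y, y ∉ P → H.inv y ∈ R) (hG : ∃ a, tr a ∉ Gam H P R) :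
    ∃ m n : Submodule K A, Perf H m n := by
  let PG : Submodule K A :=
    { carrier := {a | tr a ∈ Gam H P R}
      zero_mem' := by
        change tr (0 : A) ∈ Gam H P R
        rw [tr_zero]
        exact Subgroup.one_mem _
      add_mem' := by
        intro a b ha hb
        change tr (a + b) ∈ Gam H P R
        rw [tr_add]
        exact Subgroup.mul_mem _ ha hb
      smul_mem' := by
        intro c a ha
        change tr (c • a) ∈ Gam H P R
        by_cases hc : c = 0
        · rw [hc, zero_smul, tr_zero]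
          exact Subgroup.one_mem _
        · rw [← dl_tr c hc]
          exact Gam_conj S P R c hc ha }
  let RG : Submodule K A :=
    { carrier := {a | qt H a ∈ Gam H P R}
      zero_mem' := by
        change qt H 0 ∈ Gam H P R
        rw [qt_zero]
        exact Subgroup.one_mem _
      add_mem' := by
        intro a b ha hb
        change qt H (a + b) ∈ Gam H P R
        rw [qt_add]
        exact Subgroup.mul_mem _ ha hb
      smul_mem' := by
        intro c a ha
        change qt H (c • a) ∈ Gam H P R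
        by_cases hc : c = 0
        · rw [hc, zero_smul, qt_zero]
          exact Subgroup.one_mem _
        · have h := dl_qt S c⁻¹ (inv_ne_zero hc) a
          rw [inv_inv] at h
          rw [← h]
          exact Gam_conj S P R _ (inv_ne_zero hc) ha }
  have hP : P ≤ PG := fun p hp => Subgroup.subset_closure (Or.inl ⟨p, hp, rfl⟩)
  have hR : R ≤ RG := fun r hr => Subgroup.subset_closure (Or.inr ⟨r, hr, rfl⟩)
  obtain ⟨m, hm⟩ := exists_perf (H := H) S (P := PG) (R := RG) (by
    intro h
    apply h0
    rw [eq_bot_iff, ← h]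
    exact hP) (by
    intro h
    obtain ⟨a, ha⟩ := hG
    apply ha
    have h2 : a ∈ PG := h ▸ Submodule.mem_top
    exact h2) (fun y hy => hR (hpair y fun h => hy (hP h)))
    (fun t ht h1 h2 a => mem_iff (G := Gam H P R) H ht h1 h2 a)
  exact ⟨m, RG, hm⟩

end

end Pool.Agent.HuaDom91
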