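import Mathlib
import Pool.Agent.HuaDom91.Basic

/-!
Perfect pairs of subspaces of a Hua system: approximation and dominance on planes.
-/

set_option autoImplicit false

namespace Pool.Agent.HuaDom91

open Pool.Agent.HuaTop84 Pool.Agent.HuaVal Pool.Agent.HuaOne84

variable {A : Type} [AddCommGroup A] {K : Type} [Field K] [Module K A] {H : HS A}

/-- Approximation for perfect pairs. -/
theorem approx [Infinite K] {ι : Type} [Finite ι] {P R : ι → Submodule K A}
    (h : ∀ i, Perf H (P i) (R i)) {P' R' : Submodule K A} (h' : Perf H P' R')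
    (hle : ⨅ i, R i ≤ R') : ∃ i, R i ≤ R' := by
  by_contra hcon
  push Not at hcon
  -- no `P i` contains `P'`
  have h1 : ∀ i, (P i).comap P'.subtype ≠ ⊤ := by
    intro i htop
    apply hcon i
    intro x hx
    by_cases hx0 : x = 0
    · rw [hx0]; exact R'.zero_mem
    by_contra hxR
    have h2 := h'.inv_mem' hxR
    have h3 : (⟨H.inv x, h2⟩ : P') ∈ (P i).comap P'.subtype := htop ▸ Submodule.mem_top
    have h4 : H.inv x ∈ P i := h3
    have h5 := (h i).inv_notMem h4 (H.inv_ne x hx0)
    rw [H.inv_inv] at h5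
    exact h5 hx
  have h2 : (⋃ i, ((P i).comap P'.subtype : Set P')) ≠ Set.univ := by
    intro hcov
    obtain ⟨i, hi⟩ := Subspace.exists_eq_top_of_iUnion_eq_univ hcov
    exact h1 i hi
  obtain ⟨y, hy⟩ := (Set.ne_univ_iff_exists_notMem _).1 h2
  simp only [Set.mem_iUnion, not_exists] at hy
  by_cases hι : Nonempty ι
  · obtain ⟨i0⟩ := hι
    have hy0 : (y : A) ≠ 0 := by
      intro h0
      apply hy i0
      change (y : A) ∈ P i0
      rw [h0]; exact (P i0).zero_mem
    have h3 : H.inv (y : A) ∈ ⨅ i, R i := by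
      rw [Submodule.mem_iInf]
      intro i
      exact (h i).inv_mem (hy i)
    exact h'.inv_notMem y.2 hy0 (hle h3)
  · rw [not_nonempty_iff] at hι
    rw [iInf_of_empty] at hle
    exact h'.symm.ne_top (top_le_iff.1 hle)

namespace Perf

variable {P R : Submodule K A} (h : Perf H P R)

include h

/-- On a line in the direction `c ∉ P` at most two points `z ∉ P` have `U_z⁻¹ P ⊄ U_c⁻¹ P`. -/
theorem two_points [Infinite K] (S : H.Scal K) (h2K : (2 : K) ≠ 0) {c g : A} (hc : c ∉ P)
    (t : Fin 3 → K) (ht : Function.Injective t) (hz : ∀ i, g + t i • c ∉ P) :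
    ∃ i, N S P (g + t i • c) ≤ N S P c := by
  have hc0 : c ≠ 0 := fun h0 => hc (h0 ▸ P.zero_mem)
  have hz0 : ∀ i, g + t i • c ≠ 0 := fun i h0 => hz i (h0 ▸ P.zero_mem)
  apply approx (fun i => h.refl S (hz0 i)) (h.refl S hc0)
  intro v hv
  rw [Submodule.mem_iInf] at hv
  have e : ∀ i, g + t i • c = (g + t 0 • c) + (t i - t 0) • c := by
    intro i; rw [sub_smul]; abel
  have n1 : t 1 - t 0 ≠ 0 := sub_ne_zero.mpr (ht.ne (by decide))
  have n2 : t 2 - t 0 ≠ 0 := sub_ne_zero.mpr (ht.ne (by decide))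
  have n12 : t 1 - t 0 ≠ t 2 - t 0 := fun h0 => ht.ne (show (1 : Fin 3) ≠ 2 by decide)
    (sub_left_injective h0)
  have v0 := hv 0
  have v1 := hv 1
  have v2 := hv 2
  have z1 := hz 1
  have z2 := hz 2
  rw [e 1] at v1 z1
  rw [e 2] at v2 z2
  exact h.three S h2K hc n1 n2 n12 (hz 0) z1 z2 v0 v1 v2

end Perf

/-- A set without three distinct elements is contained in a finite set of two elements. -/
theorem exists_finset {α : Type*} [Nonempty α] (T : Set α)
    (hT : ∀ t : Fin 3 → α, Function.Injective t → ¬ ∀ i, t i ∈ T) :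
    ∃ E : Finset α, E.card ≤ 2 ∧ ∀ x, x ∈ T → x ∈ E := by
  classical
  by_cases h0 : ∃ x, x ∈ T
  · obtain ⟨x, hx⟩ := h0
    by_cases h1 : ∃ y, y ∈ T ∧ y ≠ x
    · obtain ⟨y, hy, hyx⟩ := h1
      refine ⟨{x, y}, Finset.card_le_two, fun z hz => ?_⟩
      by_contra hcon
      simp only [Finset.mem_insert, Finset.mem_singleton, not_or] at hcon
      apply hT ![x, y, z]
      · intro i j hij
        fin_cases i <;> fin_cases j <;> simp_all
      · intro i
        fin_cases i
        · exact hx
        · exact hy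
        · exact hz
    · push Not at h1
      refine ⟨{x}, by simp, fun z hz => ?_⟩
      rw [Finset.mem_singleton]
      exact h1 z hz
  · push Not at h0
    exact ⟨∅, by simp, fun x hx => absurd hx (h0 x)⟩

namespace Perf

variable {P R : Submodule K A} (h : Perf H P R)

include h

/-- At most one point of the line `b + K a` lies in `P`, if not both of `a`, `b` do. -/
theorem one_point {a b : A} (hab : ¬ (a ∈ P ∧ b ∈ P)) {t s : K} (ht : b + t • a ∈ P)
    (hs : b + s • a ∈ P) : t = s := by
  by_contra hts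
  apply hab
  have h1 := P.sub_mem ht hs
  rw [add_sub_add_left_eq_sub, ← sub_smul, P.smul_mem_iff (sub_ne_zero.mpr hts)] at h1
  refine ⟨h1, ?_⟩
  have h2 := P.sub_mem ht (P.smul_mem t h1)
  rwa [add_sub_cancel_right] at h2

/-- Comparison of the points of a line `b + K a` with one of them. -/
theorem line_self [Infinite K] (S : H.Scal K) (h2K : (2 : K) ≠ 0) {a b : A} {s : K}
    (hs : b + s • a ∉ P) :
    ∃ E : Finset K, E.card ≤ 2 ∧ ∀ t, t ∉ E → b + t • a ∉ P →
      N S P (b + t • a) ≤ N S P (b + s • a) := by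
  obtain ⟨E, hE, hE2⟩ := exists_finset
    {t : K | b + t • a ∉ P ∧ ¬ N S P (b + t • a) ≤ N S P (b + s • a)} (by
      intro t ht hcon
      have hne : ∀ i, t i - s ≠ 0 := by
        intro i h0
        apply (hcon i).2
        rw [sub_eq_zero.mp h0]
      have e : ∀ i, a + (t i - s)⁻¹ • (b + s • a) = (t i - s)⁻¹ • (b + t i • a) := by
        intro i
        have e1 : b + t i • a = (t i - s) • a + (b + s • a) := by rw [sub_smul]; abel
        rw [e1, smul_add (t i - s)⁻¹ ((t i - s) • a), smul_smul, inv_mul_cancel₀ (hne i), one_smul]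
      obtain ⟨i, hi⟩ := h.two_points S h2K hs (fun i => (t i - s)⁻¹)
        (fun i j hij => ht (sub_left_injective (inv_injective hij))) (g := a) (by
          intro i h0
          rw [e i, P.smul_mem_iff (inv_ne_zero (hne i))] at h0
          exact (hcon i).1 h0)
      rw [e i, N_smul S P (inv_ne_zero (hne i))] at hi
      exact (hcon i).2 hi)
  refine ⟨E, hE, fun t ht htP => ?_⟩
  by_contra hcon
  exact ht (hE2 t ⟨htP, hcon⟩)

/-- Comparison of the points of a line `b + K a` with `a`. -/
theorem line_dir [Infinite K] (S : H.Scal K) (h2K : (2 : K) ≠ 0) {a b : A} (ha : a ∉ P) :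
    ∃ E : Finset K, E.card ≤ 2 ∧ ∀ t, t ∉ E → b + t • a ∉ P →
      N S P (b + t • a) ≤ N S P a := by
  obtain ⟨E, hE, hE2⟩ := exists_finset
    {t : K | b + t • a ∉ P ∧ ¬ N S P (b + t • a) ≤ N S P a} (by
      intro t ht hcon
      obtain ⟨i, hi⟩ := h.two_points S h2K ha t ht (g := b) (fun i => (hcon i).1)
      exact (hcon i).2 hi)
  refine ⟨E, hE, fun t ht htP => ?_⟩
  by_contra hcon
  exact ht (hE2 t ⟨htP, hcon⟩)

/-- Dominance: on a line `b + K a`, `a`, `b` not both in `P`, all points but at most three are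
outside `P` and have the same translate `U_z⁻¹ P`, which is contained in `U_c⁻¹ P` for all nonzero
`c` in the plane of `a` and `b`. -/
theorem dominance [Infinite K] (S : H.Scal K) (h2K : (2 : K) ≠ 0) {a b : A}
    (hab : ¬ (a ∈ P ∧ b ∈ P)) :
    ∃ (E : Finset K) (L : Submodule K A), E.card ≤ 3 ∧
      (∀ t, t ∉ E → b + t • a ∉ P ∧ N S P (b + t • a) = L) ∧
      ∀ x y : K, x • a + y • b ≠ 0 → L ≤ N S P (x • a + y • b) := by
  classical
  -- the points in `P`
  obtain ⟨E0, hE0, hE0'⟩ : ∃ E0 : Finset K, E0.card ≤ 1 ∧ ∀ t : K, t ∉ E0 → b + t • a ∉ P := by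
    by_cases h1 : ∃ s : K, b + s • a ∈ P
    · obtain ⟨s, hs⟩ := h1
      refine ⟨{s}, by simp, fun t ht htP => ht ?_⟩
      rw [Finset.mem_singleton]
      exact h.one_point hab htP hs
    · push Not at h1
      exact ⟨∅, by simp, fun t _ => h1 t⟩
  -- five points outside `P`
  obtain ⟨F, hF, hFc⟩ := (Set.Infinite.exists_subset_card_eq
    (Set.Finite.infinite_compl (s := (E0 : Set K)) (Finset.finite_toSet E0)) 5)
  have hFP : ∀ t ∈ F, b + t • a ∉ P := fun t ht => hE0' t (fun h0 => hF ht h0)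
  -- a minimal one
  have hFne : F.Nonempty := Finset.card_pos.1 (by omega)
  obtain ⟨s, hsF, hsmin⟩ := Finset.exists_minimalFor (fun t => N S P (b + t • a)) F hFne
  set L := N S P (b + s • a) with hL
  have hsP := hFP s hsF
  obtain ⟨E1, hE1, hE1'⟩ := h.line_self S h2K hsP
  -- the points with value `L`
  set G := F.filter (fun t => N S P (b + t • a) = L) with hG
  have hGc : 3 ≤ G.card := by
    have h1 : F \ E1 ⊆ G := by
      intro t ht
      rw [Finset.mem_sdiff] at ht
      rw [hG, Finset.mem_filter]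
      refine ⟨ht.1, ?_⟩
      have h2 := hE1' t ht.2 (hFP t ht.1)
      exact le_antisymm h2 (hsmin ht.1 h2)
    have h2 := Finset.card_le_card h1
    have h3 := Finset.le_card_sdiff E1 F
    omega
  have hGF : ∀ t ∈ G, b + t • a ∉ P ∧ N S P (b + t • a) = L := by
    intro t ht
    rw [hG, Finset.mem_filter] at ht
    exact ⟨hFP t ht.1, ht.2⟩
  have hex : ∀ E : Finset K, E.card ≤ 2 → ∃ t ∈ G, t ∉ E := by
    intro E hE
    by_contra hcon
    push Not at hcon
    have := Finset.card_le_card (show G ⊆ E from hcon)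
    omega
  -- `L` is the least value
  have hle1 : ∀ t : K, b + t • a ∉ P → L ≤ N S P (b + t • a) := by
    intro t ht
    obtain ⟨E, hE, hE'⟩ := h.line_self S h2K ht
    obtain ⟨u, hu, huE⟩ := hex E hE
    have h1 := hE' u huE (hGF u hu).1
    rwa [(hGF u hu).2] at h1
  have hle2 : a ∉ P → L ≤ N S P a := by
    intro ha
    obtain ⟨E, hE, hE'⟩ := h.line_dir S h2K (b := b) ha
    obtain ⟨u, hu, huE⟩ := hex E hE
    have h1 := hE' u huE (hGF u hu).1
    rwa [(hGF u hu).2] at h1
  have hLR : L ≤ R := h.N_le S hsP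
  refine ⟨E0 ∪ E1, L, ?_, ?_, ?_⟩
  · have := Finset.card_union_le E0 E1
    omega
  · intro t ht
    rw [Finset.mem_union, not_or] at ht
    have h1 := hE0' t ht.1
    exact ⟨h1, le_antisymm (hE1' t ht.2 h1) (hle1 t h1)⟩
  · intro x y hxy
    by_cases hP : x • a + y • b ∈ P
    · exact hLR.trans (h.le_N S hP hxy)
    by_cases hy : y = 0
    · subst hy
      rw [zero_smul, add_zero] at hP hxy ⊢
      have hx : x ≠ 0 := fun h0 => hxy (by rw [h0, zero_smul])
      rw [N_smul S P hx]
      exact hle2 fun h0 => hP (P.smul_mem x h0)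
    · have e : x • a + y • b = y • (b + (y⁻¹ * x) • a) := by
        rw [smul_add, smul_smul, mul_inv_cancel_left₀ hy, add_comm]
      rw [e] at hP ⊢
      rw [N_smul S P hy]
      exact hle1 _ fun h0 => hP (P.smul_mem y h0)

end Perf

end Pool.Agent.HuaDom91
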