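import Mathlib
import Pool.Agent.HuaDom91.Dom

/-!
Perfect pairs: large balls and good elements.
-/

set_option autoImplicit false

namespace Pool.Agent.HuaDom91

open Pool.Agent.HuaTop84 Pool.Agent.HuaVal Pool.Agent.HuaOne84

variable {A : Type} [AddCommGroup A] {K : Type} [Field K] [Module K A] {H : HS A}

namespace Perf

/-- If the unit lies in `B` then the dual of `B` is contained in `B`. -/
theorem dual_le (S : H.Scal K) {B T : Submodule K A} (hB : Perf H B T) (h1 : H.one ∈ B) :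
    T ≤ B := by
  intro x hx
  have h := hB.le_N S h1 H.one_ne hx
  rwa [mem_N, H.U_one] at h

/-- Good elements: for all but at most six points `w` of a line `c₀ + K θ` outside the ball `B`,
`θ ∈ B`, the map `U_w U_θ U_w⁻³` maps `B` into the dual of `B`. -/
theorem good [Infinite K] (S : H.Scal K) (h2K : (2 : K) ≠ 0) {B T : Submodule K A}
    (hB : Perf H B T) (h1 : H.one ∈ B) {θ c : A} (hθ : θ ∈ B) (hθ0 : θ ≠ 0) (hc : c ∉ B) :
    ∃ E : Finset K, E.card ≤ 6 ∧ ∀ t, t ∉ E → ∀ k ∈ B,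
      H.U (c + t • θ) (H.U θ (H.U (H.inv (c + t • θ)) (H.U (H.inv (c + t • θ))
        (H.U (H.inv (c + t • θ)) k)))) ∈ T := by
  classical
  have hTB := hB.dual_le S h1
  have hc0 : c ≠ 0 := fun h0 => hc (h0 ▸ B.zero_mem)
  have hw : ∀ t : K, c + t • θ ∉ B := fun t => hB.add_ne hc (B.smul_mem t hθ)
  have hw0 : ∀ t : K, c + t • θ ≠ 0 := fun t h0 => hw t (h0 ▸ B.zero_mem)
  set X := N S B c with hX
  have hXw : ∀ t : K, N S B (c + t • θ) = X := fun t => hB.N_add S hc (B.smul_mem t hθ)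
  have hXT : X ≤ T := hB.N_le S hc
  have hXp : Perf H X (N S T (H.inv c)) := (hB.refl S hc0).symm
  have hcX : c ∉ X := fun h0 => hc (hTB (hXT h0))
  obtain ⟨E1, L1, hE1, hL1, -⟩ := hXp.dominance S h2K (a := θ) (b := c) (fun h0 => hcX h0.2)
  obtain ⟨t0, ht0⟩ := Infinite.exists_notMem_finset E1
  have hL1p : Perf H L1 (N S (N S T (H.inv c)) (H.inv (c + t0 • θ))) := by
    rw [← (hL1 t0 ht0).2]
    exact (hXp.refl S (hw0 t0)).symm
  have hL1X : L1 ≤ X := by
    intro x hx
    rw [← (hL1 t0 ht0).2] at hx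
    have h2 : H.U (c + t0 • θ) x ∈ B := hTB (hXT hx)
    rw [← hXw t0]
    exact h2
  have hcL : c ∉ L1 := fun h0 => hcX (hL1X h0)
  obtain ⟨E2, L2, hE2, hL2, hL2'⟩ := hL1p.dominance S h2K (a := θ) (b := c) (fun h0 => hcL h0.2)
  have hθ1 : L2 ≤ N S L1 θ := by
    have h := hL2' 1 0 (by rw [one_smul, zero_smul, add_zero]; exact hθ0)
    rwa [one_smul, zero_smul, add_zero] at h
  refine ⟨E1 ∪ E2, ?_, fun t ht k hk => ?_⟩
  · have := Finset.card_union_le E1 E2
    omega
  rw [Finset.mem_union, not_or] at ht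
  set w := c + t • θ with hwdef
  have k1 : H.U (H.inv w) k ∈ X := by
    rw [← hXw t, mem_N, H.U_inv_right _ _ (hw0 t)]
    exact hk
  have k2 : H.U (H.inv w) (H.U (H.inv w) k) ∈ L1 := by
    rw [← (hL1 t ht.1).2, mem_N, H.U_inv_right _ _ (hw0 t)]
    exact k1
  have k3 : H.U (H.inv w) (H.U (H.inv w) (H.U (H.inv w) k)) ∈ L2 := by
    rw [← (hL2 t ht.2).2, mem_N, H.U_inv_right _ _ (hw0 t)]
    exact k2
  have k4 := hθ1 k3
  rw [mem_N, ← (hL1 t ht.1).2, mem_N] at k4
  exact hXT k4

/-- If `θ⁻¹ ∈ B` then `U_w θ ∉ B` for `w ∉ B`. -/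
theorem U_notMem (S : H.Scal K) {B T : Submodule K A} (hB : Perf H B T) {θ w : A}
    (hθ0 : θ ≠ 0) (hθi : H.inv θ ∈ B) (hw : w ∉ B) : H.U w θ ∉ B := by
  intro h0
  have h1 : θ ∈ T := hB.N_le S hw h0
  have h2 := hB.inv_notMem hθi (H.inv_ne _ hθ0)
  rw [H.inv_inv] at h2
  exact h2 h1

omit [AddCommGroup A] in
theorem _root_.Pool.Agent.HuaDom91.exists_notMem [AddCommGroup A] [Module K A] [Infinite K]
    {ι : Type} [Finite ι] (p : ι → Submodule K A) (h : ∀ i, p i ≠ ⊤) : ∃ x, ∀ i, x ∉ p i := by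
  have h2 : (⋃ i, (p i : Set A)) ≠ Set.univ := by
    intro hcov
    obtain ⟨i, hi⟩ := Subspace.exists_eq_top_of_iUnion_eq_univ hcov
    exact h i hi
  obtain ⟨c, hc⟩ := (Set.ne_univ_iff_exists_notMem _).1 h2
  simp only [Set.mem_iUnion, not_exists] at hc
  exact ⟨c, hc⟩

/-- Large balls: a perfect pair `(B, T)` such that `B` contains `P`, finitely many elements `a i`
and the subspaces `U_{a i} R`. -/
theorem ball [Infinite K] (S : H.Scal K) {P R : Submodule K A} (h : Perf H P R) {n : ℕ}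
    (a : Fin n → A) :
    ∃ B T : Submodule K A, Perf H B T ∧ P ≤ B ∧ (∀ i, a i ∈ B) ∧
      ∀ i, ∀ x ∈ R, H.U (a i) x ∈ B := by
  classical
  -- a point outside
  obtain ⟨c, hc⟩ := exists_notMem (fun i : Option (Fin n) =>
    i.elim P (fun i => if a i ∈ P then P else N S R (H.inv (a i)))) (by
      intro i
      rcases i with _ | i
      · exact h.ne_top
      · by_cases hi : a i ∈ P
        · simp only [Option.elim_some, hi, if_true]
          exact h.ne_top
        · simp only [Option.elim_some, hi, if_false]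
          refine (h.refl S (c := a i) ?_).ne_top
          intro h0
          rw [h0] at hi
          exact hi P.zero_mem)
  have hcP : c ∉ P := hc none
  have hca : ∀ i, a i ∉ P → c ∉ N S R (H.inv (a i)) := by
    intro i hi h0
    apply hc (some i)
    simp only [Option.elim_some, hi, if_false]
    exact h0
  have hc0 : c ≠ 0 := fun h0 => hcP (h0 ▸ P.zero_mem)
  have hp := h.refl S hc0
  have hPB : P ≤ N S R (H.inv c) := by
    intro x hx
    by_cases hx0 : x = 0
    · rw [hx0]; exact Submodule.zero_mem _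
    rw [hp.iff x hx0]
    intro h1
    exact h.inv_notMem hx hx0 (h.N_le S hcP h1)
  have key : ∀ b, b ∉ P → c ∉ N S R (H.inv b) → N S R (H.inv b) ≤ N S R (H.inv c) := by
    intro b hb hcb
    have hb0 : b ≠ 0 := fun h0 => hb (h0 ▸ P.zero_mem)
    have hq := h.refl S hb0
    have hPb : P ≤ N S R (H.inv b) := by
      intro x hx
      by_cases hx0 : x = 0
      · rw [hx0]; exact Submodule.zero_mem _
      rw [hq.iff x hx0]
      intro h1
      exact h.inv_notMem hx hx0 (h.N_le S hb h1)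
    have h1 : N S P c ≤ N S P b := fun x hx => hq.N_le S hcb (hPb hx)
    intro y hy
    by_cases hy0 : y = 0
    · rw [hy0]; exact Submodule.zero_mem _
    rw [hp.iff y hy0]
    intro h2
    exact hq.inv_notMem hy hy0 (h1 h2)
  refine ⟨N S R (H.inv c), N S P c, hp, hPB, ?_, ?_⟩
  · intro i
    by_cases hi : a i ∈ P
    · exact hPB hi
    · apply key _ hi (hca i hi)
      rw [mem_N]
      have h1 := H.U_self (H.inv (a i))
      rw [H.inv_inv] at h1
      rw [h1]
      exact h.inv_mem hi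
  · intro i x hx
    by_cases hi : a i ∈ P
    · apply hPB
      by_cases hx0 : a i = 0
      · rw [hx0, H.U_zero]; exact P.zero_mem
      exact h.le_N S hi hx0 hx
    · apply key _ hi (hca i hi)
      have hx0 : a i ≠ 0 := by
        intro h0
        rw [h0] at hi
        exact hi P.zero_mem
      rw [mem_N, H.U_inv_left _ _ hx0]
      exact hx

end Perf

end Pool.Agent.HuaDom91
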