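import Mathlib
import Pool.Agent.HuaDom91.Good
import Pool.Agent.HuaOne84.Frac

/-!
Perfect pairs: the key identity and the parallelogram defect at good elements.
-/

set_option autoImplicit false

namespace Pool.Agent.HuaDom91

open Pool.Agent.HuaTop84 Pool.Agent.HuaVal Pool.Agent.HuaOne84

variable {A : Type} [AddCommGroup A] {K : Type} [Field K] [Module K A] {H : HS A}

/-- The star identity. -/
theorem star (S : H.Scal K) (h2K : (2 : K) ≠ 0) {s e : A} (hs : s ≠ 0) (h1 : s + e ≠ 0)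
    (h2 : s - e ≠ 0) :
    H.inv (s + e) + H.inv (s - e) = (2 : K) • H.inv (s - H.U e (H.inv s)) := by
  have hne : s + e ≠ -(s - e) := by
    intro h0
    apply hs
    have h3 : (2 : K) • s = 0 := by
      rw [two_smul]
      have h4 : s + e + (s - e) = 0 := by rw [h0]; abel
      rw [← h4]; abel
    exact (smul_eq_zero.mp h3).resolve_left h2K
  have h3 := H.hua (s + e) (-(s - e)) h1 (neg_ne_zero.mpr h2) hne
  have h4 : s + e - -(s - e) = (2 : K) • s := by rw [two_smul]; abel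
  rw [h4, H.inv_neg, sub_neg_eq_add, S.inv_smul 2 s h2K, S.U_smul, add_comm s e,
    U_shift H e hs, add_comm e s] at h3
  have h5 : H.inv (H.inv (s + e) + H.inv (s - e)) = (2 : K)⁻¹ • (s - H.U e (H.inv s)) := by
    have h6 : H.inv (H.inv (s + e) + H.inv (s - e)) =
        s + e - (2 : K)⁻¹ • (H.U e (H.inv s) + (e + e + s)) := by rw [h3]; abel
    rw [h6]
    have h7 : s + e - (2 : K)⁻¹ • (H.U e (H.inv s) + (e + e + s)) =
        (2 : K)⁻¹ • ((2 : K) • (s + e) - (H.U e (H.inv s) + (e + e + s))) := by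
      rw [smul_sub, smul_smul, inv_mul_cancel₀ h2K, one_smul]
    rw [h7]
    congr 1
    rw [two_smul]
    abel
  have h8 := congrArg H.inv h5
  rw [H.inv_inv, S.inv_smul _ _ (inv_ne_zero h2K), inv_inv] at h8
  exact h8

/-- The key identity. -/
theorem key_identity (S : H.Scal K) (h2K : (2 : K) ≠ 0) {θ u f0 e g nw : A}
    (hg : H.U e (H.inv f0) = g) (hnw : nw = f0 - g)
    (he : ∀ x, H.U e (H.U (H.inv f0) x) = H.U u x)
    (h1 : ∀ x, H.U nw (H.U (H.inv (f0 + e)) x) = H.U (H.one - u) x)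
    (h2 : ∀ x, H.U nw (H.U (H.inv (f0 - e)) x) = H.U (H.one + u) x)
    (hinv : H.inv (f0 + e) + H.inv (f0 - e) = (2 : K) • H.inv nw)
    (n0 : f0 ≠ 0) (n1 : f0 + e ≠ 0) (n2 : f0 - e ≠ 0) (n3 : nw ≠ 0) (m0 : θ + f0 ≠ 0)
    (m1 : θ + (f0 + e) ≠ 0) (m2 : θ + (f0 - e) ≠ 0)
    {k : A} (hk : k = θ + H.U u θ - H.U u (H.U θ (H.inv (θ + f0)))) (m3 : k + nw ≠ 0) :
    H.U (H.one + u) θ + H.U (H.one - u) θ =
      H.U (H.one - u) (H.U θ (H.inv (θ + (f0 + e)))) +
      H.U (H.one + u) (H.U θ (H.inv (θ + (f0 - e)))) + (2 : K) • k -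
      (2 : K) • H.U k (H.inv (k + nw)) := by
  have st := star S h2K (s := θ + f0) (e := e) m0 (by rwa [add_assoc]) (by rwa [add_sub_assoc])
  rw [add_assoc, add_sub_assoc] at st
  -- the right hand side of the star identity
  have t0 := H.inv_add2 f0 θ n0 (by rwa [add_comm])
  have e1 : θ + f0 - H.U e (H.inv (θ + f0)) = nw + k := by
    rw [add_comm θ f0, t0, map_add, map_sub, hg, he, he, hnw, hk, add_comm θ f0]
    abel
  have t3 := H.inv_add2 nw k n3 (by rwa [add_comm])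
  rw [e1, t3] at st
  have t1 := H.inv_add2 (f0 + e) θ n1 (by rwa [add_comm])
  have t2 := H.inv_add2 (f0 - e) θ n2 (by rwa [add_comm])
  rw [add_comm θ (f0 + e), add_comm θ (f0 - e), t1, t2] at st
  have st2 := congrArg (fun z => H.U nw z) st
  simp only [map_add, map_sub, h1, h2, S.U_smul, H.U_inv_right nw _ n3] at st2
  have h4 := congrArg (fun z => H.U nw z) hinv
  simp only [map_add, S.U_smul] at h4
  rw [add_comm nw k] at st2
  rw [add_comm (f0 + e) θ, add_comm (f0 - e) θ] at st2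
  rw [smul_add, smul_sub] at st2
  have e2 : H.U (H.one + u) θ + H.U (H.one - u) θ =
      (H.U nw (H.inv (f0 + e)) + H.U nw (H.inv (f0 - e))) +
      H.U (H.one - u) (H.U θ (H.inv (θ + (f0 + e)))) +
      H.U (H.one + u) (H.U θ (H.inv (θ + (f0 - e)))) -
      (H.U nw (H.inv (f0 + e)) - H.U (H.one - u) θ +
        H.U (H.one - u) (H.U θ (H.inv (θ + (f0 + e)))) +
        (H.U nw (H.inv (f0 - e)) - H.U (H.one + u) θ +
        H.U (H.one + u) (H.U θ (H.inv (θ + (f0 - e)))))) := by abel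
  rw [e2, st2, h4]
  abel

namespace Perf

variable {P R : Submodule K A} (h : Perf H P R)

include h

/-- The terms of the key identity. -/
theorem term_mem {w θ f : A} (hw : w ≠ 0) (hθ : θ ≠ 0) (hf : f ≠ 0) (h1 : H.U w θ ∉ P)
    (h2 : H.U w (H.U θ (H.inv f)) ∈ P) :
    θ + f ≠ 0 ∧ H.U w (H.U θ (H.inv (θ + f))) ∈ P := by
  have e1 : H.U (H.inv w) (H.U (H.inv θ) (θ + f)) =
      H.inv (H.U w θ) + H.inv (H.U w (H.U θ (H.inv f))) := by
    have h3 := H.U_self (H.inv θ)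
    rw [H.inv_inv] at h3
    rw [map_add, map_add, H.inv_U w _ hw, H.inv_U w _ hw, H.inv_U θ _ hθ, H.inv_inv, h3]
  have h20 : H.U w (H.U θ (H.inv f)) ≠ 0 := fun h0 =>
    H.inv_ne f hf (H.U_inj hθ (H.U_inj hw h0))
  have h3 : H.U (H.inv w) (H.U (H.inv θ) (θ + f)) ∉ R := by
    rw [e1]
    intro h4
    apply h.inv_notMem h2 h20
    have h5 := R.sub_mem h4 (h.inv_mem h1)
    rwa [add_sub_cancel_left] at h5
  have h4 : θ + f ≠ 0 := by
    intro h0
    apply h3
    rw [h0, map_zero, map_zero]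
    exact R.zero_mem
  refine ⟨h4, ?_⟩
  have h5 := h.inv_mem' h3
  rw [H.inv_U _ _ (H.inv_ne w hw), H.inv_U _ _ (H.inv_ne θ hθ), H.inv_inv, H.inv_inv] at h5
  exact h5

/-- The last term of the key identity. -/
theorem last_mem {k f : A} (hf : f ≠ 0) (h1 : k ∉ P) (h2 : H.U k (H.inv f) ∈ P) :
    k + f ≠ 0 ∧ H.U k (H.inv (k + f)) ∈ P := by
  have hk : k ≠ 0 := fun h0 => h1 (h0 ▸ P.zero_mem)
  have e1 : H.U (H.inv k) (k + f) = H.inv k + H.inv (H.U k (H.inv f)) := by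
    have h3 := H.U_self (H.inv k)
    rw [H.inv_inv] at h3
    rw [map_add, H.inv_U k _ hk, H.inv_inv, h3]
  have h20 : H.U k (H.inv f) ≠ 0 := fun h0 => H.inv_ne f hf (H.U_inj hk h0)
  have h3 : H.U (H.inv k) (k + f) ∉ R := by
    rw [e1]
    intro h4
    apply h.inv_notMem h2 h20
    have h5 := R.sub_mem h4 (h.inv_mem h1)
    rwa [add_sub_cancel_left] at h5
  have h4 : k + f ≠ 0 := by
    intro h0
    apply h3
    rw [h0, map_zero]
    exact R.zero_mem
  refine ⟨h4, ?_⟩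
  have h5 := h.inv_mem' h3
  rw [H.inv_U _ _ (H.inv_ne k hk), H.inv_inv] at h5
  exact h5

/-- `U_{θ + y}⁻¹ P = U_y⁻¹ P` if `y` is outside `P` and outside `U_θ R`. -/
theorem N_add' (S : H.Scal K) {θ y : A} (hy : y ∉ P) (hyθ : y ∉ N S R (H.inv θ)) :
    N S P (θ + y) = N S P y := by
  have hy0 : y ≠ 0 := fun h0 => hy (h0 ▸ P.zero_mem)
  by_cases hθ : θ ∈ P
  · rw [add_comm]
    exact h.N_add S hy hθ
  have hθ0 : θ ≠ 0 := fun h0 => hθ (h0 ▸ P.zero_mem)
  have hp := h.refl S hθ0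
  have hθy : θ + y ≠ 0 := by
    intro h0
    apply hyθ
    have h1 : y = -θ := by rw [eq_neg_iff_add_eq_zero, add_comm]; exact h0
    rw [h1, mem_N, map_neg]
    apply R.neg_mem
    have h2 := H.U_self (H.inv θ)
    rw [H.inv_inv] at h2
    rw [h2]
    exact h.inv_mem hθ
  have hc : H.inv θ ∉ N S P θ := by
    rw [mem_N, H.U_self]
    exact hθ
  have hpy : H.inv y ∈ N S P θ := hp.inv_mem hyθ
  have h3 := hp.symm.N_add S hc hpy
  ext x
  have h4 := H.sum θ y x hθ0 hy0 hθy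
  have h5 : H.U y x ∈ N S (N S P θ) (H.inv θ + H.inv y) ↔ H.U y x ∈ N S (N S P θ) (H.inv θ) := by
    rw [h3]
  rw [mem_N, mem_N, mem_N, mem_N, H.U_inv_right θ _ hθ0, ← h4] at h5
  rw [mem_N, mem_N]
  exact h5

end Perf

end Pool.Agent.HuaDom91
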