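import Mathlib
import Pool.Agent.HuaDom91.Key

/-!
Perfect pairs: the parallelogram defect at good elements, for the unit.
-/

set_option autoImplicit false
set_option maxHeartbeats 1000000

namespace Pool.Agent.HuaDom91

open Pool.Agent.HuaTop84 Pool.Agent.HuaVal Pool.Agent.HuaOne84

variable {A : Type} [AddCommGroup A] {K : Type} [Field K] [Module K A] {H : HS A}

/-- The third inverse power of `U_w` -/
theorem pow3 {L : Type} [Field L] [Algebra K L] {φ : L →ₗ[K] A}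
    (hi : ∀ u, H.inv (φ u) = φ u⁻¹) (hU : ∀ u v, H.U (φ u) (φ v) = φ (u * u * v)) (w a : L) :
    H.U (H.inv (φ w)) (H.U (H.inv (φ w)) (H.U (H.inv (φ w)) (φ a))) = φ ((w ^ 6)⁻¹ * a) := by
  rw [hi, hU, hU, hU]
  congr 1
  by_cases hw : w = 0
  · simp [hw]
  field_simp

theorem unit_form [Infinite K] (S : H.Scal K) (h2K : (2 : K) ≠ 0) {P R B T : Submodule K A}
    (h : Perf H P R) (hB : Perf H B T) (hPB : P ≤ B) (hRB : R ≤ B) {θ u : A}
    (hθR : ∀ x ∈ R, H.U θ x ∈ B) (h1 : H.one ∈ B) (hθ0 : θ ≠ 0) (hθ : θ ∈ B)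
    (hθi : H.inv θ ∈ B) (hu : u ∉ B)
    (g0 : ∀ k ∈ B, H.U u (H.U θ (H.U (H.inv u) (H.U (H.inv u) (H.U (H.inv u) k)))) ∈ T)
    (g1 : ∀ k ∈ B, H.U (u - H.one) (H.U θ (H.U (H.inv (u - H.one)) (H.U (H.inv (u - H.one))
      (H.U (H.inv (u - H.one)) k)))) ∈ T)
    (g2 : ∀ k ∈ B, H.U (u + H.one) (H.U θ (H.U (H.inv (u + H.one)) (H.U (H.inv (u + H.one))
      (H.U (H.inv (u + H.one)) k)))) ∈ T) :
    H.U (u + H.one) θ + H.U (u - H.one) θ - (2 : K) • H.U u θ - (2 : K) • θ ∈ P := by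
  have : NeZero (2 : K) := ⟨h2K⟩
  have hTP : T ≤ P := by
    intro t ht
    by_cases ht0 : t = 0
    · rw [ht0]; exact P.zero_mem
    have h3 : H.inv t ∉ B := hB.symm.inv_notMem ht ht0
    have h4 := h.inv_mem' fun h5 => h3 (hRB h5)
    rwa [H.inv_inv] at h4
  have hTB : T ≤ B := hB.dual_le S h1
  obtain ⟨L, _, _, φ, hinj, hone, ⟨d, hd⟩, hi, hU⟩ := H.exists_field S u
  have hu0 : u ≠ 0 := fun h0 => hu (h0 ▸ B.zero_mem)
  -- scalars are different from `d`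
  have hds : ∀ s : K, d - algebraMap K L s ≠ 0 := by
    intro s h0
    apply hu
    have h3 : d = s • (1 : L) := by rw [Algebra.smul_def, mul_one]; exact sub_eq_zero.mp h0
    rw [← hd, h3, map_smul, hone]
    exact B.smul_mem s h1
  have hus : ∀ s : K, u - s • H.one ≠ 0 := by
    intro s h0
    apply hu
    rw [sub_eq_zero.mp h0]
    exact B.smul_mem s h1
  have hd0 : d ≠ 0 := by simpa using hds 0
  have hd1 : d - 1 ≠ 0 := by simpa using hds 1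
  have hd2 : d + 1 ≠ 0 := by
    have h3 := hds (-1)
    rwa [map_neg, map_one, sub_neg_eq_add] at h3
  have hd1' : 1 - d ≠ 0 := fun h0 => hd1 (by rw [← neg_sub, h0, neg_zero])
  have hd2' : 1 + d ≠ 0 := by rwa [add_comm]
  have hdd : 1 - d ^ 2 ≠ 0 := by
    have : 1 - d ^ 2 = (1 - d) * (1 + d) := by ring
    rw [this]
    exact mul_ne_zero hd1' hd2'
  have h2L : (2 : L) ≠ 0 := by
    have h3 : algebraMap K L 2 ≠ 0 := by
      rw [Ne, map_eq_zero]; exact h2K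
    rwa [map_ofNat] at h3
  have hp1 : φ (1 + d) = H.one + u := by rw [map_add, hone, hd]
  have hm1 : φ (1 - d) = H.one - u := by rw [map_sub, hone, hd]
  have hp1' : φ (d + 1) = u + H.one := by rw [map_add, hone, hd]
  have hm1' : φ (d - 1) = u - H.one := by rw [map_sub, hone, hd]
  have hφ0 : ∀ a : L, a ≠ 0 → φ a ≠ 0 := fun a ha h0 => ha (hinj (by rw [h0, map_zero]))
  -- elements of `B`
  have hup : u + H.one ∉ B := fun h0 => hu (by
    have := B.sub_mem h0 h1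
    rwa [add_sub_cancel_right] at this)
  have hum : u - H.one ∉ B := fun h0 => hu (by
    have := B.add_mem h0 h1
    rwa [sub_add_cancel] at this)
  have hum' : H.one - u ∉ B := fun h0 => hum (by
    have := B.neg_mem h0
    rwa [neg_sub] at this)
  have b0 : φ 1 ∈ B := by rw [hone]; exact h1
  have bT : ∀ a : L, φ a ∈ B → φ (d⁻¹ * d⁻¹ * a) ∈ B := by
    intro a ha
    apply hTB
    have h3 : φ (d⁻¹ * d⁻¹ * a) ∈ N S B u := by
      rw [mem_N, ← hd, hU]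
      have e : d * d * (d⁻¹ * d⁻¹ * a) = a := by field_simp
      rw [e]
      exact ha
    exact hB.N_le S hu h3
  have b1 : φ d⁻¹ ∈ B := by
    rw [← hi, hd]
    exact hTB (hB.inv_mem hu)
  have b2 := bT _ b0
  have b3 := bT _ b1
  have b4 := bT _ b2
  have b5 := bT _ b3
  have b6 := bT _ b4
  have bp : φ (1 + d)⁻¹ ∈ B := by
    rw [← hi, hp1, add_comm]
    exact hTB (hB.inv_mem hup)
  have bm : φ (1 - d)⁻¹ ∈ B := by
    rw [← hi, hm1]
    exact hTB (hB.inv_mem hum')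
  have bz : ∀ (n : ℤ) (a : L), φ a ∈ B → φ ((n : L) * a) ∈ B := by
    intro n a ha
    rw [← zsmul_eq_mul, map_zsmul]
    exact zsmul_mem ha n
  have bs : ∀ a b : L, φ a ∈ B → φ b ∈ B → φ (a + b) ∈ B := by
    intro a b ha hb
    rw [map_add]
    exact B.add_mem ha hb
  -- the three parameters
  have k1 : φ ((d - 1) ^ 6 * (d ^ 6 + d ^ 7)⁻¹) ∈ B := by
    have e : (d - 1) ^ 6 * (d ^ 6 + d ^ 7)⁻¹ = ((-63 : ℤ) : L) * d⁻¹ +
        ((57 : ℤ) : L) * (d⁻¹ * d⁻¹ * 1) + ((-42 : ℤ) : L) * (d⁻¹ * d⁻¹ * d⁻¹) +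
        ((22 : ℤ) : L) * (d⁻¹ * d⁻¹ * (d⁻¹ * d⁻¹ * 1)) +
        ((-7 : ℤ) : L) * (d⁻¹ * d⁻¹ * (d⁻¹ * d⁻¹ * d⁻¹)) +
        ((1 : ℤ) : L) * (d⁻¹ * d⁻¹ * (d⁻¹ * d⁻¹ * (d⁻¹ * d⁻¹ * 1))) +
        ((64 : ℤ) : L) * (1 + d)⁻¹ := by
      have e2 : d ^ 6 + d ^ 7 = d ^ 6 * (1 + d) := by ring
      rw [e2]
      push_cast
      field_simp
      ring
    rw [e]
    exact bs _ _ (bs _ _ (bs _ _ (bs _ _ (bs _ _ (bs _ _ (bz _ _ b1) (bz _ _ b2)) (bz _ _ b3))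
      (bz _ _ b4)) (bz _ _ b5)) (bz _ _ b6)) (bz _ _ bp)
  have k2 : φ ((d + 1) ^ 6 * (d ^ 6 - d ^ 7)⁻¹) ∈ B := by
    have e : (d + 1) ^ 6 * (d ^ 6 - d ^ 7)⁻¹ = ((63 : ℤ) : L) * d⁻¹ +
        ((57 : ℤ) : L) * (d⁻¹ * d⁻¹ * 1) + ((42 : ℤ) : L) * (d⁻¹ * d⁻¹ * d⁻¹) +
        ((22 : ℤ) : L) * (d⁻¹ * d⁻¹ * (d⁻¹ * d⁻¹ * 1)) +
        ((7 : ℤ) : L) * (d⁻¹ * d⁻¹ * (d⁻¹ * d⁻¹ * d⁻¹)) +
        ((1 : ℤ) : L) * (d⁻¹ * d⁻¹ * (d⁻¹ * d⁻¹ * (d⁻¹ * d⁻¹ * 1))) +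
        ((64 : ℤ) : L) * (1 - d)⁻¹ := by
      have e2 : d ^ 6 - d ^ 7 = d ^ 6 * (1 - d) := by ring
      rw [e2]
      push_cast
      field_simp
      ring
    rw [e]
    exact bs _ _ (bs _ _ (bs _ _ (bs _ _ (bs _ _ (bs _ _ (bz _ _ b1) (bz _ _ b2)) (bz _ _ b3))
      (bz _ _ b4)) (bz _ _ b5)) (bz _ _ b6)) (bz _ _ bm)
  have k4 : φ (d ^ 2 * (1 - d ^ 2)⁻¹) ∈ B := by
    have e : (2 : L) * (d ^ 2 * (1 - d ^ 2)⁻¹) = ((-2 : ℤ) : L) * 1 +
        ((1 : ℤ) : L) * (1 + d)⁻¹ + ((1 : ℤ) : L) * (1 - d)⁻¹ := by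
      have e2 : 1 - d ^ 2 = (1 - d) * (1 + d) := by ring
      rw [e2]
      push_cast
      field_simp
      ring
    have h3 : φ ((2 : L) * (d ^ 2 * (1 - d ^ 2)⁻¹)) ∈ B := by
      rw [e]
      exact bs _ _ (bs _ _ (bz _ _ b0) (bz _ _ bp)) (bz _ _ bm)
    have e3 : (2 : L) * (d ^ 2 * (1 - d ^ 2)⁻¹) = (2 : K) • (d ^ 2 * (1 - d ^ 2)⁻¹) := by
      rw [Algebra.smul_def, map_ofNat]
    rw [e3, map_smul, B.smul_mem_iff h2K] at h3
    exact h3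
  -- the four conditions
  have c0 : H.U u (H.U θ (H.inv (φ (d ^ 6)))) ∈ P := by
    have h3 := g0 _ b0
    rw [← hd, pow3 hi hU, hd, mul_one, ← hi] at h3
    exact hTP h3
  have c4 : H.U u (H.U θ (φ ((d ^ 4 - d ^ 6)⁻¹))) ∈ P := by
    have h3 := g0 _ k4
    rw [← hd, pow3 hi hU, hd] at h3
    have e : (d ^ 6)⁻¹ * (d ^ 2 * (1 - d ^ 2)⁻¹) = (d ^ 4 - d ^ 6)⁻¹ := by
      have e2 : d ^ 4 - d ^ 6 = d ^ 4 * (1 - d ^ 2) := by ring
      rw [e2]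
      field_simp
    rw [e] at h3
    exact hTP h3
  have n6 : d ^ 6 ≠ 0 := pow_ne_zero _ hd0
  have n1 : d ^ 6 + d ^ 7 ≠ 0 := by
    have e2 : d ^ 6 + d ^ 7 = d ^ 6 * (1 + d) := by ring
    rw [e2]; exact mul_ne_zero n6 hd2'
  have n2 : d ^ 6 - d ^ 7 ≠ 0 := by
    have e2 : d ^ 6 - d ^ 7 = d ^ 6 * (1 - d) := by ring
    rw [e2]; exact mul_ne_zero n6 hd1'
  have n3 : d ^ 6 - d ^ 8 ≠ 0 := by
    have e2 : d ^ 6 - d ^ 8 = d ^ 6 * (1 - d ^ 2) := by ring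
    rw [e2]; exact mul_ne_zero n6 hdd
  have c1 : H.U (H.one - u) (H.U θ (H.inv (φ (d ^ 6 + d ^ 7)))) ∈ P := by
    have h3 := g1 _ k1
    rw [← hm1', pow3 hi hU, hm1'] at h3
    have e : ((d - 1) ^ 6)⁻¹ * ((d - 1) ^ 6 * (d ^ 6 + d ^ 7)⁻¹) = (d ^ 6 + d ^ 7)⁻¹ := by
      rw [← mul_assoc, inv_mul_cancel₀ (pow_ne_zero _ hd1), one_mul]
    rw [e, ← hi] at h3
    rw [← neg_sub u H.one, H.U_neg]
    exact hTP h3
  have c2 : H.U (H.one + u) (H.U θ (H.inv (φ (d ^ 6 - d ^ 7)))) ∈ P := by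
    have h3 := g2 _ k2
    rw [← hp1', pow3 hi hU, hp1'] at h3
    have e : ((d + 1) ^ 6)⁻¹ * ((d + 1) ^ 6 * (d ^ 6 - d ^ 7)⁻¹) = (d ^ 6 - d ^ 7)⁻¹ := by
      rw [← mul_assoc, inv_mul_cancel₀ (pow_ne_zero _ hd2), one_mul]
    rw [e, ← hi] at h3
    rw [add_comm H.one u]
    exact hTP h3
  have q0 : H.U u θ ∉ B := hB.U_notMem S hθ0 hθi hu
  have q1 : H.U (H.one - u) θ ∉ P := fun h0 => hB.U_notMem S hθ0 hθi hum' (hPB h0)
  have q2 : H.U (H.one + u) θ ∉ P := by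
    rw [add_comm]
    exact fun h0 => hB.U_notMem S hθ0 hθi hup (hPB h0)
  have hone_u : H.one - u ≠ 0 := fun h0 => hum' (h0 ▸ B.zero_mem)
  have hone_u' : H.one + u ≠ 0 := by rw [add_comm]; exact fun h0 => hup (h0 ▸ B.zero_mem)
  obtain ⟨m0, x3⟩ := h.term_mem hu0 hθ0 (hφ0 _ n6) (fun h0 => q0 (hPB h0)) c0
  obtain ⟨m1, x1⟩ := h.term_mem hone_u hθ0 (hφ0 _ n1) q1 c1
  obtain ⟨m2, x2⟩ := h.term_mem hone_u' hθ0 (hφ0 _ n2) q2 c2
  -- the element `k`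
  set x := H.U u (H.U θ (H.inv (θ + φ (d ^ 6)))) with hx
  set k := θ + H.U u θ - x with hk
  have hy : H.U u θ ∉ P := fun h0 => q0 (hPB h0)
  have hyθ : H.U u θ ∉ N S R (H.inv θ) := by
    intro h0
    apply q0
    have h3 := hθR _ (mem_N.1 h0)
    rwa [H.U_inv_right θ _ hθ0] at h3
  have hk0 : θ + H.U u θ ∉ B := fun h0 => q0 (by
    have := B.sub_mem h0 hθ
    rwa [add_sub_cancel_left] at this)
  have hkP : k ∉ P := by
    intro h0
    apply hk0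
    have h3 := B.add_mem (hPB h0) (hPB x3)
    rwa [hk, sub_add_cancel] at h3
  have hNk : N S P k = N S P (H.U u θ) := by
    have h3 := h.N_add S (c := θ + H.U u θ) (p := -x) (fun h0 => hk0 (hPB h0)) (P.neg_mem x3)
    rw [← sub_eq_add_neg] at h3
    rw [hk, h3]
    exact h.N_add' S hy hyθ
  have c5 : H.U k (H.inv (φ (d ^ 6 - d ^ 8))) ∈ P := by
    change H.inv (φ (d ^ 6 - d ^ 8)) ∈ N S P k
    rw [hNk, mem_N, H.U_U, hi]
    have e : H.U u (φ (d ^ 6 - d ^ 8)⁻¹) = φ ((d ^ 4 - d ^ 6)⁻¹) := by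
      rw [← hd, hU]
      congr 1
      have e2 : d ^ 4 - d ^ 6 = d ^ 4 * (1 - d ^ 2) := by ring
      have e3 : d ^ 6 - d ^ 8 = d ^ 6 * (1 - d ^ 2) := by ring
      rw [e2, e3]
      field_simp
    rw [e]
    exact c4
  obtain ⟨m3, x4⟩ := h.last_mem (hφ0 _ n3) hkP c5
  -- operators
  have o7 : φ (d ^ 7) = H.U u (H.U u (H.U u u)) := by
    rw [← hd, hU, hU, hU]
    congr 1
    ring
  have o6 : φ (d ^ 6) = H.U u (H.U u (H.U u H.one)) := by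
    rw [← hd, ← hone, hU, hU, hU]
    congr 1
    ring
  have o3 : ∀ a : L, φ (d ^ 6 * a) = H.U u (H.U u (H.U u (φ a))) := by
    intro a
    rw [← hd, hU, hU, hU]
    congr 1
    ring
  have hφe : φ (d ^ 6) + φ (d ^ 7) = φ (d ^ 6 + d ^ 7) := (map_add _ _ _).symm
  have hφe' : φ (d ^ 6) - φ (d ^ 7) = φ (d ^ 6 - d ^ 7) := (map_sub _ _ _).symm
  have cm : ∀ (s t : K) (z : A), H.U (u - s • H.one) (H.U (u - t • H.one) z) =
      H.U (u - t • H.one) (H.U (u - s • H.one) z) := by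
    intro s t z
    exact HS.Am_comm S hus s t z
  have cm1 : ∀ z, H.U u (H.U (H.one - u) z) = H.U (H.one - u) (H.U u z) := by
    intro z
    have h3 := cm 0 1 z
    rw [zero_smul, sub_zero, one_smul, ← neg_sub H.one u, H.U_neg, H.U_neg] at h3
    exact h3
  have cm2 : ∀ z, H.U u (H.U (H.one + u) z) = H.U (H.one + u) (H.U u z) := by
    intro z
    have h3 := cm 0 (-1) z
    rw [zero_smul, sub_zero, neg_smul, one_smul, sub_neg_eq_add, add_comm u] at h3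
    exact h3
  have cm3 : ∀ z, H.U (H.one - u) (H.U (H.one + u) z) = H.U (H.one + u) (H.U (H.one - u) z) := by
    intro z
    have h3 := cm 1 (-1) z
    rw [neg_smul, one_smul, sub_neg_eq_add, add_comm u, ← neg_sub H.one u, H.U_neg,
      H.U_neg] at h3
    exact h3
  have oN : ∀ z, H.U (φ (1 - d ^ 2)) z = H.U (H.one + u) (H.U (H.one - u) z) := by
    have hs : ∀ z, z = H.U (H.one - u) (H.U (H.inv (φ (1 - d ^ 2))) (H.U (H.one + u) z)) := by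
      intro z
      have e1 : H.one - u + (H.one + u) = (2 : K) • H.one := by rw [two_smul]; abel
      have h3 := H.sum (H.one - u) (H.one + u) z hone_u hone_u' (by
        rw [e1]; exact smul_ne_zero h2K H.one_ne)
      have e2 : H.inv (H.one - u) + H.inv (H.one + u) =
          (2 : K) • H.inv (φ (1 - d ^ 2)) := by
        rw [← hm1, ← hp1, hi, hi, hi, ← map_add, ← map_smul]
        congr 1
        rw [Algebra.smul_def, map_ofNat]
        have e3 : 1 - d ^ 2 = (1 - d) * (1 + d) := by ring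
        rw [e3]
        field_simp
        ring
      rw [e1, e2, S.U_smul_left, S.U_smul_left, H.U_one, S.U_smul] at h3
      have h4 : (2 : K) * 2 ≠ 0 := mul_ne_zero h2K h2K
      exact smul_right_injective A h4 h3
    intro z
    have h3 := hs (H.U (H.inv (H.one + u)) (H.U (φ (1 - d ^ 2)) z))
    rw [H.U_inv_right _ _ hone_u', H.U_inv_left _ _ (hφ0 _ hdd)] at h3
    rw [← h3, H.U_inv_right _ _ hone_u']
  have key := key_identity S h2K (θ := θ) (u := u) (f0 := φ (d ^ 6)) (e := φ (d ^ 7))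
    (g := φ (d ^ 8)) (nw := φ (d ^ 6 - d ^ 8)) (k := k)
    (by
      rw [hi, hU]
      congr 1
      field_simp
      )
    (map_sub _ _ _)
    (by
      intro z
      have h3 : z = H.U (φ (d ^ 6)) (H.U (H.inv (φ (d ^ 6))) z) :=
        (H.U_inv_right _ _ (hφ0 _ n6)).symm
      rw [o6] at h3
      rw [o7, o6]
      set w := H.U (H.inv (H.U u (H.U u (H.U u H.one)))) z with hw
      rw [H.U_U, H.U_U, H.U_U, H.U_one] at h3
      rw [H.U_U, H.U_U, H.U_U]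
      conv_rhs => rw [h3])
    (by
      intro z
      rw [hφe]
      have h3 : z = H.U (φ (d ^ 6 + d ^ 7)) (H.U (H.inv (φ (d ^ 6 + d ^ 7))) z) :=
        (H.U_inv_right _ _ (hφ0 _ n1)).symm
      set w := H.U (H.inv (φ (d ^ 6 + d ^ 7))) z with hw
      have e1 : d ^ 6 + d ^ 7 = d ^ 6 * (1 + d) := by ring
      have e2 : d ^ 6 - d ^ 8 = d ^ 6 * (1 - d ^ 2) := by ring
      rw [e1, o3, H.U_U, H.U_U, H.U_U, hp1] at h3
      rw [e2, o3, H.U_U, H.U_U, H.U_U, oN, ← cm3, cm1, cm1, cm1, ← h3])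
    (by
      intro z
      rw [hφe']
      have h3 : z = H.U (φ (d ^ 6 - d ^ 7)) (H.U (H.inv (φ (d ^ 6 - d ^ 7))) z) :=
        (H.U_inv_right _ _ (hφ0 _ n2)).symm
      set w := H.U (H.inv (φ (d ^ 6 - d ^ 7))) z with hw
      have e1 : d ^ 6 - d ^ 7 = d ^ 6 * (1 - d) := by ring
      have e2 : d ^ 6 - d ^ 8 = d ^ 6 * (1 - d ^ 2) := by ring
      rw [e1, o3, H.U_U, H.U_U, H.U_U, hm1] at h3
      rw [e2, o3, H.U_U, H.U_U, H.U_U, oN, cm2, cm2, cm2, ← h3])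
    (by
      rw [hφe, hφe', hi, hi, hi, ← map_add, ← map_smul]
      congr 1
      rw [Algebra.smul_def, map_ofNat]
      have e1 : d ^ 6 + d ^ 7 = d ^ 6 * (1 + d) := by ring
      have e2 : d ^ 6 - d ^ 7 = d ^ 6 * (1 - d) := by ring
      have e3 : d ^ 6 - d ^ 8 = d ^ 6 * ((1 - d) * (1 + d)) := by ring
      rw [e1, e2, e3]
      field_simp
      ring)
    (hφ0 _ n6) (by rw [hφe]; exact hφ0 _ n1) (by rw [hφe']; exact hφ0 _ n2) (hφ0 _ n3) m0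
    (by rw [hφe]; exact m1) (by rw [hφe']; exact m2) hk m3
  rw [hφe, hφe'] at key
  have e9 : H.U (u + H.one) θ + H.U (u - H.one) θ - (2 : K) • H.U u θ - (2 : K) • θ =
      H.U (H.one - u) (H.U θ (H.inv (θ + φ (d ^ 6 + d ^ 7)))) +
      H.U (H.one + u) (H.U θ (H.inv (θ + φ (d ^ 6 - d ^ 7)))) - (2 : K) • x -
      (2 : K) • H.U k (H.inv (k + φ (d ^ 6 - d ^ 8))) := by
    have e10 : H.U (u + H.one) θ + H.U (u - H.one) θ =
        H.U (H.one + u) θ + H.U (H.one - u) θ := by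
      rw [add_comm u, ← neg_sub H.one u, H.U_neg]
    rw [e10, key, hk]
    simp only [smul_sub, smul_add]
    abel
  rw [e9]
  exact P.sub_mem (P.sub_mem (P.add_mem x1 x2) (P.smul_mem _ x3)) (P.smul_mem _ x4)

end Pool.Agent.HuaDom91
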