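import Mathlib
import Pool.Agent.HuaDom91.Unit

/-!
Perfect pairs: change of the unit, and the parallelogram defect at good elements.
-/

set_option autoImplicit false

namespace Pool.Agent.HuaDom91

open Pool.Agent.HuaTop84 Pool.Agent.HuaVal Pool.Agent.HuaOne84

variable {A : Type} [AddCommGroup A] {K : Type} [Field K] [Module K A] {H : HS A}

theorem U_U_inv (H : HS A) {b : A} (hb : b ≠ 0) (c x : A) :
    H.U (H.U b c) (H.U (H.inv b) x) = H.U b (H.U c x) := by
  rw [H.U_U, H.U_inv_right b _ hb]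

/-- Change of the unit. -/
def iso (H : HS A) (b : A) (hb : b ≠ 0) : HS A where
  one := b
  inv := fun x => H.U b (H.inv x)
  U := fun x => (H.U x).comp (H.U (H.inv b))
  one_ne := hb
  inv_zero := by rw [H.inv_zero, map_zero]
  inv_ne := fun x hx h0 => H.inv_ne x hx (H.U_inj hb h0)
  inv_inv := fun x => by
    rw [H.inv_U b _ hb, H.inv_inv, H.U_inv_right b _ hb]
  inv_neg := fun x => by rw [H.inv_neg, map_neg]
  U_zero := by rw [H.U_zero]; rfl
  U_one := fun x => by
    rw [AddMonoidHom.comp_apply, H.U_inv_right b _ hb]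
  U_inv_left := fun w x hw => by
    rw [AddMonoidHom.comp_apply, AddMonoidHom.comp_apply, U_U_inv H hb, H.U_inv_left w _ hw,
      H.U_inv_right b _ hb]
  U_inv_right := fun w x hw => by
    rw [AddMonoidHom.comp_apply, AddMonoidHom.comp_apply, U_U_inv H hb, H.U_inv_left b _ hb,
      H.U_inv_right w _ hw]
  U_self := fun w => by
    rw [AddMonoidHom.comp_apply, H.U_inv_left b _ hb, H.U_self]
  U_U := fun c y x => by
    simp only [AddMonoidHom.comp_apply]
    rw [H.U_U, H.U_U]
  inv_U := fun c x hc => by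
    simp only [AddMonoidHom.comp_apply]
    rw [U_U_inv H hb, H.inv_U c _ hc, H.inv_U _ _ (H.inv_ne b hb), H.inv_inv]
  hua := fun a c ha hc hac => by
    rw [AddMonoidHom.comp_apply, H.U_inv_left b _ hb, H.hua a c ha hc hac, ← map_sub,
      H.inv_U b _ hb, H.U_inv_right b _ hb]
  sum := fun a c x ha hc hac => by
    simp only [AddMonoidHom.comp_apply]
    rw [← map_add, H.sum a c _ ha hc hac, U_U_inv H hb, H.U_inv_left b _ hb]
  diff := fun a c hac => by
    rw [AddMonoidHom.comp_apply, AddMonoidHom.comp_apply, H.U_inv_left b _ hb, H.diff a c hac]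

theorem iso_scal (S : H.Scal K) {b : A} (hb : b ≠ 0) : (iso H b hb).Scal K where
  inv_smul := fun t x ht => by
    change H.U b (H.inv (t • x)) = t⁻¹ • H.U b (H.inv x)
    rw [S.inv_smul t x ht, S.U_smul]
  U_smul := fun a t x => by
    change H.U a (H.U (H.inv b) (t • x)) = t • H.U a (H.U (H.inv b) x)
    rw [S.U_smul, S.U_smul]

theorem Perf.iso (S : H.Scal K) {P R : Submodule K A} (h : Perf H P R) {b : A} (hb : b ≠ 0) :
    Perf (iso H b hb) P (N S R (H.inv b)) where
  ne_bot := h.ne_bot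
  ne_top := h.ne_top
  iff := fun y hy => by
    change _ ↔ H.U b (H.inv y) ∉ N S R (H.inv b)
    rw [mem_N, H.U_inv_left b _ hb]
    exact h.iff y hy

/-- The parallelogram defect at good elements. -/
theorem gen_form [Infinite K] (S : H.Scal K) (h2K : (2 : K) ≠ 0) {P R B T : Submodule K A}
    (h : Perf H P R) (hB : Perf H B T) (hPB : P ≤ B) {e v w : A} (he0 : e ≠ 0) (hv0 : v ≠ 0)
    (heR : ∀ x ∈ R, H.U e x ∈ B) (hθR : ∀ x ∈ R, H.U (H.U e v) x ∈ B) (he : e ∈ B)
    (hθ : H.U e v ∈ B) (hv : H.inv v ∈ B) (hw : w ∉ B) :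
    ∃ E : Finset K, E.card ≤ 18 ∧ ∀ t, t ∉ E →
      H.U (w + t • H.U e v + e) v + H.U (w + t • H.U e v - e) v -
        (2 : K) • H.U (w + t • H.U e v) v - (2 : K) • H.U e v ∈ P := by
  classical
  set θ := H.U e v with hθdef
  have hθ0 : θ ≠ 0 := fun h0 => hv0 (H.U_inj he0 h0)
  have S' := iso_scal S he0
  have h' := h.iso S he0
  have hB' := hB.iso S he0
  have hone : (iso H e he0).one ∈ B := he
  have hwp : w + e ∉ B := hB.add_ne hw he
  have hwm : w - e ∉ B := by rw [sub_eq_add_neg]; exact hB.add_ne hw (B.neg_mem he)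
  obtain ⟨E0, c0, f0⟩ := hB'.good S' h2K hone hθ hθ0 hw
  obtain ⟨E1, c1, f1⟩ := hB'.good S' h2K hone hθ hθ0 hwm
  obtain ⟨E2, c2, f2⟩ := hB'.good S' h2K hone hθ hθ0 hwp
  refine ⟨E0 ∪ E1 ∪ E2, ?_, fun t ht => ?_⟩
  · have := Finset.card_union_le (E0 ∪ E1) E2
    have := Finset.card_union_le E0 E1
    omega
  simp only [Finset.mem_union, not_or] at ht
  obtain ⟨⟨t0, t1⟩, t2⟩ := ht
  have a1 : w - e + t • θ = w + t • θ - (iso H e he0).one := by
    change w - e + t • θ = w + t • θ - e
    abel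
  have a2 : w + e + t • θ = w + t • θ + (iso H e he0).one := by
    change w + e + t • θ = w + t • θ + e
    abel
  have g0 := f0 t t0
  have g1 := f1 t t1
  have g2 := f2 t t2
  rw [a1] at g1
  rw [a2] at g2
  have key := unit_form S' h2K h' hB' hPB (θ := θ) (u := w + t • θ)
    (by
      intro x hx
      have h3 := heR _ (mem_N.1 hx)
      rwa [H.U_inv_right e _ he0] at h3)
    (by
      intro x hx
      change H.U θ (H.U (H.inv e) x) ∈ B
      exact hθR _ (mem_N.1 hx))
    hone hθ0 hθ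
    (by
      change H.U e (H.inv θ) ∈ B
      rw [hθdef, H.inv_U e _ he0, H.U_inv_right e _ he0]
      exact hv)
    (hB.add_ne hw (B.smul_mem t hθ)) g0 g1 g2
  have e1 : ∀ x, (iso H e he0).U x θ = H.U x v := by
    intro x
    change H.U x (H.U (H.inv e) θ) = _
    rw [hθdef, H.U_inv_left e _ he0]
  rw [e1, e1, e1] at key
  exact key

end Pool.Agent.HuaDom91
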