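import Mathlib
import Pool.Agent.HuaDom91.Basic

/-!
The lattice of closed subspaces of a Hua system.
-/

set_option autoImplicit false

namespace Pool.Agent.HuaDom91

open Pool.Agent.HuaTop84 Pool.Agent.HuaVal Pool.Agent.HuaOne84

variable {A : Type} [AddCommGroup A] {K : Type} [Field K] [Module K A]

/-- The dual of a subspace: it is generated by the inverses of the elements outside. -/
def dual (H : HS A) (V : Submodule K A) : Submodule K A :=
  Submodule.span K {z | ∃ y, y ∉ V ∧ H.inv y = z}

variable {H : HS A}

theorem inv_mem_dual {V : Submodule K A} {y : A} (hy : y ∉ V) : H.inv y ∈ dual H V :=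
  Submodule.subset_span ⟨y, hy, rfl⟩

theorem mem_dual_inv {V : Submodule K A} {y : A} (hy : H.inv y ∉ V) : y ∈ dual H V := by
  have h := inv_mem_dual (H := H) hy
  rwa [H.inv_inv] at h

theorem dual_le_iff {V W : Submodule K A} : dual H V ≤ W ↔ ∀ y, y ∉ V → H.inv y ∈ W := by
  constructor
  · intro h y hy
    exact h (inv_mem_dual hy)
  · intro h
    apply Submodule.span_le.2
    rintro _ ⟨y, hy, rfl⟩
    exact h y hy

theorem dual_anti {V W : Submodule K A} (h : V ≤ W) : dual H W ≤ dual H V := by
  rw [dual_le_iff]
  intro y hy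
  exact inv_mem_dual fun h0 => hy (h h0)

theorem dual_symm {V W : Submodule K A} (h : dual H V ≤ W) : dual H W ≤ V := by
  rw [dual_le_iff]
  intro y hy
  by_contra hcon
  apply hy
  have h1 := h (inv_mem_dual hcon)
  rwa [H.inv_inv] at h1

theorem dual_dual_le (V : Submodule K A) : dual H (dual H V) ≤ V := dual_symm le_rfl

/-- Closed subspaces -/
def IsCl (H : HS A) (V : Submodule K A) : Prop := dual H (dual H V) = V

theorem isCl_of_le {V : Submodule K A} (h : V ≤ dual H (dual H V)) : IsCl H V :=
  le_antisymm (dual_dual_le V) h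

theorem isCl_dual (V : Submodule K A) : IsCl H (dual H V) :=
  isCl_of_le (dual_anti (dual_dual_le V))

theorem IsCl.sup {V W : Submodule K A} (hV : IsCl H V) (hW : IsCl H W) : IsCl H (V ⊔ W) := by
  apply isCl_of_le
  apply sup_le
  · calc V = dual H (dual H V) := hV.symm
      _ ≤ _ := dual_anti (dual_anti le_sup_left)
  · calc W = dual H (dual H W) := hW.symm
      _ ≤ _ := dual_anti (dual_anti le_sup_right)

theorem isCl_sSup {s : Set (Submodule K A)} (h : ∀ V ∈ s, IsCl H V) : IsCl H (sSup s) := by
  apply isCl_of_le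
  apply sSup_le
  intro V hV
  calc V = dual H (dual H V) := (h V hV).symm
    _ ≤ _ := dual_anti (dual_anti (le_sSup hV))

/-- For closed subspaces the duality is an order reversing involution. -/
theorem le_dual_iff {V W : Submodule K A} (hV : IsCl H V) (hW : IsCl H W) :
    V ≤ dual H W ↔ W ≤ dual H V := by
  constructor
  · intro h
    calc W = dual H (dual H W) := hW.symm
      _ ≤ _ := dual_anti h
  · intro h
    calc V = dual H (dual H V) := hV.symm
      _ ≤ _ := dual_anti h

theorem dual_bot : dual H (⊥ : Submodule K A) = ⊤ := by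
  rw [eq_top_iff]
  intro x _
  by_cases hx : x = 0
  · rw [hx]; exact Submodule.zero_mem _
  · apply mem_dual_inv
    rw [Submodule.mem_bot]
    exact H.inv_ne x hx

theorem dual_top : dual H (⊤ : Submodule K A) = ⊥ := by
  rw [eq_bot_iff, dual_le_iff]
  intro y hy
  exact absurd Submodule.mem_top hy

section

variable (S : H.Scal K)

/-- The dual of a translate. -/
theorem dual_N {V : Submodule K A} {c : A} (hc : c ≠ 0) :
    dual H (N S V c) = N S (dual H V) (H.inv c) := by
  have hic := H.inv_ne c hc
  apply le_antisymm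
  · rw [dual_le_iff]
    intro y hy
    rw [mem_N] at hy ⊢
    have h1 := inv_mem_dual (H := H) hy
    rw [H.inv_U c y hc] at h1
    exact h1
  · intro x hx
    rw [mem_N] at hx
    -- linear in the image
    have h1 : ∀ z ∈ dual H V, H.U c z ∈ dual H (N S V c) := by
      intro z hz
      have h2 : dual H V ≤ (dual H (N S V c)).comap (lin S c) := by
        rw [dual_le_iff]
        intro y hy
        change H.U c (H.inv y) ∈ dual H (N S V c)
        have h3 : H.inv (H.U (H.inv c) y) ∈ dual H (N S V c) := by
          apply inv_mem_dual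
          rw [mem_N, H.U_inv_right c _ hc]
          exact hy
        rwa [H.inv_U _ _ hic, H.inv_inv] at h3
      exact h2 hz
    have h4 := h1 _ hx
    rwa [H.U_inv_right c _ hc] at h4

theorem IsCl.trans {V : Submodule K A} (hV : IsCl H V) {c : A} (hc : c ≠ 0) :
    IsCl H (N S V c) := by
  unfold IsCl
  rw [dual_N S hc, dual_N S (H.inv_ne c hc), H.inv_inv, hV]

include S in
/-- `U_a⁻¹ V` is contained in the dual of `V` for `a ∉ V`. -/
theorem IsCl.shrink {V : Submodule K A} (hV : IsCl H V) {a : A} (ha : a ∉ V) {x : A}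
    (hx : x ∈ V) : H.U (H.inv a) x ∈ dual H V := by
  have ha0 : a ≠ 0 := fun h0 => ha (h0 ▸ V.zero_mem)
  have h1 : dual H (dual H V) ≤ N S (dual H V) (H.inv a) := by
    rw [dual_le_iff]
    intro y hy
    rw [mem_N]
    have hia : H.inv a ∈ dual H V := inv_mem_dual ha
    have hy' : y - H.inv a ∉ dual H V := by
      intro h0
      apply hy
      have := (dual H V).add_mem h0 hia
      rwa [sub_add_cancel] at this
    have hq : H.inv (y - H.inv a) ∈ V := by
      have := inv_mem_dual (H := H) hy'
      rwa [hV] at this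
    have hq0 : y - H.inv a ≠ 0 := fun h0 => hy' (h0 ▸ Submodule.zero_mem _)
    set q := H.inv (y - H.inv a) with hqdef
    have hq0' : q ≠ 0 := H.inv_ne _ hq0
    have haq : a + q ∉ V := by
      intro h0
      apply ha
      have := V.sub_mem h0 hq
      rwa [add_sub_cancel_right] at this
    have haq0 : a + q ≠ 0 := fun h0 => haq (h0 ▸ V.zero_mem)
    have h2 := H.inv_add a q ha0 hq0' haq0
    have h3 : H.inv a + H.inv q = y := by
      rw [hqdef, H.inv_inv]; abel
    rw [h3] at h2
    have h4 : H.U (H.inv a) (H.inv y) = H.inv a - H.inv (a + q) := by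
      rw [h2]; abel
    rw [h4]
    exact (dual H V).sub_mem hia (inv_mem_dual haq)
  have h5 : x ∈ dual H (dual H V) := hV.symm ▸ hx
  exact h1 h5

include S in
/-- The strong elements. -/
theorem IsCl.expand {V : Submodule K A} (hV : IsCl H V) {a : A} (ha : H.inv a ∉ dual H V) {x : A}
    (hx : x ∈ dual H V) : H.U a x ∈ V := by
  have h := (isCl_dual (H := H) V).shrink S ha hx
  rw [H.inv_inv, hV] at h
  exact h

end

end Pool.Agent.HuaDom91
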