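import Mathlib
import Pool.Agent.HuaDom91.Basic
import Pool.Agent.HuaDom91.Iso
import Pool.Agent.HuaDom91.Gam
import Pool.Agent.HuaDom91.Lat
import Pool.Agent.HuaDom91.FieldP
import Pool.Agent.HuaDom91.FieldQ
import Pool.Agent.HuaDom91.FieldD
import Pool.Agent.HuaOne84.Frac

/-!
Almost prime subspaces of a Hua system which do not contain the unit.
-/

set_option autoImplicit false

namespace Pool.Agent.HuaDom91

open Pool.Agent.HuaTop84 Pool.Agent.HuaVal Pool.Agent.HuaOne84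

variable {A : Type} [AddCommGroup A] {K : Type} [Field K] [Module K A]

/-- Almost prime subspaces. -/
structure P1 (H : HS A) (L : Submodule K A) : Prop where
  p1 : ∀ x, x ∉ L → H.U x H.one ∉ L → ∀ g ∈ L, H.U (H.inv x) g ∈ L

/-- Units: the operator preserves the subspace. -/
structure Uni (H : HS A) (L : Submodule K A) (w : A) : Prop where
  ne : w ≠ 0
  iff : ∀ x, x ∈ L ↔ H.U w x ∈ L

variable {H : HS A} {L : Submodule K A}

theorem Uni.inv {w : A} (h : Uni H L w) : Uni H L (H.inv w) where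
  ne := H.inv_ne w h.ne
  iff := fun x => by
    rw [h.iff (H.U (H.inv w) x), H.U_inv_right w x h.ne]

theorem Uni.smul (S : H.Scal K) {w : A} (h : Uni H L w) {c : K} (hc : c ≠ 0) :
    Uni H L (c • w) where
  ne := smul_ne_zero hc h.ne
  iff := fun x => by
    rw [S.U_smul_left, L.smul_mem_iff (mul_ne_zero hc hc)]
    exact h.iff x

theorem uni_iso {u w : A} (hu : Uni H L u) : Uni (iso H u hu.ne) L w ↔ Uni H L w := by
  constructor
  · intro h
    refine ⟨h.ne, fun x => ?_⟩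
    have h1 := h.iff (H.U u x)
    change _ ↔ H.U w (H.U (H.inv u) (H.U u x)) ∈ L at h1
    rw [H.U_inv_left u x hu.ne] at h1
    rw [← h1]
    exact hu.iff x
  · intro h
    refine ⟨h.ne, fun x => ?_⟩
    change _ ↔ H.U w (H.U (H.inv u) x) ∈ L
    rw [← h.iff]
    exact hu.inv.iff x

/-- A unit is given by the conditions for `x`, `x²`, and the inverses. -/
theorem P1.uni (h : P1 H L) {w : A} (h1 : w ∉ L) (h2 : H.U w H.one ∉ L) (h3 : H.inv w ∉ L)
    (h4 : H.U (H.inv w) H.one ∉ L) : Uni H L w := by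
  have hw : w ≠ 0 := fun h0 => h1 (h0 ▸ L.zero_mem)
  refine ⟨hw, fun x => ⟨fun hx => ?_, fun hx => ?_⟩⟩
  · have := h.p1 _ h3 h4 x hx
    rwa [H.inv_inv] at this
  · have := h.p1 _ h1 h2 _ hx
    rwa [H.U_inv_left w x hw] at this

/-- The trace on a two point field. -/
theorem P1.trace (h : P1 H L) {F : Type} [Field F] [Algebra K F] {φ : F →ₗ[K] A}
    (h1 : φ 1 = H.one) (hinv : ∀ u, H.inv (φ u) = φ u⁻¹)
    (hU : ∀ u v, H.U (φ u) (φ v) = φ (u * u * v)) : FP (L.comap φ) where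
  p1 := fun x hx hxx g hg => by
    change φ _ ∈ L
    rw [← hU, ← hinv]
    apply h.p1 _ hx _ _ hg
    rw [← h1, hU, mul_one]
    exact hxx

theorem P1.uni_of_un (h : P1 H L) {F : Type} [Field F] [Algebra K F] {φ : F →ₗ[K] A}
    (h1 : φ 1 = H.one) (hinv : ∀ u, H.inv (φ u) = φ u⁻¹)
    (hU : ∀ u v, H.U (φ u) (φ v) = φ (u * u * v)) {x : F} (hx : Un (L.comap φ) x) :
    Uni H L (φ x) := by
  obtain ⟨k1, k2, k3, k4⟩ := hx
  apply h.uni
  · exact k1
  · rw [← h1, hU, mul_one]; exact k2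
  · rw [hinv]; exact k3
  · rw [hinv, ← h1, hU, mul_one]; exact k4

section

variable [Infinite K] (S : H.Scal K) (h2 : (2 : K) ≠ 0) (h : P1 H L) (hone : H.one ∉ L)

include S h2 h hone

/-- For elements of `L`. -/
theorem P1.mem_L {l : A} (hl : l ∈ L) : H.U l H.one ∈ L ∧
    (∀ s : K, Uni H L (H.one + s • l)) ∧ ∀ s : K, H.inv (H.one + s • l) - H.one ∈ L := by
  have : NeZero (2 : K) := ⟨h2⟩
  obtain ⟨F, iF, iA, φ, hinj, e1, ⟨x, hx⟩, hinv, hU⟩ := HS.exists_field S l
  have hF := h.trace e1 hinv hU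
  have h1 : (1 : F) ∉ L.comap φ := by
    change φ 1 ∉ L
    rw [e1]; exact hone
  have hxL : x ∈ L.comap φ := by
    change φ x ∈ L
    rw [hx]; exact hl
  obtain ⟨k1, k2⟩ := hF.A_main h1 h2 hxL
  have e2 : ∀ s : K, φ (1 + algebraMap K F s * x) = H.one + s • l := by
    intro s
    rw [← Algebra.smul_def, map_add, map_smul, e1, hx]
  refine ⟨?_, fun s => ?_, fun s => ?_⟩
  · rw [← hx, ← e1, hU, mul_one]
    exact k1
  · rw [← e2]
    exact h.uni_of_un e1 hinv hU (hF.A_un h1 h2 hxL s)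
  · rw [← e2, hinv, ← e1, ← map_sub]
    exact k2 s

/-- For elements outside `L` with square in `L`. -/
theorem P1.bad {z : A} (hz : z ∉ L) (hz2 : H.U z H.one ∈ L) (s : K) :
    Uni H L (H.one + s • z) := by
  have : NeZero (2 : K) := ⟨h2⟩
  obtain ⟨F, iF, iA, φ, hinj, e1, ⟨x, hx⟩, hinv, hU⟩ := HS.exists_field S z
  have hF := h.trace e1 hinv hU
  have h1 : (1 : F) ∉ L.comap φ := by
    change φ 1 ∉ L
    rw [e1]; exact hone
  have e2 : φ (1 + algebraMap K F s * x) = H.one + s • z := by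
    rw [← Algebra.smul_def, map_add, map_smul, e1, hx]
  rw [← e2]
  apply h.uni_of_un e1 hinv hU (hF.B_un h1 h2 _ _ s)
  · change φ x ∉ L
    rw [hx]; exact hz
  · change φ (x * x) ∈ L
    rw [← mul_one (x * x), ← hU, e1, hx]
    exact hz2

/-- For elements outside `L` with square outside `L`. -/
theorem P1.out {y : A} (hy : y ∉ L) (hy2 : H.U y H.one ∉ L) :
    ∃ E : Finset K, ∀ s, s ∉ E → Uni H L (H.one + s • H.inv y) := by
  have : NeZero (2 : K) := ⟨h2⟩
  obtain ⟨F, iF, iA, φ, hinj, e1, ⟨x, hx⟩, hinv, hU⟩ := HS.exists_field S y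
  have hF := h.trace e1 hinv hU
  have h1 : (1 : F) ∉ L.comap φ := by
    change φ 1 ∉ L
    rw [e1]; exact hone
  have e2 : ∀ s : K, φ (1 + algebraMap K F s * x⁻¹) = H.one + s • H.inv y := by
    intro s
    rw [← Algebra.smul_def, map_add, map_smul, e1, ← hinv, hx]
  obtain ⟨E, hE⟩ := hF.C_un h1 h2 (y := x) (by
      change φ x ∉ L
      rw [hx]; exact hy) (by
      change φ (x * x) ∉ L
      rw [← mul_one (x * x), ← hU, e1, hx]
      exact hy2)
  refine ⟨E, fun s hs => ?_⟩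
  rw [← e2]
  exact h.uni_of_un e1 hinv hU (hE s hs)

end

/-- The square of `1 + s y`. -/
theorem sq_add [Infinite K] (S : H.Scal K) (h2 : (2 : K) ≠ 0) (y : A) (s : K) :
    H.U (H.one + s • y) H.one = H.one + (2 * s) • y + (s * s) • H.U y H.one := by
  have : NeZero (2 : K) := ⟨h2⟩
  obtain ⟨F, iF, iA, φ, hinj, e1, ⟨x, hx⟩, hinv, hU⟩ := HS.exists_field S y
  have e2 : φ (1 + algebraMap K F s * x) = H.one + s • y := by
    rw [← Algebra.smul_def, map_add, map_smul, e1, hx]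
  rw [← e2, ← e1, hU, ← hx, hU, ← map_smul, ← map_smul, ← map_add, ← map_add]
  congr 1
  rw [Algebra.smul_def, Algebra.smul_def]
  simp only [map_mul, map_ofNat]
  ring

end Pool.Agent.HuaDom91
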