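import Mathlib
import Pool.Agent.HuaDom91.Case1

/-!
Almost prime subspaces of a Hua system which do not contain the unit: perfect pairs.
-/

set_option autoImplicit false

namespace Pool.Agent.HuaDom91

open Pool.Agent.HuaTop84 Pool.Agent.HuaVal Pool.Agent.HuaOne84

variable {A : Type} [AddCommGroup A] {K : Type} [Field K] [Module K A]

/-- The stabiliser of a subspace in the group of permutations of the projective line. -/
def Stb (L : Submodule K A) : Subgroup (Equiv.Perm (Option A)) where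
  carrier := {g | ∀ x, x ∈ some '' (L : Set A) ↔ g x ∈ some '' (L : Set A)}
  one_mem' := fun x => Iff.rfl
  mul_mem' := by
    intro f g hf hg x
    rw [Equiv.Perm.mul_apply, ← hf, ← hg]
  inv_mem' := by
    intro g hg x
    have h := hg (g⁻¹ x)
    have h1 : g (g⁻¹ x) = x := g.apply_symm_apply x
    rw [h1] at h
    exact h.symm

theorem mem_Stb {L : Submodule K A} {g : Equiv.Perm (Option A)} :
    g ∈ Stb L ↔ ∀ x, x ∈ some '' (L : Set A) ↔ g x ∈ some '' (L : Set A) := Iff.rfl

theorem some_mem {L : Submodule K A} {x : A} : some x ∈ some '' (L : Set A) ↔ x ∈ L := by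
  constructor
  · rintro ⟨y, hy, h⟩
    rw [Option.some_inj] at h
    rw [← h]; exact hy
  · intro h
    exact ⟨x, h, rfl⟩

theorem none_mem {L : Submodule K A} : (none : Option A) ∉ some '' (L : Set A) := by
  rintro ⟨y, _, h⟩
  exact absurd h (by simp)

theorem lp_mem_Stb {L : Submodule K A} {φ : A ≃+ A} (h : ∀ x, x ∈ L ↔ φ x ∈ L) :
    lp φ ∈ Stb L := by
  rw [mem_Stb]
  intro x
  rcases x with _ | x
  · rw [lp_none]
  · rw [lp_some, some_mem, some_mem]
    exact h x

theorem Stb_conj {L : Submodule K A} {c : K} (hc : c ≠ 0) {g : Equiv.Perm (Option A)}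
    (hg : g ∈ Stb L) : lp (dl (A := A) c hc) * g * (lp (dl c hc))⁻¹ ∈ Stb L := by
  have h1 : lp (dl (A := A) c hc) ∈ Stb L :=
    lp_mem_Stb fun x => (L.smul_mem_iff hc).symm
  exact (Stb L).mul_mem ((Stb L).mul_mem h1 hg) ((Stb L).inv_mem h1)

variable {H : HS A} {L : Submodule K A}

/-- The subspace of the elements whose quasi-translations stabilise `L`. -/
noncomputable def RL (S : H.Scal K) (L : Submodule K A) : Submodule K A where
  carrier := {a | qt H a ∈ Stb L}
  zero_mem' := by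
    change qt H 0 ∈ Stb L
    rw [qt_zero]
    exact Subgroup.one_mem _
  add_mem' := by
    intro a b ha hb
    change qt H (a + b) ∈ Stb L
    rw [qt_add]
    exact Subgroup.mul_mem _ ha hb
  smul_mem' := by
    intro c a ha
    change qt H (c • a) ∈ Stb L
    by_cases hc : c = 0
    · rw [hc, zero_smul, qt_zero]
      exact Subgroup.one_mem _
    · have h := dl_qt S c⁻¹ (inv_ne_zero hc) a
      rw [_root_.inv_inv] at h
      rw [← h]
      exact Stb_conj (inv_ne_zero hc) ha

theorem mem_RL {S : H.Scal K} {a : A} : a ∈ RL S L ↔ qt H a ∈ Stb L := Iff.rfl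

theorem qt_none {r : A} (hr : r ≠ 0) : qt H r none = some (H.inv r) := by
  unfold qt
  rw [Equiv.Perm.mul_apply, Equiv.Perm.mul_apply, iv_none, tr_some, zero_add, iv_some H hr]

/-- Inverses of elements of `RL` are outside `L`. -/
theorem RL_inv {S : H.Scal K} {r : A} (hr : r ∈ RL S L) (hr0 : r ≠ 0) : H.inv r ∉ L := by
  intro h
  have h1 := mem_Stb.1 (mem_RL.1 hr) none
  rw [qt_none hr0, some_mem] at h1
  exact none_mem (h1.2 h)

theorem RL_le_dual (S : H.Scal K) (L : Submodule K A) : RL S L ≤ dual H L := by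
  intro r hr
  by_cases hr0 : r = 0
  · rw [hr0]; exact Submodule.zero_mem _
  · exact mem_dual_inv (RL_inv hr hr0)

/-- Units act. -/
theorem RL_U {S : H.Scal K} {w a : A} (hw : Uni H L w) (ha : a ∈ RL S L) :
    H.U w a ∈ RL S L := by
  have h1 := lp_qt H (H.inv_ne w hw.ne) a
  rw [H.inv_inv] at h1
  have h2 : lp (nU H (H.inv_ne w hw.ne)) ∈ Stb L := by
    apply lp_mem_Stb
    intro x
    rw [nU_apply, L.neg_mem_iff]
    exact hw.inv.iff x
  have h3 : qt H (-H.U w a) ∈ Stb L := by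
    rw [← (Stb L).mul_mem_cancel_right h2, ← h1]
    exact (Stb L).mul_mem h2 ha
  have h4 : -H.U w a ∈ RL S L := h3
  rwa [Submodule.neg_mem_iff] at h4

theorem mem_RL_of {S : H.Scal K} {r : A} (h1 : ∀ l ∈ L, qt H r (some l) ∈ some '' (L : Set A))
    (h2 : ∀ l ∈ L, qt H (-r) (some l) ∈ some '' (L : Set A)) : r ∈ RL S L := by
  rw [mem_RL, mem_Stb]
  intro x
  constructor
  · rintro ⟨l, hl, rfl⟩
    exact h1 l hl
  · rintro ⟨l, hl, h3⟩
    have h4 := h2 l hl
    rw [h3, qt_neg] at h4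
    have h5 : (qt H r)⁻¹ (qt H r x) = x := (qt H r).symm_apply_apply x
    rw [h5] at h4
    exact h4

section

variable [Infinite K] (S : H.Scal K) (h2 : (2 : K) ≠ 0) (h : P1 H L) (hone : H.one ∉ L)

include S h2 h hone

theorem P1.qt_one {s : K} (hs0 : s ≠ 0) {l : A} (hl : l ∈ L) :
    qt H (s • H.one) (some l) ∈ some '' (L : Set A) := by
  by_cases hl0 : l = 0
  · subst hl0
    unfold qt
    rw [Equiv.Perm.mul_apply, Equiv.Perm.mul_apply, iv_zero, tr_none, iv_none, some_mem]
    exact L.zero_mem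
  obtain ⟨-, k1, k2⟩ := h.mem_L S h2 hone hl
  have hne : H.inv l + s • H.one ≠ 0 := by
    intro h0
    apply hone
    have h3 : H.inv l = H.inv (-(s⁻¹ • H.one)) := by
      rw [H.inv_neg, S.inv_smul _ _ (inv_ne_zero hs0), H.inv_one, _root_.inv_inv]
      exact eq_neg_of_add_eq_zero_left h0
    have h4 := inv_inj h3
    rw [h4, L.neg_mem_iff, L.smul_mem_iff (inv_ne_zero hs0)] at hl
    exact hl
  unfold qt
  rw [Equiv.Perm.mul_apply, Equiv.Perm.mul_apply, iv_some H hl0, tr_some, iv_some H hne, some_mem]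
  -- `(l⁻¹ + s)⁻¹ = s⁻¹ (1 - (1 + s l)⁻¹)`
  have h3 := H.inv_add H.one (s • l) H.one_ne (smul_ne_zero hs0 hl0) (k1 s).ne
  rw [H.inv_one, H.U_one, S.inv_smul s l hs0] at h3
  have h4 : H.one + s⁻¹ • H.inv l = s⁻¹ • (H.inv l + s • H.one) := by
    rw [smul_add, smul_smul, inv_mul_cancel₀ hs0, one_smul, add_comm]
  rw [h4, S.inv_smul _ _ (inv_ne_zero hs0), _root_.inv_inv] at h3
  have h5 := k2 s
  rw [h3, sub_sub_cancel_left, L.neg_mem_iff, L.smul_mem_iff hs0] at h5
  exact h5

theorem P1.one_mem : H.one ∈ RL S L := by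
  apply mem_RL_of
  · intro l hl
    have := h.qt_one S h2 hone (s := 1) one_ne_zero hl
    rwa [one_smul] at this
  · intro l hl
    have := h.qt_one S h2 hone (s := -1) (neg_ne_zero.mpr one_ne_zero) hl
    rwa [neg_smul, one_smul] at this

theorem P1.sq_mem {w : A} (hw : Uni H L w) : H.U w H.one ∈ RL S L :=
  RL_U hw (h.one_mem S h2 hone)

omit h hone in
/-- If the squares of two `1 + s y` are in a subspace containing `1`, then so is `y`. -/
theorem sq_two {V : Submodule K A} (h1 : H.one ∈ V) {y : A} {s r : K} (hs : s ≠ 0) (hr : r ≠ 0)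
    (hrs : r ≠ s) (k1 : H.U (H.one + s • y) H.one ∈ V) (k2 : H.U (H.one + r • y) H.one ∈ V) :
    y ∈ V := by
  rw [sq_add S h2] at k1 k2
  have k3 := V.sub_mem (V.sub_mem (V.smul_mem (r * r) k1) (V.smul_mem (s * s) k2))
    (V.smul_mem (r * r - s * s) h1)
  have e : (r * r) • (H.one + (2 * s) • y + (s * s) • H.U y H.one) -
      (s * s) • (H.one + (2 * r) • y + (r * r) • H.U y H.one) - (r * r - s * s) • H.one =
      (2 * r * s * (r - s)) • y := by
    simp only [smul_add, smul_smul, sub_smul, mul_sub]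
    have e1 : r * r * (s * s) = s * s * (r * r) := by ring
    have e2 : r * r * (2 * s) = 2 * r * s * r := by ring
    have e3 : s * s * (2 * r) = 2 * r * s * s := by ring
    rw [e1, e2, e3]
    abel
  rw [e, V.smul_mem_iff (mul_ne_zero (mul_ne_zero (mul_ne_zero h2 hr) hs)
    (sub_ne_zero.mpr hrs))] at k3
  exact k3

/-- `L` is contained in `RL`. -/
theorem P1.le_RL : L ≤ RL S L := by
  classical
  intro l hl
  obtain ⟨-, k1, -⟩ := h.mem_L S h2 hone hl
  obtain ⟨s, hs⟩ := Infinite.exists_notMem_finset ({0} : Finset K)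
  obtain ⟨r, hr⟩ := Infinite.exists_notMem_finset ({0, s} : Finset K)
  simp only [Finset.mem_insert, Finset.mem_singleton, not_or] at hs hr
  exact sq_two S h2 (h.one_mem S h2 hone) hs hr.1 hr.2 (h.sq_mem S h2 hone (k1 s))
    (h.sq_mem S h2 hone (k1 r))

theorem P1.inv_mem_RL {y : A} (hy : y ∉ L) (hy2 : H.U y H.one ∉ L) : H.inv y ∈ RL S L := by
  classical
  obtain ⟨E, hE⟩ := h.out S h2 hone hy hy2
  obtain ⟨s, hs⟩ := Infinite.exists_notMem_finset (E ∪ {0})
  obtain ⟨r, hr⟩ := Infinite.exists_notMem_finset (E ∪ {0, s})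
  simp only [Finset.mem_union, Finset.mem_insert, Finset.mem_singleton, not_or] at hs hr
  exact sq_two S h2 (h.one_mem S h2 hone) hs.2 hr.2.1 hr.2.2
    (h.sq_mem S h2 hone (hE s hs.1)) (h.sq_mem S h2 hone (hE r hr.1))

omit S h2 [Infinite K] in
/-- Elements outside `L` with square in `L`. -/
theorem P1.bad_iff {y : A} (hy : y ∉ L) :
    H.U y H.one ∈ L ↔ ¬ ∀ g ∈ L, H.U (H.inv y) g ∈ L := by
  have hy0 : y ≠ 0 := fun h0 => hy (h0 ▸ L.zero_mem)
  constructor
  · intro h3 h4
    have h5 := h4 _ h3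
    rw [H.U_inv_left y _ hy0] at h5
    exact hone h5
  · intro h3
    by_contra h4
    exact h3 (h.p1 y hy h4)

omit S h2 [Infinite K] in
theorem P1.bad_U {y w : A} (hy : y ∉ L) (hy2 : H.U y H.one ∈ L) (hw : Uni H L w) :
    H.U y (H.U w H.one) ∈ L := by
  have hy0 : y ≠ 0 := fun h0 => hy (h0 ▸ L.zero_mem)
  -- `U_w y` is bad
  have h1 : H.U w y ∉ L := fun h0 => hy ((hw.iff y).2 h0)
  have h3 : H.U (H.U w y) H.one ∈ L := by
    rw [h.bad_iff hone h1]
    intro h4
    rw [h.bad_iff hone hy] at hy2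
    apply hy2
    intro g hg
    have h5 := h4 _ ((hw.iff g).1 hg)
    rw [H.inv_U w y hw.ne, H.U_U, H.U_inv_left w _ hw.ne] at h5
    exact (hw.inv.iff _).2 h5
  rw [H.U_U] at h3
  exact (hw.iff _).2 h3

end

end Pool.Agent.HuaDom91
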