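import Mathlib
import Pool.Agent.HuaDom91.Case2

/-!
Almost prime subspaces of a Hua system which do not contain the unit: perfect pairs.
-/

set_option autoImplicit false

namespace Pool.Agent.HuaDom91

open Pool.Agent.HuaTop84 Pool.Agent.HuaVal Pool.Agent.HuaOne84

variable {A : Type} [AddCommGroup A] {K : Type} [Field K] [Module K A]
variable {H : HS A} {L : Submodule K A}

section

variable [Infinite K] (S : H.Scal K) (h2 : (2 : K) ≠ 0) (h : P1 H L) (hone : H.one ∉ L)

include S h2 h hone

/-- Units are not in `L`. -/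
theorem P1.uni_notMem {u : A} (hu : Uni H L u) : u ∉ L ∧ H.U u H.one ∉ L := by
  have h1 : H.U u H.one ∉ L := fun h0 => hone ((hu.iff _).2 h0)
  refine ⟨fun h0 => h1 ?_, h1⟩
  exact (h.mem_L S h2 hone h0).1

theorem P1.bad_inv {y u : A} (hy : y ∉ L) (hy2 : H.U y H.one ∈ L) (hu : Uni H L u) :
    H.U y (H.inv u) ∈ L := by
  classical
  obtain ⟨k1, k2⟩ := h.uni_notMem S h2 hone hu
  obtain ⟨E, hE⟩ := h.out S h2 hone k1 k2
  obtain ⟨s, hs⟩ := Infinite.exists_notMem_finset (E ∪ {0})
  obtain ⟨r, hr⟩ := Infinite.exists_notMem_finset (E ∪ {0, s})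
  simp only [Finset.mem_union, Finset.mem_insert, Finset.mem_singleton, not_or] at hs hr
  exact sq_two (V := L.comap (lin S y)) S h2 hy2 hs.2 hr.2.1 hr.2.2
    (h.bad_U hone hy hy2 (hE s hs.1)) (h.bad_U hone hy hy2 (hE r hr.1))

/-- Change of the unit. -/
theorem P1.iso {u : A} (hu : Uni H L u) : P1 (iso H u hu.ne) L where
  p1 := fun x hx hx2 g hg => by
    change H.U (H.U u (H.inv x)) (H.U (H.inv u) g) ∈ L
    have hx2' : H.U x (H.inv u) ∉ L := by
      intro h0
      apply hx2
      change H.U x (H.U (H.inv u) u) ∈ L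
      have h3 := H.U_self (H.inv u)
      rw [H.inv_inv] at h3
      rw [h3]
      exact h0
    rw [U_U_inv H hu.ne, ← hu.iff]
    by_contra h4
    apply hx2'
    apply h.bad_inv S h2 hone hx _ hu
    rw [h.bad_iff hone hx]
    intro h5
    exact h4 (h5 g hg)

theorem P1.add_uni {u v : A} (hu : Uni H L u) (hv : v ∈ L ∨ (v ∉ L ∧ H.U v H.one ∈ L)) :
    Uni H L (u + v) := by
  have h' := h.iso S h2 hone hu
  have S' := iso_scal S hu.ne
  have hone' : (Pool.Agent.HuaDom91.iso H u hu.ne).one ∉ L := (h.uni_notMem S h2 hone hu).1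
  rw [← uni_iso hu]
  rcases hv with hv | ⟨hv, hv2⟩
  · obtain ⟨-, k1, -⟩ := h'.mem_L S' h2 hone' hv
    have := k1 1
    rw [one_smul] at this
    exact this
  · have := h'.bad S' h2 hone' hv (by
      change H.U v (H.U (H.inv u) u) ∈ L
      have h3 := H.U_self (H.inv u)
      rw [H.inv_inv] at h3
      rw [h3]
      exact h.bad_inv S h2 hone hv hv2 hu) 1
    rw [one_smul] at this
    exact this

theorem P1.add_span {v : A} (hv : v ∈ Submodule.span K {v | v ∈ L ∨ (v ∉ L ∧ H.U v H.one ∈ L)}) :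
    ∀ u, Uni H L u → Uni H L (u + v) := by
  induction hv using Submodule.span_induction with
  | mem v hv => exact fun u hu => h.add_uni S h2 hone hu hv
  | zero => exact fun u hu => by rwa [add_zero]
  | add v w _ _ ihv ihw =>
    intro u hu
    rw [← add_assoc]
    exact ihw _ (ihv u hu)
  | smul c v _ ih =>
    intro u hu
    by_cases hc : c = 0
    · rwa [hc, zero_smul, add_zero]
    · have h3 := (ih _ (hu.smul S (inv_ne_zero hc))).smul S hc
      rwa [smul_add, smul_smul, mul_inv_cancel₀ hc, one_smul] at h3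

theorem P1.one_notMem_span :
    H.one ∉ Submodule.span K {v | v ∈ L ∨ (v ∉ L ∧ H.U v H.one ∈ L)} := by
  intro h0
  have h3 : Uni H L H.one := ⟨H.one_ne, fun x => by rw [H.U_one]⟩
  have h4 := h.add_span S h2 hone (Submodule.neg_mem _ h0) _ h3
  rw [add_neg_cancel] at h4
  exact h4.ne rfl

/-- An almost prime closed subspace, maximal among the closed subspaces which do not contain the
unit, belongs to a perfect pair. -/
theorem P1.perf (hL : IsCl H L) (hb : L ≠ ⊥)
    (hmax : ∀ V : Submodule K A, IsCl H V → L ≤ V → H.one ∉ V → V = L) :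
    Perf H L (RL S L) := by
  have h3 : dual H (RL S L) ≤ Submodule.span K {v | v ∈ L ∨ (v ∉ L ∧ H.U v H.one ∈ L)} := by
    rw [dual_le_iff]
    intro y hy
    apply Submodule.subset_span
    by_cases hz : H.inv y ∈ L
    · exact Or.inl hz
    · refine Or.inr ⟨hz, ?_⟩
      by_contra h4
      apply hy
      have h5 := h.inv_mem_RL S h2 hone hz h4
      rwa [H.inv_inv] at h5
  have h4 : H.one ∉ dual H (RL S L) := fun h0 => h.one_notMem_span S h2 hone (h3 h0)
  have h5 : L ≤ dual H (RL S L) := by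
    have h6 := dual_anti (H := H) (RL_le_dual S L)
    rwa [hL] at h6
  have h6 := hmax _ (isCl_dual _) h5 h4
  refine ⟨hb, fun h0 => hone (h0 ▸ Submodule.mem_top), fun y hy => ?_⟩
  constructor
  · intro hyL h7
    have h8 := RL_inv h7 (H.inv_ne y hy)
    rw [H.inv_inv] at h8
    exact h8 hyL
  · intro h7
    have h8 := mem_dual_inv (H := H) h7
    rwa [h6] at h8

end

end Pool.Agent.HuaDom91
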