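import Mathlib
import Pool.Agent.HuaVal.Basic
import Pool.Agent.HuaVal.Quad
import Pool.Agent.HuaVal.Der
import Pool.Agent.HuaVal.Lin
import Pool.Agent.HuaVal.StrictK
import Pool.Agent.HuaOne84.Defs

/-!
Hua systems over an infinite field of characteristic not two with quadratic Hua maps.
-/

set_option autoImplicit false

open scoped TensorProduct

namespace Pool.Agent.HuaDom91

open Pool.Agent.HuaVal Pool.Agent.HuaOne84

/-- A map which is like a derivation on squares is a derivation. -/
theorem deriv_mul {K A : Type*} [Field K] [AddCommGroup A] [Module K A] (h2 : (2 : K) ≠ 0)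
    (d : K →+ A) (h : ∀ s, d (s * s) = (2 * s) • d s) (s t : K) :
    d (s * t) = s • d t + t • d s := by
  have h1 := h (s + t)
  have e1 : (s + t) * (s + t) = s * s + t * t + (s * t + s * t) := by ring
  rw [e1, map_add, map_add, map_add, map_add, h, h] at h1
  have h3 : (2 : K) • (d (s * t) - (s • d t + t • d s)) =
      ((2 * s) • d s + (2 * t) • d t + (d (s * t) + d (s * t))) - (2 * (s + t)) • (d s + d t) := by
    module
  rw [h1, sub_self] at h3
  exact sub_eq_zero.mp ((smul_eq_zero.mp h3).resolve_left h2)

theorem deriv_pow {K A : Type*} [Field K] [AddCommGroup A] [Module K A] (h2 : (2 : K) ≠ 0)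
    (d : K →+ A) (h : ∀ s, d (s * s) = (2 * s) • d s) (s : K) (n : ℕ) :
    d (s ^ (n + 1)) = ((n + 1 : ℕ) * s ^ n : K) • d s := by
  induction n with
  | zero => simp
  | succ n ih =>
    rw [pow_succ, deriv_mul h2 d h, ih, smul_smul, ← add_smul]
    congr 1
    push_cast
    ring

section

variable {A : Type} [AddCommGroup A] {J : A → A → A} (hJ : JSys J) {e : A} (he : e ≠ 0)
  {K : Type} [Field K] [Module K A]
  (hK : ∀ (a x : A) (t : K), a ≠ 0 → t ≠ 0 → J a (t • x) = t⁻¹ • J a x)
  (h2K : (2 : K) ≠ 0)
  (hT : ∀ e, e ≠ 0 → ∀ x y z c, T3 J e x y z c = 0)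

include hJ he hK h2K hT

/-- The deviation of the polar form from linearity. -/
theorem dev (x v y : A) : ∃ d : K →+ A, (∀ t, d t = Pl J e (t • x) v y - t • Pl J e x v y) ∧
    ∀ s, d (s * s) = (2 * s) • d s := by
  have hT' := hT e he
  let f : K →+ A :=
    { toFun := fun t => Pl J e (t • x) v y
      map_zero' := by rw [zero_smul, P_zerol]
      map_add' := fun s t => by rw [add_smul, P_addl hT'] }
  let g : K →+ A :=
    { toFun := fun t => Pl J e x (t • v) y
      map_zero' := by rw [zero_smul, P_zeror]
      map_add' := fun s t => by rw [add_smul, P_addr hT'] }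
  have hfg : ∀ t : K, t ≠ 0 → g t = (t * t) • f t⁻¹ := by
    intro t ht
    change Pl J e x (t • v) y = (t * t) • Pl J e (t⁻¹ • x) v y
    have h := Pl_smul_smul hJ hK (e := e) (t⁻¹ • x) v y t
    rw [smul_smul, mul_inv_cancel₀ ht, one_smul] at h
    exact h
  refine ⟨AddMonoidHom.mk' (fun t => Pl J e (t • x) v y - t • Pl J e x v y) ?_, fun t => rfl, ?_⟩
  · intro s t
    rw [add_smul, P_addl hT', add_smul]
    abel
  · intro s
    change Pl J e ((s * s) • x) v y - (s * s) • Pl J e x v y =
      (2 * s) • (Pl J e (s • x) v y - s • Pl J e x v y)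
    have h := func_eq f g hfg s 1
    have h1 : f 1 = Pl J e x v y := by
      change Pl J e ((1 : K) • x) v y = _
      rw [one_smul]
    have h3 : Pl J e ((s * s) • x) v y = (2 * s * 1) • Pl J e (s • x) v y +
        (s * s) • Pl J e x v y - (2 * (s * s * 1)) • Pl J e x v y := by
      rw [← h1]
      have h4 : f (s * s * 1) = Pl J e ((s * s) • x) v y := by
        rw [mul_one]; rfl
      rw [← h4, h]
      rfl
    rw [h3]
    module

/-- The scalars for which the polar form is linear. -/
def lins : Subfield K where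
  carrier := {t | ∀ x v y, Pl J e (t • x) v y = t • Pl J e x v y}
  zero_mem' := fun x v y => by rw [zero_smul, zero_smul, P_zerol]
  one_mem' := fun x v y => by rw [one_smul, one_smul]
  add_mem' := fun {s t} hs ht x v y => by
    rw [add_smul, P_addl (hT e he), hs, ht, add_smul]
  mul_mem' := fun {s t} hs ht x v y => by
    rw [mul_smul, hs, ht, mul_smul]
  neg_mem' := fun {s} hs x v y => by
    rw [neg_smul, P_negl (hT e he), hs, neg_smul]
  inv_mem' := fun t ht x v y => by
    by_cases h0 : t = 0
    · rw [h0, inv_zero, zero_smul, zero_smul, P_zerol]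
    have h := ht (t⁻¹ • x) v y
    rw [smul_smul, mul_inv_cancel₀ h0, one_smul] at h
    rw [h, smul_smul, inv_mul_cancel₀ h0, one_smul]

theorem lins_infinite [Infinite K] : Infinite (lins (K := K) he hT) := by
  obtain ⟨p, hp⟩ := CharP.exists K
  by_cases hp0 : p = 0
  · subst hp0
    have : CharZero K := CharP.charP_to_charZero K
    refine Infinite.of_injective (fun n : ℕ => (n : lins (K := K) he hT)) ?_
    intro a b hab
    have h := congrArg (fun z : lins (K := K) he hT => (z : K)) hab
    simpa using h
  · have hmem : ∀ s : K, s ^ p ∈ lins (K := K) he hT := by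
      intro s x v y
      obtain ⟨d, hd, hd2⟩ := dev hJ he hK h2K hT x v y
      obtain ⟨n, rfl⟩ := Nat.exists_eq_succ_of_ne_zero hp0
      have h := deriv_pow h2K d hd2 s n
      rw [CharP.cast_eq_zero K, zero_mul, zero_smul, hd] at h
      exact sub_eq_zero.mp h
    have hprime : Fact p.Prime := ⟨(CharP.char_is_prime_or_zero K p).resolve_right hp0⟩
    refine Infinite.of_injective (fun s : K => (⟨s ^ p, hmem s⟩ : lins (K := K) he hT)) ?_
    intro a b hab
    have h := congrArg (fun z : lins (K := K) he hT => (z : K)) hab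
    exact frobenius_inj K p h

end

end Pool.Agent.HuaDom91
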