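import Mathlib
import Pool.Agent.HuaDom91.JordanK
import Pool.Agent.HuaVal.LinJ

/-!
Hua systems with bilinear polar forms over an infinite field of characteristic not two.
-/

set_option autoImplicit false

open scoped TensorProduct

namespace Pool.Agent.HuaDom91

open Pool.Agent.HuaVal Pool.Agent.HuaOne84

section

variable {A : Type} [AddCommGroup A] {J : A → A → A} (hJ : JSys J) {e : A} (he : e ≠ 0)
  {F : Type} [Field F] [Module F A]
  (hK : ∀ (a x : A) (t : F), a ≠ 0 → t ≠ 0 → J a (t • x) = t⁻¹ • J a x)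
  (h2 : ∀ a : A, a + a = 0 → a = 0)
  (hT : ∀ e, e ≠ 0 → ∀ x y z c, T3 J e x y z c = 0)
  (hL : ∀ e, e ≠ 0 → ∀ (x v y : A) (t : F), Pl J e (t • x) v y = t • Pl J e x v y)

include hJ he hK hT hL

/-- The quadratic map over the field. -/
theorem exists_W : ∃ W : QuadraticMap F A (Module.End F A), ∀ x y, W x y = H J e x y := by
  let HK : A → Module.End F A := fun x =>
    { toFun := H J e x
      map_add' := H_add hJ he x
      map_smul' := fun t y => H_smul hJ he hK x y t }
  have hHK : ∀ x y, HK x y = H J e x y := fun x y => rfl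
  have hP : ∀ x y c, (HK (x + y) - HK x - HK y) c = Pl J e x y c := fun x y c => rfl
  refine ⟨⟨HK, ?_, ⟨LinearMap.mk₂ F (fun x y => HK (x + y) - HK x - HK y) ?_ ?_ ?_ ?_, ?_⟩⟩,
    hHK⟩
  · intro t x
    apply LinearMap.ext
    intro y
    rw [LinearMap.smul_apply, hHK, hHK, H_smul_left hJ hK]
  · intro x x' y
    apply LinearMap.ext
    intro c
    rw [LinearMap.add_apply, hP, hP, hP, P_addl (hT e he)]
  · intro t x y
    apply LinearMap.ext
    intro c
    rw [LinearMap.smul_apply, hP, hP, hL e he]
  · intro x y y'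
    apply LinearMap.ext
    intro c
    rw [LinearMap.add_apply, hP, hP, hP, P_addr (hT e he)]
  · intro t x y
    apply LinearMap.ext
    intro c
    rw [LinearMap.smul_apply, hP, hP, Pl_comm, hL e he, Pl_comm]
  · intro x y
    rw [LinearMap.mk₂_apply]
    abel

omit hL in
/-- The quadratic map over the integers. -/
theorem exists_UZ : ∃ U : QuadraticMap ℤ A (Module.End ℤ A), ∀ x y, U x y = H J e x y := by
  let HZ : A → Module.End ℤ A := fun x => (Hm hJ he x).toIntLinearMap
  have hHZ : ∀ x y, HZ x y = H J e x y := fun x y => rfl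
  have hP : ∀ x y c, (HZ (x + y) - HZ x - HZ y) c = Pl J e x y c := fun x y c => rfl
  let B : LinearMap.BilinMap ℤ A (Module.End ℤ A) :=
    (AddMonoidHom.mk' (fun x => (AddMonoidHom.mk' (fun y => HZ (x + y) - HZ x - HZ y) (by
        intro y y'
        apply LinearMap.ext
        intro c
        rw [LinearMap.add_apply, hP, hP, hP, P_addr (hT e he)])).toIntLinearMap) (by
      intro x x'
      apply LinearMap.ext
      intro y
      apply LinearMap.ext
      intro c
      show (HZ (x + x' + y) - HZ (x + x') - HZ y) c =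
        (HZ (x + y) - HZ x - HZ y) c + (HZ (x' + y) - HZ x' - HZ y) c
      rw [hP, hP, hP, P_addl (hT e he)])).toIntLinearMap
  have hB : ∀ x y, B x y = HZ (x + y) - HZ x - HZ y := fun x y => rfl
  refine ⟨⟨HZ, ?_, ⟨B, ?_⟩⟩, hHZ⟩
  · intro n x
    apply LinearMap.ext
    intro y
    rw [LinearMap.smul_apply, hHZ, hHZ]
    have h1 : n • x = (n : F) • x := (Int.cast_smul_eq_zsmul F n x).symm
    have h2 : (n * n) • H J e x y = ((n : F) * (n : F)) • H J e x y := by
      rw [← Int.cast_mul, Int.cast_smul_eq_zsmul]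
    rw [h1, h2, H_smul_left hJ hK]
  · intro x y
    rw [hB]
    abel

omit hK hT hL in
/-- The linearisation of the fundamental formula at the unit. -/
theorem lin_one (h2 : ∀ a : A, a + a = 0 → a = 0) {s : F} (hs : s ≠ 0) (hs2 : s * s ≠ 1)
    {U : QuadraticMap F A (Module.End F A)} (hU : ∀ x y, U x y = H J e x y) (a y : A) :
    QuadraticMap.polar (⇑U) y (QuadraticMap.polar (⇑U) e a y) =
      QuadraticMap.polar (⇑U) e a * U y + U y * QuadraticMap.polar (⇑U) e a := by
  have hQ : ∀ x y, U (U x y) = U x * U y * U x := by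
    intro x y
    ext z
    simp only [Module.End.mul_apply, hU]
    exact H_H' hJ he x y z
  have h1 : U e = 1 := by
    ext z
    rw [hU, H_self hJ he]
    rfl
  set V := QuadraticMap.polar (⇑U) e a with hV
  have hX : ∀ t : F, U (e + t • a) = 1 + (t * t) • U a + t • V := by
    intro t
    rw [QuadraticMap.map_add (⇑U), QuadraticMap.map_smul, QuadraticMap.polar_smul_right, h1]
  have hadd : ∀ x y, U (x + y) = U x + U y + QuadraticMap.polar (⇑U) x y :=
    fun x y => QuadraticMap.map_add _ _ _
  set p := V y with hp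
  set q := U a y with hq
  set D1 := QuadraticMap.polar (⇑U) y p - (V * U y + U y * V) with hD1
  set D2 := U p + QuadraticMap.polar (⇑U) y q - (U a * U y + U y * U a + V * U y * V) with hD2
  set D3 := QuadraticMap.polar (⇑U) p q - (V * U y * U a + U a * U y * V) with hD3
  have hD4 : U q = U a * U y * U a := hQ a y
  have key : ∀ t : F, t • D1 + (t * t) • D2 + (t * t * t) • D3 = 0 := by
    intro t
    have h := hQ (e + t • a) y
    have e1 : U (e + t • a) y = y + t • p + (t * t) • q := by
      rw [hX]
      simp only [LinearMap.add_apply, LinearMap.smul_apply, Module.End.one_apply, hp, hq]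
      abel
    rw [e1, hX, hadd, hadd, QuadraticMap.map_smul, QuadraticMap.map_smul, hD4,
      QuadraticMap.polar_add_left, QuadraticMap.polar_smul_right, QuadraticMap.polar_smul_right,
      QuadraticMap.polar_smul_left, QuadraticMap.polar_smul_right] at h
    have h5 : t • D1 + (t * t) • D2 + (t * t * t) • D3 =
      (U y + (t * t) • U p + t • QuadraticMap.polar (⇑U) y p +
        (t * t * (t * t)) • (U a * U y * U a) +
        ((t * t) • QuadraticMap.polar (⇑U) y q +
          t • (t * t) • QuadraticMap.polar (⇑U) p q)) -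
      (1 + (t * t) • U a + t • V) * U y * (1 + (t * t) • U a + t • V) := by
      rw [hD1, hD2, hD3]
      simp only [add_mul, mul_add, one_mul, mul_one, smul_mul_assoc, mul_smul_comm]
      module
    rw [h5, h, sub_self]
  have k1 := key 1
  have k2 := key (-1)
  have k3 := key s
  have hE2 : ∀ f : Module.End F A, f + f = 0 → f = 0 := by
    intro f hf
    ext x
    apply h2
    have h := congrArg (fun g : Module.End F A => g x) hf
    simpa using h
  have g2 : D2 = 0 := by
    apply hE2
    calc D2 + D2 = ((1 : F) • D1 + ((1 : F) * 1) • D2 + ((1 : F) * 1 * 1) • D3) +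
          ((-1 : F) • D1 + ((-1 : F) * -1) • D2 + ((-1 : F) * -1 * -1) • D3) := by module
      _ = 0 := by rw [k1, k2, add_zero]
  have g1 : D1 = 0 := by
    have h5 : (s * (1 - s * s)) • D1 = 0 := by
      calc (s * (1 - s * s)) • D1 = (s • D1 + (s * s) • D2 + (s * s * s) • D3) -
            (s * s * s) • ((1 : F) • D1 + ((1 : F) * 1) • D2 + ((1 : F) * 1 * 1) • D3) -
            (s * s - s * s * s) • D2 := by module
        _ = 0 := by rw [k1, k3, g2, smul_zero, smul_zero, sub_zero, sub_zero]
    ext x
    have h6 := congrArg (fun g : Module.End F A => g x) h5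
    simp only [LinearMap.smul_apply, LinearMap.zero_apply] at h6
    exact (smul_eq_zero.mp h6).resolve_left
      (mul_ne_zero hs (sub_ne_zero.mpr fun h0 => hs2 h0.symm))
  exact sub_eq_zero.mp g1

omit hK hT hL in
/-- The symmetry at the unit. -/
theorem symm_one (h2 : ∀ a : A, a + a = 0 → a = 0) {s : F} (hs : s ≠ 0) (hs2 : s * s ≠ 1)
    {U : QuadraticMap F A (Module.End F A)} (hU : ∀ x y, U x y = H J e x y) (a y : A) :
    QuadraticMap.polar (⇑U) a y e = QuadraticMap.polar (⇑U) e y a := by
  have hVe : ∀ x, QuadraticMap.polar (⇑U) e x e = x + x := by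
    intro x
    have h := H_add_i hJ he x e he
    rw [hJ.self e he] at h
    rw [QuadraticMap.polar, LinearMap.sub_apply, LinearMap.sub_apply, hU, hU, hU, H_self hJ he,
      add_comm e x, h]
    abel
  have L := fun y => lin_one hJ he h2 hs hs2 hU a y
  have hpol : ∀ y z, QuadraticMap.polar (⇑U) y (QuadraticMap.polar (⇑U) e a z) +
      QuadraticMap.polar (⇑U) z (QuadraticMap.polar (⇑U) e a y) =
      QuadraticMap.polar (⇑U) e a * QuadraticMap.polar (⇑U) y z +
        QuadraticMap.polar (⇑U) y z * QuadraticMap.polar (⇑U) e a := by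
    intro y z
    have l1 := L (y + z)
    have l2 := L y
    have l3 := L z
    rw [map_add, QuadraticMap.polar_add_left, QuadraticMap.polar_add_right,
      QuadraticMap.polar_add_right, QuadraticMap.map_add (⇑U) y z, l2, l3] at l1
    have h5 : QuadraticMap.polar (⇑U) y (QuadraticMap.polar (⇑U) e a z) +
      QuadraticMap.polar (⇑U) z (QuadraticMap.polar (⇑U) e a y) =
      (QuadraticMap.polar (⇑U) e a * U y + U y * QuadraticMap.polar (⇑U) e a +
        QuadraticMap.polar (⇑U) y (QuadraticMap.polar (⇑U) e a z) +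
      (QuadraticMap.polar (⇑U) z (QuadraticMap.polar (⇑U) e a y) +
        (QuadraticMap.polar (⇑U) e a * U z + U z * QuadraticMap.polar (⇑U) e a))) -
      (QuadraticMap.polar (⇑U) e a * U y + U y * QuadraticMap.polar (⇑U) e a) -
      (QuadraticMap.polar (⇑U) e a * U z + U z * QuadraticMap.polar (⇑U) e a) := by abel
    rw [h5, l1]
    noncomm_ring
  have h := congrArg (fun f : Module.End F A => f e) (hpol e y)
  simp only [LinearMap.add_apply, Module.End.mul_apply] at h
  rw [hVe, hVe, hVe, QuadraticMap.polar_add_right, LinearMap.add_apply, map_add, map_add,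
    QuadraticMap.polar_comm (⇑U) y a] at h
  have h5 := add_left_cancel h
  have h6 : QuadraticMap.polar (⇑U) a y e - QuadraticMap.polar (⇑U) e y a +
      (QuadraticMap.polar (⇑U) a y e - QuadraticMap.polar (⇑U) e y a) = 0 := by
    calc QuadraticMap.polar (⇑U) a y e - QuadraticMap.polar (⇑U) e y a +
        (QuadraticMap.polar (⇑U) a y e - QuadraticMap.polar (⇑U) e y a) =
        (QuadraticMap.polar (⇑U) a y e + QuadraticMap.polar (⇑U) a y e) -
        (QuadraticMap.polar (⇑U) e y a + QuadraticMap.polar (⇑U) e y a) := by abel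
      _ = 0 := by rw [h5, sub_self]
  exact sub_eq_zero.mp (h2 _ h6)

include h2

/-- The symmetry at the unit, for the polar form. -/
theorem symm_Pl {s : F} (hs : s ≠ 0) (hs2 : s * s ≠ 1) (a y : A) :
    Pl J e a y e = Pl J e e y a := by
  obtain ⟨W, hW⟩ := exists_W hJ he hK hT hL
  have h := symm_one hJ he h2 hs hs2 hW a y
  simp only [QuadraticMap.polar, LinearMap.sub_apply, hW] at h
  exact h

/-- The symmetry at an arbitrary element. -/
theorem symm_Pl' {s : F} (hs : s ≠ 0) (hs2 : s * s ≠ 1) (x v a : A) (ha : a ≠ 0) :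
    Pl J e x v a = Pl J e x (J e a) (H J e a v) := by
  have hw := J_ne_zero hJ he ha
  have h' := symm_Pl hJ hw hK h2 hT hL hs hs2 v x
  rw [P_base hJ he hw, P_base hJ he hw, hJ.inv e a he, H_inv_self hJ he, Pl_comm J e v x,
    Pl_comm J e (J e a) x] at h'
  exact h'

omit hK h2 hT hL in
/-- The Jordan identities. -/
theorem jordan_alg (hsymm : ∀ (x v a : A), a ≠ 0 → Pl J e x v a = Pl J e x (J e a) (H J e a v))
    (R : Type) [CommRing R] [Module R A]
    (U : QuadraticMap R A (Module.End R A)) (hU : ∀ x y, U x y = H J e x y) :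
    JordanIdentities U e ∧ (∀ a : A, a ≠ 0 → Function.Bijective (U a)) := by
  have hQ : ∀ x y, U (U x y) = U x * U y * U x := by
    intro x y
    apply LinearMap.ext
    intro z
    simp only [Module.End.mul_apply, hU]
    exact H_H' hJ he x y z
  have hpol : ∀ x y c, QuadraticMap.polar (⇑U) x y c = Pl J e x y c := by
    intro x y c
    rw [QuadraticMap.polar, LinearMap.sub_apply, LinearMap.sub_apply, hU, hU, hU]
    rfl
  refine ⟨⟨?_, ?_, hQ⟩, ?_⟩
  · apply LinearMap.ext
    intro z
    rw [hU, H_self hJ he]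
    rfl
  · intro a b c
    by_cases ha : a = 0
    · rw [ha]
      simp [QuadraticMap.polar]
    have h1 : U a (J e a) = a := by rw [hU, H_inv_self hJ he]
    have h4 : ∀ x y, QuadraticMap.polar (⇑U) (U a x) (U a y) =
        U a * QuadraticMap.polar (⇑U) x y * U a := by
      intro x y
      rw [QuadraticMap.polar, ← map_add, hQ, hQ, hQ, QuadraticMap.polar]
      noncomm_ring
    have h5 : QuadraticMap.polar (⇑U) a (U a c) b =
        U a (QuadraticMap.polar (⇑U) (J e a) c (U a b)) := by
      calc QuadraticMap.polar (⇑U) a (U a c) b =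
          QuadraticMap.polar (⇑U) (U a (J e a)) (U a c) b := by rw [h1]
        _ = U a (QuadraticMap.polar (⇑U) (J e a) c (U a b)) := by
          rw [h4]
          rfl
    have h6 : QuadraticMap.polar (⇑U) b c a = QuadraticMap.polar (⇑U) (J e a) c (U a b) := by
      rw [hpol, hpol, hU, Pl_comm J e b c, hsymm c b a ha, Pl_comm]
    rw [h5, h6]
  · intro a ha
    refine Function.bijective_iff_has_inverse.mpr ⟨fun y => U (J e a) y, ?_, ?_⟩
    · intro y
      show U (J e a) (U a y) = y
      rw [hU, hU, H_left_inv hJ he ha]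
    · intro y
      show U a (U (J e a) y) = y
      rw [hU, hU, H_right_inv hJ he ha]

/-- The Hua system comes from a quadratic Jordan division ring. -/
theorem fromJordanF [Infinite F] (j : A → Option A → Option A)
    (hjJ : ∀ a b : A, a ≠ 0 → b ≠ 0 → j a (some b) = some (J a b)) : FromJordan j := by
  classical
  obtain ⟨s, hs'⟩ := Infinite.exists_notMem_finset ({0, 1, -1} : Finset F)
  simp only [Finset.mem_insert, Finset.mem_singleton, not_or] at hs'
  obtain ⟨hs, hs1, hs2⟩ := hs'
  have hss : s * s ≠ 1 := by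
    intro h
    rcases mul_self_eq_one_iff.mp h with h | h
    · exact hs1 h
    · exact hs2 h
  have hsymm := symm_Pl' hJ he hK h2 hT hL hs hss
  obtain ⟨U, hU⟩ := exists_UZ hJ he hK hT
  obtain ⟨W, hW⟩ := exists_W hJ he hK hT hL
  obtain ⟨hU1, hbij⟩ := jordan_alg hJ he hsymm ℤ U hU
  obtain ⟨hW1, -⟩ := jordan_alg hJ he hsymm F W hW
  refine ⟨e, U, hU1, ?_, hbij, ?_⟩
  · intro Ω _ U' hU'
    obtain ⟨s2, s3⟩ := strictK W hW1.2.1 hW1.2.2 Ω U' (by
      intro a c ω
      rw [hU', hU, hW])
    refine ⟨?_, s2, s3⟩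
    ext x
    simp only [TensorProduct.AlgebraTensorModule.curry_apply, TensorProduct.curry_apply,
      LinearMap.coe_restrictScalars, Module.End.one_apply]
    rw [hU', hU1.1]
    rfl
  · intro a b c ha hb hc
    rw [hjJ a b ha hb]
    congr 1
    have h1 := H_inv_self hJ he b
    rw [← hU] at h1
    have h2' : c = J e b := (hbij b hb).1 (hc.trans h1.symm)
    rw [h2', hU, H_of_ne ha, hJ.inv e b he]

end

/-- Hua systems with quadratic Hua maps over an infinite field of characteristic not two. -/
theorem jordan_of_T3K {A : Type} [AddCommGroup A] {K : Type} [Field K] [Infinite K] [Module K A]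
    (h2K : (2 : K) ≠ 0) (j : A → Option A → Option A) {J : A → A → A}
    (hJ : JSys J) (hjJ : ∀ a b : A, a ≠ 0 → b ≠ 0 → j a (some b) = some (J a b))
    (hK : ∀ (a x : A) (t : K), a ≠ 0 → t ≠ 0 → J a (t • x) = t⁻¹ • J a x)
    (hT : ∀ e, e ≠ 0 → ∀ x y z c, T3 J e x y z c = 0) {e : A} (he : e ≠ 0) : FromJordan j := by
  have h2 : ∀ a : A, a + a = 0 → a = 0 := by
    intro a ha
    rw [← two_smul K a] at ha
    exact (smul_eq_zero.mp ha).resolve_left h2K
  have := lins_infinite hJ he hK h2K hT
  refine fromJordanF hJ he (F := lins (K := K) he hT) ?_ h2 hT ?_ j hjJ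
  · intro a x t ha ht
    have ht' : (t : K) ≠ 0 := fun h => ht (Subtype.ext h)
    exact hK a x t ha ht'
  · intro f hf x v y t
    rw [P_base hJ he hf, P_base hJ he hf]
    exact t.2 x v _

end Pool.Agent.HuaDom91
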