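import Mathlib

/-!
Avoiding finitely many thin subsets of `K^n`.
-/

set_option autoImplicit false

namespace Pool.Agent.HuaDom91

theorem grid {K : Type} [Infinite K] {n m C : ℕ} (bad : Fin m → Set (Fin n → K))
    (dir : Fin m → Fin n)
    (h : ∀ j p, ∃ E : Finset K, E.card ≤ C ∧ ∀ t, Function.update p (dir j) t ∈ bad j → t ∈ E) :
    ∃ p, ∀ j, p ∉ bad j := by
  classical
  obtain ⟨G, hG⟩ := Infinite.exists_subset_card_eq K (m * C + 1)
  set S : Finset (Fin n → K) := Fintype.piFinset (fun _ => G) with hS
  have hGne : G.Nonempty := Finset.card_pos.1 (by omega)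
  obtain ⟨g, hg⟩ := hGne
  have hSne : S.Nonempty := ⟨fun _ => g, by rw [hS, Fintype.mem_piFinset]; exact fun _ => hg⟩
  have hSc : 0 < S.card := Finset.card_pos.2 hSne
  -- each bad set is small
  have hbad : ∀ j, (S.filter (fun p => p ∈ bad j)).card * G.card ≤ C * S.card := by
    intro j
    have h1 : ((S.filter (fun p => p ∈ bad j)) ×ˢ G).card =
        ((S ×ˢ G).filter (fun q => Function.update q.1 (dir j) q.2 ∈ bad j)).card := by
      apply Finset.card_nbij' (fun q => (Function.update q.1 (dir j) q.2, q.1 (dir j)))
        (fun q => (Function.update q.1 (dir j) q.2, q.1 (dir j)))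
      · rintro ⟨p, t⟩ hq
        simp only [Finset.coe_product, Finset.coe_filter, Set.mem_prod, Set.mem_setOf_eq,
          Finset.mem_coe, Finset.mem_product, hS, Fintype.mem_piFinset] at hq ⊢
        refine ⟨⟨fun i => ?_, hq.1.1 _⟩, ?_⟩
        · by_cases hi : i = dir j
          · subst hi; simpa using hq.2
          · rw [Function.update_of_ne hi]; exact hq.1.1 i
        · rw [Function.update_idem, Function.update_eq_self]
          exact hq.1.2
      · rintro ⟨p, t⟩ hq
        simp only [Finset.coe_product, Finset.coe_filter, Set.mem_prod, Set.mem_setOf_eq,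
          Finset.mem_coe, Finset.mem_product, hS, Fintype.mem_piFinset] at hq ⊢
        refine ⟨⟨fun i => ?_, hq.2⟩, hq.1.1 _⟩
        by_cases hi : i = dir j
        · subst hi; simpa using hq.1.2
        · rw [Function.update_of_ne hi]; exact hq.1.1 i
      · rintro ⟨p, t⟩ _
        simp
      · rintro ⟨p, t⟩ _
        simp
    have h2 : ((S ×ˢ G).filter (fun q => Function.update q.1 (dir j) q.2 ∈ bad j)).card ≤
        S.card * C := by
      rw [Finset.card_filter, Finset.sum_product]
      have h3 : ∀ p ∈ S, (∑ t ∈ G, if Function.update p (dir j) t ∈ bad j then 1 else 0) ≤ C := by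
        intro p _
        obtain ⟨E, hE, hE'⟩ := h j p
        rw [← Finset.card_filter]
        refine (Finset.card_le_card ?_).trans hE
        intro t ht
        rw [Finset.mem_filter] at ht
        exact hE' t ht.2
      exact (Finset.sum_le_card_nsmul S _ C h3).trans (by rw [smul_eq_mul])
    rw [Finset.card_product] at h1
    rw [h1, mul_comm C]
    exact h2
  by_contra hcon
  push Not at hcon
  have h4 : S ⊆ (Finset.univ : Finset (Fin m)).biUnion (fun j => S.filter (fun p => p ∈ bad j)) := by
    intro p hp
    obtain ⟨j, hj⟩ := hcon p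
    rw [Finset.mem_biUnion]
    exact ⟨j, Finset.mem_univ j, Finset.mem_filter.2 ⟨hp, hj⟩⟩
  have h5 := (Finset.card_le_card h4).trans Finset.card_biUnion_le
  have h6 : S.card * G.card ≤ m * (C * S.card) := by
    calc S.card * G.card ≤ (∑ j : Fin m, (S.filter (fun p => p ∈ bad j)).card) * G.card :=
          Nat.mul_le_mul_right _ h5
      _ = ∑ j : Fin m, (S.filter (fun p => p ∈ bad j)).card * G.card := Finset.sum_mul _ _ _
      _ ≤ ∑ _j : Fin m, C * S.card := Finset.sum_le_sum fun j _ => hbad j
      _ = m * (C * S.card) := by simp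
  rw [hG] at h6
  have h7 : S.card * (m * C + 1) = m * (C * S.card) + S.card := by ring
  omega

end Pool.Agent.HuaDom91
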