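import Mathlib
import Pool.Agent.HuaDom91.Iso
import Pool.Agent.HuaDom91.Grid

/-!
Perfect pairs: the vanishing of the parallelogram defect.
-/

set_option autoImplicit false

namespace Pool.Agent.HuaDom91

open Pool.Agent.HuaTop84 Pool.Agent.HuaVal Pool.Agent.HuaOne84

variable {A : Type} [AddCommGroup A] {K : Type} [Field K] [Module K A] {H : HS A}

/-- The parallelogram defect. -/
def dfc (H : HS A) (u b v : A) : A :=
  H.U (u + b) v + H.U (u - b) v - (H.U u v + H.U u v) - (H.U b v + H.U b v)

theorem dfc_two (H : HS A) (u x b v : A) : dfc H x b v + dfc H x b v =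
    dfc H u b v + dfc H u b v - dfc H u (x + b) v - dfc H u (x - b) v + dfc H (u + b) x v +
      dfc H (u - b) x v := by
  unfold dfc
  rw [show u + (x + b) = u + b + x by abel, show u - (x + b) = u - b - x by abel,
    show u + (x - b) = u - b + x by abel, show u - (x - b) = u + b - x by abel]
  abel

namespace Perf

variable {P R : Submodule K A} (h : Perf H P R)

include h

theorem ball' [Infinite K] (S : H.Scal K) {ι : Type} [Fintype ι] (a : ι → A) :
    ∃ B T : Submodule K A, Perf H B T ∧ P ≤ B ∧ (∀ i, a i ∈ B) ∧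
      ∀ i, ∀ x ∈ R, H.U (a i) x ∈ B := by
  obtain ⟨B, T, h1, h2, h3, h4⟩ := h.ball S (a ∘ (Fintype.equivFin ι).symm)
  refine ⟨B, T, h1, h2, fun i => ?_, fun i => ?_⟩
  · simpa using h3 (Fintype.equivFin ι i)
  · simpa using h4 (Fintype.equivFin ι i)

/-- Finitely many defects lie in `P` for a common `u`. -/
theorem common [Infinite K] (S : H.Scal K) (h2K : (2 : K) ≠ 0) {v : A} (hv0 : v ≠ 0) {m : ℕ}
    (e c : Fin m → A) : ∃ u, ∀ j, dfc H (u + c j) (e j) v ∈ P := by
  classical
  obtain ⟨B, T, hB, hPB, ha, hR⟩ := h.ball' S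
    (fun i : Option (Fin m ⊕ Fin m ⊕ Fin m) =>
      i.elim (H.inv v) (Sum.elim e (Sum.elim (fun j => H.U (e j) v) c)))
  have hv : H.inv v ∈ B := ha none
  have he : ∀ j, e j ∈ B := fun j => ha (some (Sum.inl j))
  have hθ : ∀ j, H.U (e j) v ∈ B := fun j => ha (some (Sum.inr (Sum.inl j)))
  have hc : ∀ j, c j ∈ B := fun j => ha (some (Sum.inr (Sum.inr j)))
  have heR : ∀ j, ∀ x ∈ R, H.U (e j) x ∈ B := fun j => hR (some (Sum.inl j))
  have hθR : ∀ j, ∀ x ∈ R, H.U (H.U (e j) v) x ∈ B := fun j => hR (some (Sum.inr (Sum.inl j)))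
  obtain ⟨u0, hu0⟩ : ∃ u, u ∉ B := by
    by_contra hcon
    push Not at hcon
    exact hB.ne_top (eq_top_iff.2 fun x _ => hcon x)
  obtain ⟨p, hp⟩ := grid (K := K) (C := 18)
    (fun j => {p : Fin m → K |
      dfc H (u0 + ∑ i, p i • H.U (e i) v + c j) (e j) v ∉ P}) id (by
    intro j p
    by_cases hej : e j = 0
    · refine ⟨∅, by simp, fun t ht => ?_⟩
      exfalso
      apply ht
      rw [hej]
      unfold dfc
      rw [H.U_zero, add_zero, sub_zero]
      simp
    · obtain ⟨E, hE, hE'⟩ := gen_form S h2K h hB hPB hej hv0 (heR j) (hθR j) (he j) (hθ j) hv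
        (w := u0 + ∑ i, (Function.update p j 0) i • H.U (e i) v + c j) (by
          rw [add_assoc]
          apply hB.add_ne hu0
          apply B.add_mem _ (hc j)
          exact B.sum_mem fun i _ => B.smul_mem _ (hθ i))
      refine ⟨E, hE, fun t ht => ?_⟩
      by_contra htE
      apply ht
      have h1 := hE' t htE
      have h2 : u0 + ∑ i, (Function.update p j 0) i • H.U (e i) v + c j + t • H.U (e j) v =
          u0 + ∑ i, (Function.update p j t) i • H.U (e i) v + c j := by
        have h3 : ∑ i, (Function.update p j t) i • H.U (e i) v =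
            ∑ i, (Function.update p j 0) i • H.U (e i) v + t • H.U (e j) v := by
          rw [← Finset.add_sum_erase _ _ (Finset.mem_univ j),
            ← Finset.add_sum_erase (f := fun i => (Function.update p j 0) i • H.U (e i) v)
              _ (Finset.mem_univ j), Function.update_self, Function.update_self, zero_smul,
            zero_add, add_comm]
          congr 1
          apply Finset.sum_congr rfl
          intro i hi
          rw [Function.update_of_ne (Finset.ne_of_mem_erase hi),
            Function.update_of_ne (Finset.ne_of_mem_erase hi)]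
        rw [h3]
        abel
      rw [h2, two_smul, two_smul] at h1
      exact h1)
  exact ⟨u0 + ∑ i, p i • H.U (e i) v, fun j => not_not.1 (hp j)⟩

/-- The parallelogram defects lie in `P`. -/
theorem dfc_mem [Infinite K] (S : H.Scal K) (h2K : (2 : K) ≠ 0) (x b v : A) :
    dfc H x b v ∈ P := by
  by_cases hv0 : v = 0
  · rw [hv0]
    unfold dfc
    simp
  obtain ⟨u, hu⟩ := h.common S h2K hv0 ![b, x + b, x - b, x, x] ![0, 0, 0, b, -b]
  have h0 : dfc H u b v ∈ P := by simpa using hu 0
  have h1 : dfc H u (x + b) v ∈ P := by simpa using hu 1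
  have h2 : dfc H u (x - b) v ∈ P := by simpa using hu 2
  have h3 : dfc H (u + b) x v ∈ P := hu 3
  have h4 : dfc H (u - b) x v ∈ P := by
    rw [sub_eq_add_neg]
    exact hu 4
  have h5 : (2 : K) • dfc H x b v ∈ P := by
    rw [two_smul, dfc_two H u]
    exact P.add_mem (P.add_mem (P.sub_mem (P.sub_mem (P.add_mem h0 h0) h1) h2) h3) h4
  exact (P.smul_mem_iff h2K).1 h5

/-- The parallelogram law. -/
theorem dfc_eq_zero [Infinite K] (S : H.Scal K) (h2K : (2 : K) ≠ 0) (x b v : A) :
    dfc H x b v = 0 := by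
  set y := dfc H x b v with hy
  by_contra hy0
  have h1 : ∀ c, H.U c y ∈ P := by
    intro c
    by_cases hc : c = 0
    · rw [hc, H.U_zero]
      exact P.zero_mem
    exact (h.refl S hc).symm.dfc_mem S h2K x b v
  have hiy : H.inv y ≠ 0 := H.inv_ne y hy0
  have h2 : ∀ u, u + u + H.inv y ∈ P := by
    intro u
    have h3 := U_shift H u hiy
    rw [H.inv_inv] at h3
    have h4 := P.sub_mem (h1 (u + H.inv y)) (h1 u)
    rw [h3, add_sub_cancel_left] at h4
    exact h4
  apply h.ne_top
  rw [eq_top_iff]
  intro u _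
  have h5 := P.sub_mem (h2 u) (h2 0)
  rw [zero_add, zero_add, add_sub_cancel_right, ← two_smul K u, P.smul_mem_iff h2K] at h5
  exact h5

end Perf

end Pool.Agent.HuaDom91
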