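import Mathlib
import Pool.Agent.HuaDom91.Van
import Pool.Agent.HuaDom91.JordanF
import Pool.Agent.HuaPair25.Closed

/-!
A Hua system with a perfect pair of subspaces comes from a quadratic Jordan division ring.
-/

set_option autoImplicit false

namespace Pool.Agent.HuaDom91

open Pool.Agent.HuaTop84 Pool.Agent.HuaVal Pool.Agent.HuaOne84 Pool.Agent.HuaPair25

/-- The third difference vanishes if there is a perfect pair. -/
theorem T3_zero {A : Type} [AddCommGroup A] {K : Type} [Field K] [Infinite K] [Module K A]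
    (h2K : (2 : K) ≠ 0) {J : A → A → A} (hJ : JSys J) {e : A} (he : e ≠ 0)
    (S : (toHS hJ e he).Scal K) {P R : Submodule K A} (h : Perf (toHS hJ e he) P R) :
    ∀ e', e' ≠ 0 → ∀ x y z c, T3 J e' x y z c = 0 := by
  intro e' he' x y z c
  have h2 : ∀ a : A, a + a = 0 → a = 0 := by
    intro a ha
    rw [← two_smul K a] at ha
    exact (smul_eq_zero.mp ha).resolve_left h2K
  have hc : ∀ w, H J e' w c = H J e w (J e (J e' c)) := by
    intro w
    by_cases hw : w = 0
    · rw [hw, H_zero_left, H_zero_left]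
    · rw [H_of_ne hw, H_of_ne hw, hJ.inv e _ he]
  unfold T3
  rw [hc, hc, hc, hc, hc, hc, hc]
  refine third_zero h2 (fun w => H J e w (J e (J e' c))) (fun u a => ?_) x y z
  have h3 := h.dfc_eq_zero S h2K u a (J e (J e' c))
  have h4 := sub_eq_zero.mp h3
  exact eq_add_of_sub_eq' h4

/-- A Hua system over an infinite field of characteristic not 2 with a perfect pair of
subspaces comes from a quadratic Jordan division ring. -/
theorem jordan_of_perf {A : Type} [AddCommGroup A] {K : Type} [Field K] [Infinite K] [Module K A]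
    (h2K : (2 : K) ≠ 0) (j : A → Option A → Option A) {J : A → A → A}
    (hJ : JSys J) (hjJ : ∀ a b : A, a ≠ 0 → b ≠ 0 → j a (some b) = some (J a b)) {e : A}
    (he : e ≠ 0) (S : (toHS hJ e he).Scal K) {P R : Submodule K A}
    (h : Perf (toHS hJ e he) P R) : FromJordan j := by
  refine jordan_of_T3K h2K j hJ hjJ ?_ (T3_zero h2K hJ he S h) he
  intro a x t ha ht
  have h1 : ∀ y, J a y = (toHS hJ e he).U a ((toHS hJ e he).inv y) := by
    intro y
    change J a y = H J e a (J e y)
    rw [H_of_ne ha, hJ.inv e _ he]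
  rw [h1, h1, S.inv_smul t x ht, S.U_smul]

theorem scal_toHS {A : Type} [AddCommGroup A] {K : Type} [Field K] [Module K A]
    (j : A → Option A → Option A) {J : A → A → A}
    (hJ : JSys J) (hjJ : ∀ a b : A, a ≠ 0 → b ≠ 0 → j a (some b) = some (J a b))
    (hK : ∀ (a b c : A) (t : K), a ≠ 0 → b ≠ 0 → t ≠ 0 → j a (some b) = some c →
      j a (some (t • b)) = some (t⁻¹ • c)) {e : A} (he : e ≠ 0) : (toHS hJ e he).Scal K := by
  have h1 : ∀ (a : A) (t : K) (x : A), a ≠ 0 → t ≠ 0 → J a (t • x) = t⁻¹ • J a x := by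
    intro a t x ha ht
    by_cases hx : x = 0
    · rw [hx, smul_zero, hJ.zero a ha, smul_zero]
    have h := hK a x (J a x) t ha hx ht (hjJ a x ha hx)
    rw [hjJ a _ ha (smul_ne_zero ht hx)] at h
    exact Option.some_injective _ h
  refine ⟨fun t x ht => h1 e t x he ht, fun a t x => ?_⟩
  change H J e a (t • x) = t • H J e a x
  by_cases ha : a = 0
  · rw [ha, H_zero_left, H_zero_left, smul_zero]
  by_cases ht : t = 0
  · rw [ht, zero_smul, zero_smul]
    exact H_zero_right hJ he a
  rw [H_of_ne ha, H_of_ne ha, h1 e t x he ht, h1 a _ _ ha (inv_ne_zero ht), inv_inv]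

/-- A pure subgroup of a rational vector space is a subspace. -/
def subOfPure {A : Type} [AddCommGroup A] [Module ℚ A] (P : AddSubgroup A) (hP : IsPure P) :
    Submodule ℚ A where
  carrier := P
  add_mem' := P.add_mem
  zero_mem' := P.zero_mem
  smul_mem' := by
    intro q x hx
    apply hP q.den _ q.den_nz
    have h1 : q.den • q • x = q.num • x := by
      rw [← Nat.cast_smul_eq_nsmul ℚ, smul_smul, mul_comm, Rat.mul_den_eq_num,
        Int.cast_smul_eq_zsmul]
    rw [h1]
    exact P.zsmul_mem hx _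

theorem mem_subOfPure {A : Type} [AddCommGroup A] [Module ℚ A] {P : AddSubgroup A}
    (hP : IsPure P) {x : A} : x ∈ subOfPure P hP ↔ x ∈ P := Iff.rfl

/-- The same for a torsion-free group. -/
theorem jordan_of_perf_rat {A : Type} [AddCommGroup A]
    (hA : ∀ (n : ℕ) (a : A), n ≠ 0 → n • a = 0 → a = 0)
    (j : A → Option A → Option A) {J : A → A → A}
    (hJ : JSys J) (hjJ : ∀ a b : A, a ≠ 0 → b ≠ 0 → j a (some b) = some (J a b)) {e : A}
    (he : e ≠ 0) {P R : AddSubgroup A} (hPp : IsPure P) (h0 : P ≠ ⊥) (h1 : P ≠ ⊤)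
    (h : ∀ y, y ≠ 0 → (y ∈ P ↔ J e y ∉ R)) : FromJordan j := by
  let _ : Module ℚ A := ratModule hA (fun n a hn => (toHS hJ e he).divisible hA n a hn)
  have S : (toHS hJ e he).Scal ℚ := (toHS hJ e he).ratScal hA
  have hRp : IsPure R := by
    intro n z hn hz
    by_cases hz0 : z = 0
    · rw [hz0]; exact R.zero_mem
    have hnz : n • z ≠ 0 := fun h0 => hz0 (hA n z hn h0)
    have hy0 : J e (n • z) ≠ 0 := J_ne_zero hJ he hnz
    have hy : J e (n • z) ∉ P := by
      intro h2
      rw [h _ hy0, hJ.inv e _ he] at h2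
      exact h2 hz
    have hy2 : J e z ∉ P := by
      intro h2
      apply hy
      have h3 : n • J e (n • z) = J e z := (toHS hJ e he).smul_inv_smul hA n z hn
      rw [← h3] at h2
      exact hPp n _ hn h2
    by_contra h4
    apply hy2
    rw [h _ (J_ne_zero hJ he hz0), hJ.inv e _ he]
    exact h4
  refine jordan_of_perf (K := ℚ) (by norm_num) j hJ hjJ he S
    (P := subOfPure P hPp) (R := subOfPure R hRp) ⟨?_, ?_, ?_⟩
  · intro h2
    apply h0
    rw [eq_bot_iff]
    intro x hx
    have h3 : x ∈ subOfPure P hPp := hx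
    rw [h2, Submodule.mem_bot] at h3
    rw [h3]
    exact AddSubgroup.zero_mem _
  · intro h2
    apply h1
    rw [eq_top_iff]
    intro x _
    have h3 : x ∈ subOfPure P hPp := h2 ▸ Submodule.mem_top
    exact h3
  · intro y hy
    exact h y hy

end Pool.Agent.HuaDom91
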