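import Mathlib
import Pool.Agent.HuaDom91.Main
import Pool.Agent.HuaDom91.Gam

/-!
The final statements about pairs of subspaces.
-/

set_option autoImplicit false

namespace Pool.Agent.HuaDom91

open Pool.Agent.HuaTop84 Pool.Agent.HuaVal Pool.Agent.HuaOne84 Pool.Agent.HuaPair25

/-- The scalars which the inversion inverts are closed under `t ↦ t + 1`. -/
theorem inv_smul_add_one {A : Type} [AddCommGroup A] {K : Type} [Field K] [Module K A] (H : HS A)
    {t : K} (ht : t ≠ 0) (ht1 : t + 1 ≠ 0) (hi : ∀ x, H.inv (t • x) = t⁻¹ • H.inv x)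
    (hU : ∀ a x, H.U a (t • x) = t • H.U a x) (u : A) :
    H.inv ((t + 1) • u) = (t + 1)⁻¹ • H.inv u := by
  by_cases hu : u = 0
  · rw [hu, smul_zero, H.inv_zero, smul_zero]
  have htu : t • u ≠ 0 := smul_ne_zero ht hu
  have hsu : t • u + u ≠ 0 := by
    intro h
    apply hu
    have h1 : (t + 1) • u = 0 := by rw [add_smul, one_smul]; exact h
    exact (smul_eq_zero.mp h1).resolve_left ht1
  have hU' : ∀ a x, H.U a (t⁻¹ • x) = t⁻¹ • H.U a x := by
    intro a x
    have h := hU a (t⁻¹ • x)
    rw [smul_smul, mul_inv_cancel₀ ht, one_smul] at h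
    rw [h, smul_smul, inv_mul_cancel₀ ht, one_smul]
  have h1 : H.U (t • u) (H.inv u) = (t * t) • u := by
    have h := H.U_self (t • u)
    rw [hi, hU'] at h
    have h2 := congrArg (fun z => t • z) h
    simp only [smul_smul, mul_inv_cancel₀ ht, one_smul] at h2
    exact h2
  have h2 := H.inv_add (t • u) u htu hu hsu
  have h3 : H.U (H.inv (t • u)) (H.inv (H.inv (t • u) + H.inv u)) =
      t⁻¹ • H.inv ((t + 1) • u) := by
    rw [← H.inv_inv (H.U (H.inv (t • u)) (H.inv (H.inv (t • u) + H.inv u))),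
      H.inv_U _ _ (H.inv_ne _ htu), H.inv_inv, H.inv_inv, map_add, H.U_self, h1,
      ← hi ((t + 1) • u), smul_smul]
    congr 1
    module
  rw [h3] at h2
  have e1 : t • u + u = (t + 1) • u := by rw [add_smul, one_smul]
  rw [e1, hi] at h2
  have h4 : (t + 1) • H.inv ((t + 1) • u) = H.inv u := by
    have h5 : (t + 1) • H.inv ((t + 1) • u) =
        t • (H.inv ((t + 1) • u) + t⁻¹ • H.inv ((t + 1) • u)) := by
      rw [smul_add, smul_smul, mul_inv_cancel₀ ht]
      module
    rw [h5]
    nth_rw 1 [h2]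
    rw [sub_add_cancel, smul_smul, mul_inv_cancel₀ ht, one_smul]
  rw [← h4, smul_smul, inv_mul_cancel₀ ht1, one_smul]

/-- The subfield of the scalars which are inverted by all `J a`. -/
def goodScal {A : Type} [AddCommGroup A] (K : Type) [Field K] [Module K A] {J : A → A → A}
    (hJ : JSys J) : Subfield K where
  carrier := {t | t = 0 ∨ ∀ a x, a ≠ 0 → J a (t • x) = t⁻¹ • J a x}
  zero_mem' := Or.inl rfl
  one_mem' := Or.inr fun a x _ => by rw [one_smul, inv_one, one_smul]
  mul_mem' := by
    rintro s t (rfl | hs) (rfl | ht)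
    · exact Or.inl (zero_mul 0)
    · exact Or.inl (zero_mul t)
    · exact Or.inl (mul_zero s)
    · refine Or.inr fun a x ha => ?_
      rw [mul_smul, hs a _ ha, ht a _ ha, smul_smul, mul_inv]
  neg_mem' := by
    rintro s (rfl | hs)
    · exact Or.inl neg_zero
    · refine Or.inr fun a x ha => ?_
      rw [neg_smul, hJ.neg a _ ha, hs a _ ha, inv_neg, neg_smul]
  inv_mem' := by
    rintro s (rfl | hs)
    · exact Or.inl inv_zero
    · by_cases h0 : s = 0
      · exact Or.inl (by rw [h0, inv_zero])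
      refine Or.inr fun a x ha => ?_
      have h := hs a (s⁻¹ • x) ha
      rw [smul_smul, mul_inv_cancel₀ h0, one_smul] at h
      rw [h, smul_smul, inv_inv, mul_inv_cancel₀ h0, one_smul]
  add_mem' := by
    intro s t hs ht
    by_cases hs0 : s = 0
    · rw [hs0, zero_add]; exact ht
    by_cases ht0 : t = 0
    · rw [ht0, add_zero]; exact hs
    by_cases hst : s + t = 0
    · exact Or.inl hst
    have hs' := hs.resolve_left hs0
    have ht' := ht.resolve_left ht0
    -- the quotient
    set q := s * t⁻¹ with hq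
    have hq0 : q ≠ 0 := mul_ne_zero hs0 (inv_ne_zero ht0)
    have hq1 : q + 1 ≠ 0 := by
      intro h
      apply hst
      have h1 : s + t = t * (q + 1) := by rw [hq]; field_simp
      rw [h1, h, mul_zero]
    have hti : ∀ a x, a ≠ 0 → J a (t⁻¹ • x) = t • J a x := by
      intro a x ha
      have h := ht' a (t⁻¹ • x) ha
      rw [smul_smul, mul_inv_cancel₀ ht0, one_smul] at h
      rw [h, smul_smul, mul_inv_cancel₀ ht0, one_smul]
    have hqg : ∀ a x, a ≠ 0 → J a (q • x) = q⁻¹ • J a x := by
      intro a x ha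
      rw [hq, mul_smul, hs' a _ ha, hti a _ ha, smul_smul, mul_inv, inv_inv]
    have hqi : ∀ a x, a ≠ 0 → J a (q⁻¹ • x) = q • J a x := by
      intro a x ha
      have h := hqg a (q⁻¹ • x) ha
      rw [smul_smul, mul_inv_cancel₀ hq0, one_smul] at h
      rw [h, smul_smul, mul_inv_cancel₀ hq0, one_smul]
    refine Or.inr fun a x ha => ?_
    have h1 : s + t = (q + 1) * t := by rw [hq]; field_simp
    rw [h1, mul_smul]
    have h2 := inv_smul_add_one (toHS hJ a ha) hq0 hq1 (fun y => hqg a y ha) (fun b y => by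
      change H J a b (q • y) = q • H J a b y
      by_cases hb : b = 0
      · rw [hb, H_zero_left, H_zero_left, smul_zero]
      rw [H_of_ne hb, H_of_ne hb, hqg a y ha, hqi b _ hb]) (t • x)
    have h3 : J a ((q + 1) • t • x) = (q + 1)⁻¹ • J a (t • x) := h2
    rw [h3, ht' a x ha, smul_smul, mul_inv]

/-- A Hua system over an infinite field of characteristic not two with a pair of subspaces which
does not generate all translations comes from a quadratic Jordan division ring. -/
theorem jordan_of_pair {K : Type} [Field K] [Infinite K] (h2K : (2 : K) ≠ 0)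
    {A : Type} [AddCommGroup A] [Module K A] (j : A → Option A → Option A) (hj : IsHua j)
    (hK : ∀ (a b c : A) (t : K), a ≠ 0 → b ≠ 0 → t ∉ (⊥ : Subfield K) →
      j a (some b) = some c → j a (some (t • b)) = some (t⁻¹ • c))
    {e : A} (he : e ≠ 0) {P R : Submodule K A} (h0 : P ≠ ⊥)
    (hpair : ∀ y z, y ∉ P → j e (some y) = some z → z ∈ R)
    (hG : ∃ a, tr a ∉ GenBy j e P R) : FromJordan j := by
  obtain ⟨J, hJ, hjJ⟩ := exists_J hj
  have hK' : ∀ (a b c : A) (t : K), a ≠ 0 → b ≠ 0 → t ≠ 0 → j a (some b) = some c →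
      j a (some (t • b)) = some (t⁻¹ • c) := by
    intro a b c t ha hb ht hc
    by_cases htb : t ∈ (⊥ : Subfield K)
    · have h1 : (⊥ : Subfield K) ≤ goodScal K hJ := bot_le
      have h2 := (h1 htb).resolve_left ht
      rw [hjJ a b ha hb] at hc
      have h3 := Option.some.inj hc
      rw [hjJ a _ ha (smul_ne_zero ht hb), h2 a b ha, h3]
    · exact hK a b c t ha hb htb hc
  have S := scal_toHS j hJ hjJ hK' he
  -- the inversion
  have hiv : ∀ x, iv (toHS hJ e he) x = j e x := by
    have hz := (hj.hs1 e he).2.2.2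
    intro x
    rcases x with _ | x
    · rw [iv_none]
      have h1 := (hj.hs1 e he).1 (some 0)
      rw [hz] at h1
      exact h1.symm
    · by_cases hx : x = 0
      · rw [hx, iv_zero, hz]
      · rw [iv_some _ hx, hjJ e x he hx]
        rfl
  have hqt : ∀ r : A, ∀ x, qt (toHS hJ e he) r x = j e (tr r (j e x)) := by
    intro r x
    unfold qt
    rw [Equiv.Perm.mul_apply, Equiv.Perm.mul_apply, hiv, hiv]
  have hGeq : GenBy j e P R = Gam (toHS hJ e he) P R := by
    unfold GenBy Gam
    congr 2
    ext g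
    constructor
    · rintro ⟨r, hr, h⟩
      refine ⟨r, hr, ?_⟩
      ext x : 1
      rw [h, hqt]
    · rintro ⟨r, hr, rfl⟩
      exact ⟨r, hr, hqt r⟩
  rw [hGeq] at hG
  obtain ⟨m, n, hmn⟩ := perf_of_Gam S h0 (by
    intro y hy
    have hy0 : y ≠ 0 := fun h => hy (h ▸ P.zero_mem)
    exact hpair y _ hy (hjJ e y he hy0)) hG
  exact jordan_of_perf h2K j hJ hjJ he S hmn

end Pool.Agent.HuaDom91
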