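import Mathlib
import Pool.Agent.HuaDom91.Case3

/-!
Maximal isotropic closed subspaces: either they do not contain the unit and belong to a perfect
pair, or they are self dual.
-/

set_option autoImplicit false

namespace Pool.Agent.HuaDom91

open Pool.Agent.HuaTop84 Pool.Agent.HuaVal Pool.Agent.HuaOne84

variable {A : Type} [AddCommGroup A] {K : Type} [Field K] [Module K A]
variable {H : HS A} {L : Submodule K A}

/-- Maximal isotropic closed subspaces. -/
structure MaxI (H : HS A) (L : Submodule K A) : Prop where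
  cl : IsCl H L
  iso : L ≤ dual H L
  max : ∀ V : Submodule K A, IsCl H V → V ≤ dual H V → L ≤ V → V = L

theorem iso_sup {V W : Submodule K A} (hV : IsCl H V) (hW : IsCl H W) (h1 : V ≤ dual H V)
    (h2 : W ≤ dual H W) (h3 : W ≤ dual H V) : V ⊔ W ≤ dual H (V ⊔ W) := by
  have hVW := hV.sup hW
  apply sup_le
  · rw [le_dual_iff hV hVW]
    exact sup_le h1 h3
  · rw [le_dual_iff hW hVW]
    exact sup_le ((le_dual_iff hW hV).1 h3) h2

/-- Closed subspaces which do not contain the unit are isotropic. -/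
theorem iso_of_notMem (S : H.Scal K) {V : Submodule K A} (hV : IsCl H V) (h1 : H.one ∉ V) :
    V ≤ dual H V := by
  intro x hx
  have h2 := hV.shrink S h1 hx
  rwa [H.inv_one, H.U_one] at h2

theorem MaxI.p1 (S : H.Scal K) (h : MaxI H L) : P1 H L where
  p1 := fun x hx hx2 g hg => by
    have hx0 : x ≠ 0 := fun h0 => hx (h0 ▸ L.zero_mem)
    have hN := h.cl.trans S hx0
    have hb : N S L x ≤ dual H L := by
      intro y hy
      have h3 := h.cl.shrink S hx (mem_N.1 hy)
      rwa [H.U_inv_left x y hx0] at h3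
    have hd : N S L x ≤ dual H (N S L x) := by
      rw [dual_N S hx0]
      intro y hy
      rw [mem_N]
      have h3 := h.cl.shrink S hx2 (mem_N.1 hy)
      rw [H.inv_U x _ hx0, H.inv_one, H.U_U, H.U_one, H.U_inv_left x y hx0] at h3
      exact h3
    have hM := h.max _ (h.cl.sup hN) (iso_sup h.cl hN h.iso hd hb) le_sup_left
    have h4 : N S L x ≤ L := by
      calc N S L x ≤ L ⊔ N S L x := le_sup_right
        _ = L := hM
    apply h4
    rw [mem_N, H.U_inv_right x g hx0]
    exact hg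

/-- The first case. -/
theorem MaxI.perf [Infinite K] (S : H.Scal K) (h2 : (2 : K) ≠ 0) (h : MaxI H L) (hb : L ≠ ⊥)
    (hone : H.one ∉ L) : Perf H L (RL S L) :=
  (h.p1 S).perf S h2 hone h.cl hb fun V hV hLV hV1 => h.max V hV (iso_of_notMem S hV hV1) hLV

/-- The second case. -/
theorem MaxI.lagrangian [Infinite K] (S : H.Scal K) (h2 : (2 : K) ≠ 0) (h : MaxI H L)
    (hone : H.one ∈ L) : dual H L = L := by
  apply le_antisymm _ h.iso
  rw [dual_le_iff]
  intro y hy
  have : NeZero (2 : K) := ⟨h2⟩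
  obtain ⟨F, iF, iA, φ, hinj, e1, ⟨x, hx⟩, hinv, hU⟩ := HS.exists_field S y
  have hF := (h.p1 S).trace e1 hinv hU
  have h1 : (1 : F) ∈ L.comap φ := by
    change φ 1 ∈ L
    rw [e1]; exact hone
  have h3 := hF.D_inv h1 h2 (x := x) (by
    change φ x ∉ L
    rw [hx]; exact hy)
  rw [← hx, hinv]
  exact h3

theorem exists_maxI {V : Submodule K A} (hV : IsCl H V) (hi : V ≤ dual H V) :
    ∃ L : Submodule K A, MaxI H L ∧ V ≤ L := by
  obtain ⟨L, hVL, hL⟩ := zorn_le_nonempty₀ {W : Submodule K A | IsCl H W ∧ W ≤ dual H W} (by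
    intro c hc hchain y hy
    refine ⟨sSup c, ⟨isCl_sSup fun W hW => (hc hW).1, ?_⟩, fun W hW => le_sSup hW⟩
    apply sSup_le
    intro W hW
    rw [le_dual_iff (hc hW).1 (isCl_sSup fun W hW => (hc hW).1)]
    apply sSup_le
    intro W' hW'
    rcases hchain.total hW hW' with h | h
    · exact (hc hW').2.trans (dual_anti h)
    · exact h.trans (hc hW).2) V ⟨hV, hi⟩
  refine ⟨L, ⟨hL.prop.1, hL.prop.2, fun W hW hWi hLW => ?_⟩, hVL⟩
  exact le_antisymm (hL.le_of_ge ⟨hW, hWi⟩ hLW) hLW

/-- If there is no perfect pair then every isotropic closed subspace lies in a self dual one which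
contains the unit. -/
theorem exists_lagrangian [Infinite K] (S : H.Scal K) (h2 : (2 : K) ≠ 0)
    (hno : ∀ P R : Submodule K A, ¬ Perf H P R) {V : Submodule K A} (hV : IsCl H V)
    (hi : V ≤ dual H V) (hb : V ≠ ⊥) :
    ∃ Y : Submodule K A, V ≤ Y ∧ dual H Y = Y ∧ H.one ∈ Y := by
  obtain ⟨L, hL, hVL⟩ := exists_maxI hV hi
  have hLb : L ≠ ⊥ := fun h0 => hb (eq_bot_iff.2 (h0 ▸ hVL))
  have h1 : H.one ∈ L := by
    by_contra h1
    exact hno _ _ (hL.perf S h2 hLb h1)
  exact ⟨L, hVL, hL.lagrangian S h2 h1, h1⟩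

end Pool.Agent.HuaDom91
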