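import Mathlib
import Pool.Agent.HuaDom91.Main
import Pool.Agent.HuaVal.MainTop

/-!
Perfect pairs of subgroups of a rational Hua system.
-/

set_option autoImplicit false

open Filter Topology

namespace Pool.Agent.HuaDom91

open Pool.Agent.HuaTop84 Pool.Agent.HuaVal Pool.Agent.HuaOne84

variable {A : Type} [AddCommGroup A]

/-- A perfect pair of subgroups. -/
structure PerfG (H : HS A) (P R : AddSubgroup A) : Prop where
  ne_bot : P ≠ ⊥
  ne_top : P ≠ ⊤
  iff : ∀ y, y ≠ 0 → (y ∈ P ↔ H.inv y ∉ R)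

namespace PerfG

variable {H : HS A} {P R : AddSubgroup A} (h : PerfG H P R)

include h

theorem inv_mem {y : A} (hy : y ∉ P) : H.inv y ∈ R := by
  have hy0 : y ≠ 0 := fun h0 => hy (h0 ▸ P.zero_mem)
  by_contra h1
  exact hy ((h.iff y hy0).2 h1)

theorem inv_notMem {y : A} (hy : y ∈ P) (hy0 : y ≠ 0) : H.inv y ∉ R := (h.iff y hy0).1 hy

theorem exists_notMem' : ∃ y, y ∉ P := by
  by_contra hcon
  push Not at hcon
  exact h.ne_top (eq_top_iff.2 fun x _ => hcon x)

theorem exists_mem_ne' : ∃ y, y ∈ P ∧ y ≠ 0 := by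
  by_contra hcon
  push Not at hcon
  exact h.ne_bot (eq_bot_iff.2 fun x hx => AddSubgroup.mem_bot.2 (hcon x hx))

theorem symm : PerfG H R P where
  ne_bot := by
    obtain ⟨y, hy⟩ := h.exists_notMem'
    intro hR
    have h1 := h.inv_mem hy
    rw [hR, AddSubgroup.mem_bot] at h1
    have hy0 : y ≠ 0 := fun h0 => hy (h0 ▸ P.zero_mem)
    exact H.inv_ne y hy0 h1
  ne_top := by
    obtain ⟨y, hy, hy0⟩ := h.exists_mem_ne'
    intro hR
    exact h.inv_notMem hy hy0 (hR ▸ AddSubgroup.mem_top _)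
  iff := fun y hy => by
    have h1 := h.iff (H.inv y) (H.inv_ne y hy)
    rw [H.inv_inv] at h1
    rw [h1, not_not]

theorem inv_mem' {y : A} (hy : y ∉ R) : H.inv y ∈ P := h.symm.inv_mem hy

theorem add_ne {c p : A} (hc : c ∉ P) (hp : p ∈ P) : c + p ∉ P := fun h0 => hc (by
  have := P.sub_mem h0 hp
  rwa [add_sub_cancel_right] at this)

theorem coset {c p : A} (hc : c ∉ P) (hp : p ∈ P) : H.U c (H.inv (c + p) - H.inv c) ∈ P := by
  have hc0 : c ≠ 0 := fun h0 => hc (h0 ▸ P.zero_mem)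
  by_cases hp0 : p = 0
  · rw [hp0, add_zero, sub_self, map_zero]; exact P.zero_mem
  have hcp : c + p ≠ 0 := fun h0 => h.add_ne hc hp (h0 ▸ P.zero_mem)
  have h1 := H.inv_add c p hc0 hp0 hcp
  have h2 : H.inv (c + p) - H.inv c = -H.U (H.inv c) (H.inv (H.inv c + H.inv p)) := by
    rw [h1]; abel
  rw [h2, map_neg, H.U_inv_right c _ hc0]
  apply P.neg_mem
  apply h.inv_mem'
  intro h3
  apply h.inv_notMem hp hp0
  have h4 := R.sub_mem h3 (h.inv_mem hc)
  rwa [add_sub_cancel_left] at h4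

theorem U_le {c x : A} (hc : c ∉ P) (hx : H.U c x ∈ P) : x ∈ R := by
  have hc0 : c ≠ 0 := fun h0 => hc (h0 ▸ P.zero_mem)
  by_cases hx0 : x = 0
  · rw [hx0]; exact R.zero_mem
  have hp'0 : H.U c x ≠ 0 := fun h0 => hx0 (H.U_inj hc0 h0)
  have h1 : H.inv (H.U c x) + H.inv c ∉ R := by
    intro h2
    apply h.inv_notMem hx hp'0
    have h4 := R.sub_mem h2 (h.inv_mem hc)
    rwa [add_sub_cancel_right] at h4
  have h10 : H.inv (H.U c x) + H.inv c ≠ 0 := fun h0 => h1 (h0 ▸ R.zero_mem)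
  have hp : -H.inv (H.inv (H.U c x) + H.inv c) ∈ P := P.neg_mem (h.inv_mem' h1)
  set p := -H.inv (H.inv (H.U c x) + H.inv c) with hpdef
  have hp0 : p ≠ 0 := by
    rw [hpdef]; exact neg_ne_zero.mpr (H.inv_ne _ h10)
  have hcp : c + p ≠ 0 := fun h0 => h.add_ne hc hp (h0 ▸ P.zero_mem)
  have h2 := H.inv_add c p hc0 hp0 hcp
  have h3 : H.inv p = -(H.inv (H.U c x) + H.inv c) := by
    rw [hpdef, H.inv_neg, H.inv_inv]
  have h4 : H.inv c + H.inv p = -H.inv (H.U c x) := by rw [h3]; abel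
  rw [h4, H.inv_neg, H.inv_inv, map_neg, H.U_inv_left c x hc0] at h2
  have h5 := h.inv_mem (h.add_ne hc hp)
  rw [h2] at h5
  have h6 := R.sub_mem h5 (h.inv_mem hc)
  have h7 : H.inv c - -x - H.inv c = x := by abel
  rwa [h7] at h6

theorem le_U {c x : A} (hc : c ∈ P) (hc0 : c ≠ 0) (hx : x ∈ R) : H.U c x ∈ P := by
  apply h.symm.U_le (h.inv_notMem hc hc0)
  rw [H.U_inv_left c x hc0]
  exact hx

end PerfG

section Rational

variable [Module ℚ A]

/-- The largest subspace contained in a subgroup. -/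
def inn (P : AddSubgroup A) : Submodule ℚ A where
  carrier := {x | ∀ q : ℚ, q • x ∈ P}
  zero_mem' := fun q => by rw [smul_zero]; exact P.zero_mem
  add_mem' := fun {x y} hx hy q => by rw [smul_add]; exact P.add_mem (hx q) (hy q)
  smul_mem' := fun c x hx q => by rw [smul_smul]; exact hx _

theorem mem_inn {P : AddSubgroup A} {x : A} : x ∈ inn P ↔ ∀ q : ℚ, q • x ∈ P := Iff.rfl

theorem smul_nat_mem {P : AddSubgroup A} {x : A} (n : ℕ) (hx : x ∈ P) : (n : ℚ) • x ∈ P := by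
  rw [Nat.cast_smul_eq_nsmul]
  exact P.nsmul_mem hx n

theorem smul_int_mem {P : AddSubgroup A} {x : A} (n : ℤ) (hx : x ∈ P) : (n : ℚ) • x ∈ P := by
  rw [Int.cast_smul_eq_zsmul]
  exact P.zsmul_mem hx n

/-- The subspace generated by a subgroup. -/
def out (P : AddSubgroup A) : Submodule ℚ A where
  carrier := {x | ∃ n : ℕ, n ≠ 0 ∧ (n : ℚ) • x ∈ P}
  zero_mem' := ⟨1, one_ne_zero, by rw [smul_zero]; exact P.zero_mem⟩
  add_mem' := by
    rintro x y ⟨n, hn, hx⟩ ⟨m, hm, hy⟩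
    refine ⟨n * m, mul_ne_zero hn hm, ?_⟩
    rw [smul_add]
    apply P.add_mem
    · have := smul_nat_mem m hx
      rw [smul_smul] at this
      push_cast
      rwa [mul_comm]
    · have := smul_nat_mem n hy
      rw [smul_smul] at this
      push_cast
      exact this
  smul_mem' := by
    rintro c x ⟨n, hn, hx⟩
    refine ⟨n * c.den, mul_ne_zero hn c.den_nz, ?_⟩
    have := smul_int_mem c.num hx
    rw [smul_smul] at this ⊢
    have e : ((n * c.den : ℕ) : ℚ) * c = (c.num : ℚ) * n := by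
      push_cast
      rw [mul_assoc, mul_comm (c.den : ℚ), Rat.mul_den_eq_num]
      ring
    rw [e]
    exact this

theorem mem_out {P : AddSubgroup A} {x : A} :
    x ∈ out P ↔ ∃ n : ℕ, n ≠ 0 ∧ (n : ℚ) • x ∈ P := Iff.rfl

theorem mem_out' {P : AddSubgroup A} {x : A} {q : ℚ} (hq : q ≠ 0) (hx : q • x ∈ P) :
    x ∈ out P := by
  have h1 : q • x ∈ out P := ⟨1, one_ne_zero, by
    rw [Nat.cast_one, one_smul]; exact hx⟩
  exact ((out P).smul_mem_iff hq).1 h1

theorem in_out {H : HS A} (S : H.Scal ℚ) {P R : AddSubgroup A} (h : PerfG H P R) (y : A)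
    (hy : y ≠ 0) : y ∈ inn P ↔ H.inv y ∉ out R := by
  constructor
  · rintro h1 ⟨n, hn, h2⟩
    have hn' : (n : ℚ) ≠ 0 := by exact_mod_cast hn
    have h3 := h1 (n : ℚ)⁻¹
    have h4 := h.inv_notMem h3 (smul_ne_zero (inv_ne_zero hn') hy)
    rw [S.inv_smul _ _ (inv_ne_zero hn'), inv_inv] at h4
    exact h4 h2
  · intro h1 q
    by_cases hq : q = 0
    · rw [hq, zero_smul]; exact P.zero_mem
    by_contra h2
    apply h1
    have h3 := h.inv_mem h2
    rw [S.inv_smul _ _ hq] at h3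
    exact mem_out' (inv_ne_zero hq) h3

end Rational

end Pool.Agent.HuaDom91
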