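import Mathlib
import Pool.Agent.HuaDom91.SubG

/-!
Perfect pairs of subgroups of a rational Hua system: the adic case.
-/

set_option autoImplicit false

open Filter Topology

namespace Pool.Agent.HuaDom91

open Pool.Agent.HuaTop84 Pool.Agent.HuaVal Pool.Agent.HuaOne84

variable {A : Type} [AddCommGroup A] [Module ℚ A]

theorem dvd_mem {P : AddSubgroup A} {x : A} {n m : ℕ} (hn : n ≠ 0) (hm : m ≠ 0)
    (h : ((n * m : ℕ) : ℚ)⁻¹ • x ∈ P) : (n : ℚ)⁻¹ • x ∈ P := by
  have h1 := smul_nat_mem m h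
  have hn' : (n : ℚ) ≠ 0 := by exact_mod_cast hn
  have hm' : (m : ℚ) ≠ 0 := by exact_mod_cast hm
  rw [smul_smul] at h1
  have e : (m : ℚ) * ((n * m : ℕ) : ℚ)⁻¹ = (n : ℚ)⁻¹ := by
    push_cast
    field_simp
  rwa [e] at h1

/-- The filter basis of the multiples of a subgroup. -/
@[reducible] def adic (P : AddSubgroup A) : AddGroupFilterBasis A :=
  addGroupFilterBasisOfComm {U | ∃ n : ℕ, n ≠ 0 ∧ U = {x | (n : ℚ)⁻¹ • x ∈ P}}
    ⟨_, 1, one_ne_zero, rfl⟩
    (by
      rintro _ _ ⟨n, hn, rfl⟩ ⟨m, hm, rfl⟩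
      refine ⟨_, ⟨n * m, mul_ne_zero hn hm, rfl⟩, fun x hx => ⟨dvd_mem hn hm hx, ?_⟩⟩
      apply dvd_mem hm hn
      rw [mul_comm]
      exact hx)
    (by
      rintro _ ⟨n, hn, rfl⟩
      change (n : ℚ)⁻¹ • (0 : A) ∈ P
      rw [smul_zero]
      exact P.zero_mem)
    (by
      rintro _ ⟨n, hn, rfl⟩
      refine ⟨_, ⟨n, hn, rfl⟩, ?_⟩
      rintro _ ⟨x, hx, y, hy, rfl⟩
      change (n : ℚ)⁻¹ • (x + y) ∈ P
      rw [smul_add]
      exact P.add_mem hx hy)
    (by
      rintro _ ⟨n, hn, rfl⟩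
      refine ⟨_, ⟨n, hn, rfl⟩, ?_⟩
      intro x hx
      change (n : ℚ)⁻¹ • (-x) ∈ P
      rw [smul_neg]
      exact P.neg_mem hx)

theorem adic_basis (P : AddSubgroup A) : (@nhds A (adic P).topology 0).HasBasis
    (fun n : ℕ => n ≠ 0) (fun n => {x | (n : ℚ)⁻¹ • x ∈ P}) := by
  have h := (adic P).nhds_zero_hasBasis
  rw [hasBasis_iff] at h ⊢
  intro t
  rw [h]
  constructor
  · rintro ⟨U, ⟨n, hn, rfl⟩, hU⟩
    exact ⟨n, hn, hU⟩
  · rintro ⟨n, hn, hU⟩
    exact ⟨_, ⟨n, hn, rfl⟩, hU⟩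

/-- The adic case. -/
theorem jordan_adic (j : A → Option A → Option A) (hj : IsHua j) {J : A → A → A}
    (hJ : JSys J) (hjJ : ∀ a b : A, a ≠ 0 → b ≠ 0 → j a (some b) = some (J a b)) {e : A}
    (he : e ≠ 0) (S : (toHS hJ e he).Scal ℚ) {P R : AddSubgroup A}
    (h : PerfG (toHS hJ e he) P R) (hin : inn P = ⊥) (hout : out P = ⊤) : FromJordan j := by
  set H := toHS hJ e he with hH
  have hone : H.one = e := rfl
  let _ : TopologicalSpace A := (adic P).topology
  have : IsTopologicalAddGroup A := (adic P).isTopologicalAddGroup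
  have hb := adic_basis P
  -- separation
  have hk : ∀ x : A, x ≠ 0 → ∃ k : ℕ, k ≠ 0 ∧ (k : ℚ)⁻¹ • x ∉ P := by
    intro x hx
    by_contra hcon
    push Not at hcon
    apply hx
    have h1 : x ∈ inn P := by
      intro q
      have h2 := smul_int_mem q.num (hcon q.den q.den_nz)
      rw [smul_smul] at h2
      have e1 : (q.num : ℚ) * (q.den : ℚ)⁻¹ = q := by
        rw [← div_eq_mul_inv, Rat.num_div_den]
      rwa [e1] at h2
    rw [hin, Submodule.mem_bot] at h1
    exact h1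
  have hn : ∀ x : A, ∃ n : ℕ, n ≠ 0 ∧ (n : ℚ) • x ∈ P := by
    intro x
    have h1 : x ∈ out P := hout ▸ Submodule.mem_top
    exact h1
  have : T2Space A := by
    apply IsTopologicalAddGroup.t2Space_of_zero_sep
    intro x hx
    obtain ⟨k, hk0, hk1⟩ := hk x hx
    exact ⟨_, hb.mem_of_mem hk0, hk1⟩
  have : ContinuousConstSMul ℚ A := by
    constructor
    intro q
    let f : A →+ A := ⟨⟨fun x => q • x, smul_zero q⟩, smul_add q⟩
    have hf : Continuous f := by
      apply continuous_of_continuousAt_zero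
      rw [ContinuousAt, map_zero]
      rw [hb.tendsto_iff hb]
      intro n hn0
      refine ⟨n * q.den, mul_ne_zero hn0 q.den_nz, fun x hx => ?_⟩
      change (n : ℚ)⁻¹ • q • x ∈ P
      have h1 := smul_int_mem q.num (show ((n * q.den : ℕ) : ℚ)⁻¹ • x ∈ P from hx)
      rw [smul_smul] at h1 ⊢
      have e1 : (q.num : ℚ) * ((n * q.den : ℕ) : ℚ)⁻¹ = (n : ℚ)⁻¹ * q := by
        push_cast
        rw [mul_inv, mul_left_comm, ← div_eq_mul_inv, Rat.num_div_den]
      rwa [e1] at h1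
    exact hf
  -- homogeneity
  have hK : ∀ (a b c : A) (t : ℚ), a ≠ 0 → b ≠ 0 → t ≠ 0 → j a (some b) = some c →
      j a (some (t • b)) = some (t⁻¹ • c) := by
    intro a b c t ha hb ht hc
    rw [hjJ a b ha hb] at hc
    have h3 := Option.some.inj hc
    rw [hjJ a _ ha (smul_ne_zero ht hb), ← h3]
    congr 1
    have h1 : ∀ y, J a y = H.U a (H.inv y) := by
      intro y
      change J a y = HuaVal.H J e a (J e y)
      rw [H_of_ne ha, hJ.inv e _ he]
    rw [h1, h1, S.inv_smul t b ht, S.U_smul]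
  -- the translates
  have hM : ∀ x : A, x ≠ 0 → ∃ M : ℕ, M ≠ 0 ∧ ∀ z, H.U x z ∈ P → (M : ℚ) • z ∈ P := by
    intro x hx
    obtain ⟨k, hk0, hk1⟩ := hk x hx
    obtain ⟨n, hn0, hn1⟩ := hn e
    have hk' : (k : ℚ) ≠ 0 := by exact_mod_cast hk0
    have hn' : (n : ℚ) ≠ 0 := by exact_mod_cast hn0
    refine ⟨k * k * (n * n), mul_ne_zero (mul_ne_zero hk0 hk0) (mul_ne_zero hn0 hn0), ?_⟩
    intro z hz
    have h1 : H.U ((k : ℚ)⁻¹ • x) (((k : ℚ) * k) • z) ∈ P := by
      rw [S.U_smul_left, S.U_smul, smul_smul]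
      have e1 : (k : ℚ)⁻¹ * (k : ℚ)⁻¹ * (k * k) = 1 := by field_simp
      rw [e1, one_smul]
      exact hz
    have h2 := h.U_le hk1 h1
    have h3 := h.le_U hn1 (smul_ne_zero hn' he) h2
    rw [S.U_smul_left] at h3
    have h4 : H.U e (((k : ℚ) * k) • z) = ((k : ℚ) * k) • z := by
      rw [← hone]; exact H.U_one _
    rw [h4, smul_smul] at h3
    push_cast
    rwa [mul_comm]
  refine HuaVal.topological j hj hK (Filter.map (fun n : ℕ => (n.factorial : ℚ)) atTop) ?_ ?_
    e he (J e) ?_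
  · rw [Filter.eventually_map]
    exact Eventually.of_forall fun n => by exact_mod_cast n.factorial_ne_zero
  · intro n hn0 a
    rw [Filter.tendsto_map'_iff]
    rw [hb.tendsto_right_iff]
    intro k hk0
    obtain ⟨N, hN0, hN1⟩ := hn a
    rw [Filter.eventually_atTop]
    refine ⟨k * N, fun m hm => ?_⟩
    change (k : ℚ)⁻¹ • (m.factorial : ℚ) ^ n • a ∈ P
    obtain ⟨c, hc⟩ : k * N ∣ m.factorial ^ n :=
      (Nat.dvd_factorial (Nat.pos_of_ne_zero (mul_ne_zero hk0 hN0)) hm).trans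
        (dvd_pow_self _ hn0)
    have hk' : (k : ℚ) ≠ 0 := by exact_mod_cast hk0
    have h1 : (m.factorial : ℚ) ^ n = (k : ℚ) * N * c := by exact_mod_cast hc
    rw [h1, smul_smul]
    have e1 : (k : ℚ)⁻¹ * (k * N * c) = c * N := by field_simp
    rw [e1, ← smul_smul]
    exact smul_nat_mem c hN1
  · intro x hx
    refine ⟨hjJ e x he hx, ?_⟩
    obtain ⟨M, hM0, hM1⟩ := hM x hx
    obtain ⟨k, hk0, hk1⟩ := hk x hx
    have hk' : (k : ℚ) ≠ 0 := by exact_mod_cast hk0
    have hM' : (M : ℚ) ≠ 0 := by exact_mod_cast hM0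
    have key : Tendsto (fun p => J e (x + p) - J e x) (𝓝 0) (𝓝 0) := by
      rw [hb.tendsto_iff hb]
      intro n hn0
      have hn' : (n : ℚ) ≠ 0 := by exact_mod_cast hn0
      refine ⟨M * n * k, mul_ne_zero (mul_ne_zero hM0 hn0) hk0, fun p hp => ?_⟩
      change (n : ℚ)⁻¹ • (J e (x + p) - J e x) ∈ P
      set m : ℕ := M * n * k with hm
      have hm0 : m ≠ 0 := mul_ne_zero (mul_ne_zero hM0 hn0) hk0
      have hm' : (m : ℚ) ≠ 0 := by exact_mod_cast hm0
      have hx' : (m : ℚ)⁻¹ • x ∉ P := by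
        intro h1
        apply hk1
        have h2 : ((k * (M * n) : ℕ) : ℚ)⁻¹ • x ∈ P := by
          rw [mul_comm k (M * n), ← hm]; exact h1
        exact dvd_mem hk0 (mul_ne_zero hM0 hn0) h2
      have h1 := h.coset hx' (show (m : ℚ)⁻¹ • p ∈ P from hp)
      rw [← smul_add, S.inv_smul _ _ (inv_ne_zero hm'), S.inv_smul _ _ (inv_ne_zero hm'),
        inv_inv, ← smul_sub, S.U_smul_left, S.U_smul, smul_smul] at h1
      have e1 : (m : ℚ)⁻¹ * (m : ℚ)⁻¹ * m = (m : ℚ)⁻¹ := by field_simp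
      rw [e1, ← S.U_smul] at h1
      have h2 := smul_nat_mem k (hM1 _ h1)
      rw [smul_smul, smul_smul] at h2
      have e2 : (k : ℚ) * (M : ℚ) * (m : ℚ)⁻¹ = (n : ℚ)⁻¹ := by
        rw [hm]
        push_cast
        field_simp
      rw [e2] at h2
      exact h2
    have h2 := key.add_const (J e x)
    simp only [sub_add_cancel, zero_add] at h2
    rw [ContinuousAt, ← map_add_left_nhds_zero x, tendsto_map'_iff]
    exact h2

/-- A rational Hua system with a perfect pair of subgroups comes from a quadratic Jordan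
division ring. -/
theorem jordan_of_perfG (j : A → Option A → Option A) (hj : IsHua j) {J : A → A → A}
    (hJ : JSys J) (hjJ : ∀ a b : A, a ≠ 0 → b ≠ 0 → j a (some b) = some (J a b)) {e : A}
    (he : e ≠ 0) (S : (toHS hJ e he).Scal ℚ) {P R : AddSubgroup A}
    (h : PerfG (toHS hJ e he) P R) : FromJordan j := by
  by_cases h1 : inn P = ⊥
  · by_cases h2 : inn R = ⊥
    · refine jordan_adic j hj hJ hjJ he S h h1 ?_
      rw [eq_top_iff]
      intro x _
      by_cases hx : x = 0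
      · rw [hx]; exact Submodule.zero_mem _
      have h3 := in_out S h.symm ((toHS hJ e he).inv x) ((toHS hJ e he).inv_ne x hx)
      rw [h2, (toHS hJ e he).inv_inv, Submodule.mem_bot] at h3
      by_contra h4
      exact (toHS hJ e he).inv_ne x hx (h3.2 h4)
    · refine jordan_of_perf (K := ℚ) (by norm_num) j hJ hjJ he S (P := inn R) (R := out P)
        ⟨h2, ?_, in_out S h.symm⟩
      intro h3
      apply h.symm.ne_top
      rw [eq_top_iff]
      intro x _
      have h4 : x ∈ inn R := h3 ▸ Submodule.mem_top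
      have h5 := h4 1
      rwa [one_smul] at h5
  · refine jordan_of_perf (K := ℚ) (by norm_num) j hJ hjJ he S (P := inn P) (R := out R)
      ⟨h1, ?_, in_out S h⟩
    intro h3
    apply h.ne_top
    rw [eq_top_iff]
    intro x _
    have h4 : x ∈ inn P := h3 ▸ Submodule.mem_top
    have h5 := h4 1
    rwa [one_smul] at h5

end Pool.Agent.HuaDom91
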