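import Mathlib
import Pool.Agent.HuaDom91.SubG2
import Pool.Agent.HuaDom91.Final

/-!
The group generated by a pair of subgroups of a rational Hua system, and the final theorem.
-/

set_option autoImplicit false

namespace Pool.Agent.HuaDom91

open Pool.Agent.HuaTop84 Pool.Agent.HuaVal Pool.Agent.HuaOne84

variable {A : Type} [AddCommGroup A] {H : HS A}

/-- Lemma G for subgroups. -/
theorem exists_perfG {P R : AddSubgroup A} (h0 : P ≠ ⊥) (h1 : P ≠ ⊤)
    (hpair : ∀ y, y ∉ P → H.inv y ∈ R)
    (hT : ∀ t, t ≠ 0 → t ∈ P → H.inv t ∈ R → ∀ a, a ∈ P ↔ H.U (H.inv t) a ∈ R) :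
    ∃ m : AddSubgroup A, PerfG H m R := by
  have hadd : ∀ v w, v ∈ P → H.inv v ∉ R → w ∈ P → H.inv w ∉ R → v + w ≠ 0 →
      H.inv (v + w) ∉ R := by
    intro v w hv hv' hw hw' hu0 hu'
    have hv0 : v ≠ 0 := by
      intro h
      rw [h, H.inv_zero] at hv'
      exact hv' R.zero_mem
    have hw0 : w ≠ 0 := by
      intro h
      rw [h, H.inv_zero] at hw'
      exact hw' R.zero_mem
    set u := v + w with hudef
    have hu : u ∈ P := P.add_mem hv hw
    have hiff := hT u hu0 hu hu'
    have hv1 : H.U u (H.inv v) ∉ P := by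
      rw [hiff, H.U_inv_left u _ hu0]
      exact hv'
    have hw1 : H.U u (H.inv w) ∉ P := by
      rw [hiff, H.U_inv_left u _ hu0]
      exact hw'
    have hy : H.U u (H.inv v) - u ∉ P := by
      intro h
      apply hv1
      have := P.add_mem h hu
      rwa [sub_add_cancel] at this
    have hy' : H.U u (H.inv (H.U u (H.inv v) - u)) ∈ P := by
      rw [hiff, H.U_inv_left u _ hu0]
      exact hpair _ hy
    have e1 : H.U u (H.inv v) - u = H.U u (H.inv v - H.inv u) := by
      rw [map_sub, H.U_self]
    have e2 : H.U u (H.inv (H.U u (H.inv v) - u)) = H.inv (H.inv v - H.inv u) := by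
      rw [e1, H.inv_U u _ hu0, H.U_inv_right u _ hu0]
    have huv : u + -v ≠ 0 := by
      rw [hudef]
      intro h
      apply hw0
      rw [← h]
      abel
    have e3 := H.inv_add u (-v) hu0 (neg_ne_zero.mpr hv0) huv
    have e4 : u + -v = w := by rw [hudef]; abel
    have e5 : H.inv u + H.inv (-v) = -(H.inv v - H.inv u) := by rw [H.inv_neg]; abel
    rw [e4, e5, H.inv_neg, map_neg, sub_neg_eq_add] at e3
    have e6 : H.U u (H.inv w) = u + H.inv (H.inv v - H.inv u) := by
      rw [e3, map_add, H.U_self, H.U_inv_right u _ hu0]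
    apply hw1
    rw [e6, ← e2]
    exact P.add_mem hu hy'
  have hRtop : ∃ y, y ≠ 0 ∧ H.inv y ∉ R := by
    obtain ⟨v, hv, hv0⟩ : ∃ v, v ∈ P ∧ v ≠ 0 := by
      by_contra hcon
      push Not at hcon
      exact h0 (eq_bot_iff.2 fun x hx => AddSubgroup.mem_bot.2 (hcon x hx))
    by_cases hv' : H.inv v ∈ R
    · obtain ⟨a, ha⟩ : ∃ a, a ∉ P := by
        by_contra hcon
        push Not at hcon
        exact h1 (eq_top_iff.2 fun x _ => hcon x)
      have ha' : H.U (H.inv v) a ∉ R := fun h => ha ((hT v hv0 hv hv' a).2 h)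
      have ha0 : H.U (H.inv v) a ≠ 0 := fun h => ha' (h ▸ R.zero_mem)
      refine ⟨H.inv (H.U (H.inv v) a), H.inv_ne _ ha0, ?_⟩
      rw [H.inv_inv]
      exact ha'
    · exact ⟨v, hv0, hv'⟩
  let m : AddSubgroup A :=
    { carrier := {v | v = 0 ∨ (v ∈ P ∧ H.inv v ∉ R)}
      zero_mem' := Or.inl rfl
      add_mem' := by
        rintro v w (rfl | ⟨hv, hv'⟩) (rfl | ⟨hw, hw'⟩)
        · exact Or.inl (add_zero 0)
        · rw [zero_add]; exact Or.inr ⟨hw, hw'⟩
        · rw [add_zero]; exact Or.inr ⟨hv, hv'⟩
        · by_cases h : v + w = 0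
          · exact Or.inl h
          · exact Or.inr ⟨P.add_mem hv hw, hadd v w hv hv' hw hw' h⟩
      neg_mem' := by
        rintro v (rfl | ⟨hv, hv'⟩)
        · exact Or.inl neg_zero
        · refine Or.inr ⟨P.neg_mem hv, ?_⟩
          rw [H.inv_neg, neg_mem_iff]
          exact hv' }
  have hm : ∀ v, v ∈ m ↔ v = 0 ∨ (v ∈ P ∧ H.inv v ∉ R) := fun v => Iff.rfl
  refine ⟨m, ?_, ?_, ?_⟩
  · obtain ⟨y, hy0, hy⟩ := hRtop
    intro h
    have h2 : y ∈ m := (hm y).2 (Or.inr ⟨by
      by_contra hyP
      exact hy (hpair y hyP), hy⟩)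
    rw [h, AddSubgroup.mem_bot] at h2
    exact hy0 h2
  · intro h
    apply h1
    rw [eq_top_iff]
    intro x _
    have h2 : x ∈ m := h ▸ AddSubgroup.mem_top x
    rcases (hm x).1 h2 with h3 | h3
    · rw [h3]; exact P.zero_mem
    · exact h3.1
  · intro y hy0
    rw [hm]
    constructor
    · rintro (h | h)
      · exact absurd h hy0
      · exact h.2
    · intro h
      refine Or.inr ⟨?_, h⟩
      by_contra hyP
      exact h (hpair y hyP)

variable (H) in
/-- The group generated by the translations by `P` and the quasi-translations by `R`. -/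
noncomputable def GamG (P R : AddSubgroup A) : Subgroup (Equiv.Perm (Option A)) :=
  Subgroup.closure ({g | ∃ p ∈ P, g = tr p} ∪ {g | ∃ r ∈ R, g = qt H r})

/-- A pair of subgroups such that the group does not contain all translations gives a
perfect pair of subgroups. -/
theorem perfG_of_Gam {P R : AddSubgroup A} (h0 : P ≠ ⊥)
    (hpair : ∀ y, y ∉ P → H.inv y ∈ R) (hG : ∃ a, tr a ∉ GamG H P R) :
    ∃ m n : AddSubgroup A, PerfG H m n := by
  let PG : AddSubgroup A :=
    { carrier := {a | tr a ∈ GamG H P R}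
      zero_mem' := by
        change tr (0 : A) ∈ GamG H P R
        rw [tr_zero]
        exact Subgroup.one_mem _
      add_mem' := by
        intro a b ha hb
        change tr (a + b) ∈ GamG H P R
        rw [tr_add]
        exact Subgroup.mul_mem _ ha hb
      neg_mem' := by
        intro a ha
        change tr (-a) ∈ GamG H P R
        rw [tr_neg]
        exact Subgroup.inv_mem _ ha }
  let RG : AddSubgroup A :=
    { carrier := {a | qt H a ∈ GamG H P R}
      zero_mem' := by
        change qt H 0 ∈ GamG H P R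
        rw [qt_zero]
        exact Subgroup.one_mem _
      add_mem' := by
        intro a b ha hb
        change qt H (a + b) ∈ GamG H P R
        rw [qt_add]
        exact Subgroup.mul_mem _ ha hb
      neg_mem' := by
        intro a ha
        change qt H (-a) ∈ GamG H P R
        rw [qt_neg]
        exact Subgroup.inv_mem _ ha }
  have hP : P ≤ PG := fun p hp => Subgroup.subset_closure (Or.inl ⟨p, hp, rfl⟩)
  have hR : R ≤ RG := fun r hr => Subgroup.subset_closure (Or.inr ⟨r, hr, rfl⟩)
  obtain ⟨m, hm⟩ := exists_perfG (H := H) (P := PG) (R := RG) (by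
    intro h
    apply h0
    rw [eq_bot_iff, ← h]
    exact hP) (by
    intro h
    obtain ⟨a, ha⟩ := hG
    apply ha
    have h2 : a ∈ PG := h ▸ AddSubgroup.mem_top a
    exact h2) (fun y hy => hR (hpair y fun h => hy (hP h)))
    (fun t ht h1 h2 a => mem_iff (G := GamG H P R) H ht h1 h2 a)
  exact ⟨m, RG, hm⟩

/-- A Hua system over an infinite field `K` of characteristic not two with a pair of subgroups,
stable under the scalars outside the prime field, which does not generate all translations comes
from a quadratic Jordan division ring. -/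
theorem jordan_of_pairG {K : Type} [Field K] [Infinite K] (h2K : (2 : K) ≠ 0)
    {A : Type} [AddCommGroup A] [Module K A] (j : A → Option A → Option A) (hj : IsHua j)
    (hK : ∀ (a b c : A) (t : K), a ≠ 0 → b ≠ 0 → t ∉ (⊥ : Subfield K) →
      j a (some b) = some c → j a (some (t • b)) = some (t⁻¹ • c))
    {e : A} (he : e ≠ 0) {P R : AddSubgroup A} (h0 : P ≠ ⊥)
    (hP : ∀ t : K, t ∉ (⊥ : Subfield K) → ∀ x ∈ P, t • x ∈ P)
    (hR : ∀ t : K, t ∉ (⊥ : Subfield K) → ∀ x ∈ R, t • x ∈ R)
    (hpair : ∀ y z, y ∉ P → j e (some y) = some z → z ∈ R)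
    (hG : ∃ a, tr a ∉ GenBy j e (P : Set A) R) : FromJordan j := by
  by_cases hbot : ∃ t0 : K, t0 ∉ (⊥ : Subfield K)
  · obtain ⟨t0, ht0⟩ := hbot
    have hst : ∀ Q : AddSubgroup A, (∀ t : K, t ∉ (⊥ : Subfield K) → ∀ x ∈ Q, t • x ∈ Q) →
        ∀ (t : K), ∀ x ∈ Q, t • x ∈ Q := by
      intro Q hQ t x hx
      by_cases ht : t ∈ (⊥ : Subfield K)
      · have h1 : t + t0 ∉ (⊥ : Subfield K) := by
          intro h
          apply ht0
          have h2 := (⊥ : Subfield K).sub_mem h ht
          rwa [add_sub_cancel_left] at h2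
        have h2 := Q.sub_mem (hQ _ h1 x hx) (hQ _ ht0 x hx)
        rw [add_smul, add_sub_cancel_right] at h2
        exact h2
      · exact hQ t ht x hx
    let P' : Submodule K A := { P with smul_mem' := fun t x hx => hst P hP t x hx }
    let R' : Submodule K A := { R with smul_mem' := fun t x hx => hst R hR t x hx }
    refine jordan_of_pair h2K j hj hK he (P := P') (R := R') ?_ hpair hG
    intro h
    apply h0
    rw [eq_bot_iff]
    intro x hx
    have h1 : x ∈ P' := hx
    rw [h, Submodule.mem_bot] at h1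
    exact AddSubgroup.mem_bot.2 h1
  · push Not at hbot
    have hchar : CharZero K := by
      obtain ⟨p, hp⟩ := CharP.exists K
      rcases CharP.char_is_prime_or_zero K p with h | h
      · exfalso
        have : Fact p.Prime := ⟨h⟩
        have h1 := Subfield.card_bot K p
        have h2 : Finite (⊥ : Subfield K) := Nat.finite_of_card_ne_zero (by
          rw [h1]; exact h.ne_zero)
        have h3 : Finite K := Finite.of_injective (fun t : K => (⟨t, hbot t⟩ : (⊥ : Subfield K)))
          (fun a b hab => congrArg Subtype.val hab)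
        exact not_finite K
      · subst h
        exact CharP.charP_to_charZero K
    let _ : Module ℚ A := Module.compHom A (algebraMap ℚ K)
    have hA : ∀ (n : ℕ) (a : A), n ≠ 0 → n • a = 0 → a = 0 := by
      intro n a hn h
      rw [← Nat.cast_smul_eq_nsmul K] at h
      exact (smul_eq_zero.mp h).resolve_left (by exact_mod_cast hn)
    obtain ⟨J, hJ, hjJ⟩ := exists_J hj
    have S : (toHS hJ e he).Scal ℚ := (toHS hJ e he).ratScal hA
    -- the inversion
    have hiv : ∀ x, iv (toHS hJ e he) x = j e x := by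
      have hz := (hj.hs1 e he).2.2.2
      intro x
      rcases x with _ | x
      · rw [iv_none]
        have h1 := (hj.hs1 e he).1 (some 0)
        rw [hz] at h1
        exact h1.symm
      · by_cases hx : x = 0
        · rw [hx, iv_zero, hz]
        · rw [iv_some _ hx, hjJ e x he hx]
          rfl
    have hqt : ∀ r : A, ∀ x, qt (toHS hJ e he) r x = j e (tr r (j e x)) := by
      intro r x
      unfold qt
      rw [Equiv.Perm.mul_apply, Equiv.Perm.mul_apply, hiv, hiv]
    have hGeq : GenBy j e (P : Set A) R = GamG (toHS hJ e he) P R := by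
      unfold GenBy GamG
      congr 2
      ext g
      constructor
      · rintro ⟨r, hr, h⟩
        refine ⟨r, hr, ?_⟩
        ext x : 1
        rw [h, hqt]
      · rintro ⟨r, hr, rfl⟩
        exact ⟨r, hr, hqt r⟩
    rw [hGeq] at hG
    obtain ⟨m, n, hmn⟩ := perfG_of_Gam h0 (by
      intro y hy
      have hy0 : y ≠ 0 := fun h => hy (h ▸ P.zero_mem)
      exact hpair y _ hy (hjJ e y he hy0)) hG
    exact jordan_of_perfG j hj hJ hjJ he S hmn

end Pool.Agent.HuaDom91
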